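import Mathlib

/-!
The Bruhat decomposition for the lower unitriangular matrices: every invertible matrix is
`u w u'` with `u`, `u'` lower unitriangular and `w` monomial.
-/

set_option autoImplicit false
set_option linter.unusedSectionVars false

open Finset

universe u v w z

namespace Pool.Agent.R837.FD

section bruhat

variable {F : Type v} [Field F] {n : ℕ}

/-- The lower unitriangular matrices. -/
def LU (u : Matrix (Fin n) (Fin n) F) : Prop :=
  (∀ i j, i < j → u i j = 0) ∧ ∀ i, u i i = 1

lemma LU.one : LU (1 : Matrix (Fin n) (Fin n) F) :=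
  ⟨fun i j hij => Matrix.one_apply_ne hij.ne, fun i => Matrix.one_apply_eq i⟩

lemma LU.mul {u v : Matrix (Fin n) (Fin n) F} (hu : LU u) (hv : LU v) : LU (u * v) := by
  refine ⟨fun i j hij => ?_, fun i => ?_⟩
  · rw [Matrix.mul_apply]
    refine Finset.sum_eq_zero fun l _ => ?_
    rcases lt_or_ge i l with h | h
    · rw [hu.1 i l h, zero_mul]
    · rw [hv.1 l j (lt_of_le_of_lt h hij), mul_zero]
  · rw [Matrix.mul_apply, Finset.sum_eq_single i]
    · rw [hu.2, hv.2, mul_one]
    · intro l _ hl
      rcases lt_or_gt_of_ne hl with h | h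
      · rw [hv.1 l i h, mul_zero]
      · rw [hu.1 i l h, zero_mul]
    · intro h
      exact absurd (Finset.mem_univ i) h

lemma LU.det {u : Matrix (Fin n) (Fin n) F} (hu : LU u) : u.det = 1 := by
  rw [Matrix.det_of_lowerTriangular u fun i j hij => hu.1 i j hij]
  exact Finset.prod_eq_one fun i _ => hu.2 i

/-- The matrix which adds multiples of the row `i0` to the other rows. -/
def colM (i0 : Fin n) (c : Fin n → F) : Matrix (Fin n) (Fin n) F :=
  Matrix.of fun i j => (if i = j then 1 else 0) + if j = i0 then c i else 0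

/-- The matrix which adds multiples of the column `j0` to the other columns. -/
def rowM (j0 : Fin n) (d : Fin n → F) : Matrix (Fin n) (Fin n) F :=
  Matrix.of fun i j => (if i = j then 1 else 0) + if i = j0 then d j else 0

lemma colM_mul (i0 : Fin n) (c : Fin n → F) (h : Matrix (Fin n) (Fin n) F) (i j : Fin n) :
    (colM i0 c * h) i j = h i j + c i * h i0 j := by
  rw [Matrix.mul_apply]
  have h1 : ∀ l, colM i0 c i l * h l j =
      (if i = l then h l j else 0) + if l = i0 then c i * h l j else 0 := by
    intro l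
    change ((if i = l then 1 else 0) + if l = i0 then c i else 0) * h l j = _
    rw [add_mul, ite_mul, ite_mul, one_mul, zero_mul]
  rw [Finset.sum_congr rfl fun l _ => h1 l, Finset.sum_add_distrib, Finset.sum_ite_eq,
    Finset.sum_ite_eq', if_pos (Finset.mem_univ _), if_pos (Finset.mem_univ _)]

lemma mul_rowM (j0 : Fin n) (d : Fin n → F) (h : Matrix (Fin n) (Fin n) F) (i j : Fin n) :
    (h * rowM j0 d) i j = h i j + h i j0 * d j := by
  rw [Matrix.mul_apply]
  have h1 : ∀ l, h i l * rowM j0 d l j =
      (if l = j then h i l else 0) + if l = j0 then h i l * d j else 0 := by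
    intro l
    change h i l * ((if l = j then 1 else 0) + if l = j0 then d j else 0) = _
    rw [mul_add, mul_ite, mul_ite, mul_one, mul_zero]
  rw [Finset.sum_congr rfl fun l _ => h1 l, Finset.sum_add_distrib, Finset.sum_ite_eq',
    Finset.sum_ite_eq', if_pos (Finset.mem_univ _), if_pos (Finset.mem_univ _)]

lemma LU_colM {i0 : Fin n} {c : Fin n → F} (hc : ∀ i, ¬ i0 < i → c i = 0) : LU (colM i0 c) := by
  refine ⟨fun i j hij => ?_, fun i => ?_⟩
  · change (if i = j then 1 else 0) + (if j = i0 then c i else 0) = 0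
    rw [if_neg hij.ne, zero_add]
    split_ifs with h
    · subst h
      exact hc i (not_lt.2 hij.le)
    · rfl
  · change (if i = i then 1 else 0) + (if i = i0 then c i else 0) = 1
    rw [if_pos rfl, add_eq_left]
    split_ifs with h
    · subst h
      exact hc i (lt_irrefl _)
    · rfl

lemma LU_rowM {j0 : Fin n} {d : Fin n → F} (hd : ∀ j, ¬ j < j0 → d j = 0) : LU (rowM j0 d) := by
  refine ⟨fun i j hij => ?_, fun i => ?_⟩
  · change (if i = j then 1 else 0) + (if i = j0 then d j else 0) = 0
    rw [if_neg hij.ne, zero_add]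
    split_ifs with h
    · subst h
      exact hd j (not_lt.2 hij.le)
    · rfl
  · change (if i = i then 1 else 0) + (if i = j0 then d i else 0) = 1
    rw [if_pos rfl, add_eq_left]
    split_ifs with h
    · subst h
      exact hd i (lt_irrefl _)
    · rfl

/-- The column `j` has a single entry, which is the single entry of its row. -/
def Piv (h : Matrix (Fin n) (Fin n) F) (j : Fin n) : Prop :=
  ∃ p, h p j ≠ 0 ∧ (∀ i, i ≠ p → h i j = 0) ∧ ∀ l, l ≠ j → h p l = 0

lemma bruhat_aux (g : Matrix (Fin n) (Fin n) F) (hg : g.det ≠ 0) (c : ℕ) :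
    ∃ u u', LU u ∧ LU u' ∧ ∀ j : Fin n, n ≤ j + c → Piv (u * g * u') j := by
  induction c with
  | zero => exact ⟨1, 1, LU.one, LU.one, fun j hj => absurd hj (by have := j.2; omega)⟩
  | succ c ih =>
    obtain ⟨u, u', hu, hu', ih⟩ := ih
    by_cases hc : n ≤ c
    · exact ⟨u, u', hu, hu', fun j _ => ih j (by omega)⟩
    · let j0 : Fin n := ⟨n - c - 1, by omega⟩
      have hj0 : (j0 : ℕ) + c + 1 = n := by
        change n - c - 1 + c + 1 = n
        omega
      set h := u * g * u' with hh
      have hdet : h.det ≠ 0 := by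
        rw [hh, Matrix.det_mul, Matrix.det_mul, hu.det, hu'.det, one_mul, mul_one]
        exact hg
      have hex : ∃ i, h i j0 ≠ 0 := by
        by_contra hcon
        push Not at hcon
        exact hdet (Matrix.det_eq_zero_of_column_eq_zero j0 hcon)
      obtain ⟨i0, hi0, hmin⟩ : ∃ i0, h i0 j0 ≠ 0 ∧ ∀ i, i < i0 → h i j0 = 0 := by
        obtain ⟨i0, h1, h2⟩ := WellFounded.has_min (wellFounded_lt (α := Fin n))
          {i | h i j0 ≠ 0} hex
        exact ⟨i0, h1, fun i hi => by_contra fun h3 => h2 i h3 hi⟩
      let c1 : Fin n → F := fun i => if i0 < i then -(h i j0 / h i0 j0) else 0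
      let d1 : Fin n → F := fun l => if l < j0 then -(h i0 l / h i0 j0) else 0
      have hc1 : ∀ i, ¬ i0 < i → c1 i = 0 := fun i hi => if_neg hi
      have hc1' : ∀ i, i0 < i → c1 i = -(h i j0 / h i0 j0) := fun i hi => if_pos hi
      have hd1 : ∀ l, ¬ l < j0 → d1 l = 0 := fun l hl => if_neg hl
      have hd1' : ∀ l, l < j0 → d1 l = -(h i0 l / h i0 j0) := fun l hl => if_pos hl
      have hE : colM i0 c1 * u * g * (u' * rowM j0 d1) = colM i0 c1 * h * rowM j0 d1 := by
        rw [hh]
        simp only [mul_assoc]
      refine ⟨colM i0 c1 * u, u' * rowM j0 d1, (LU_colM hc1).mul hu, hu'.mul (LU_rowM hd1), ?_⟩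
      rw [hE]
      -- the processed columns
      have hpro : ∀ j : Fin n, j0 < j → n ≤ j + c := fun j hj => by
        have : (j0 : ℕ) < j := hj
        omega
      have hrow : ∀ j : Fin n, j0 < j → h i0 j = 0 := by
        intro j hj
        obtain ⟨p, hp1, hp2, hp3⟩ := ih j (hpro j hj)
        refine hp2 i0 ?_
        rintro rfl
        exact hi0 (hp3 j0 hj.ne)
      have h1col : ∀ i, i ≠ i0 → (colM i0 c1 * h) i j0 = 0 := by
        intro i hi
        rw [colM_mul]
        rcases lt_or_gt_of_ne hi with h3 | h3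
        · rw [hmin i h3, hc1 i (not_lt.2 h3.le), zero_mul, zero_add]
        · rw [hc1' i h3, neg_mul, div_mul_cancel₀ _ hi0, add_neg_cancel]
      have h1row : ∀ l, (colM i0 c1 * h) i0 l = h i0 l := by
        intro l
        rw [colM_mul, hc1 i0 (lt_irrefl _), zero_mul, add_zero]
      have h2ne : ∀ i, i ≠ i0 → ∀ l, (colM i0 c1 * h * rowM j0 d1) i l =
          (colM i0 c1 * h) i l := by
        intro i hi l
        rw [mul_rowM, h1col i hi, zero_mul, add_zero]
      have h2row : ∀ l, l ≠ j0 → (colM i0 c1 * h * rowM j0 d1) i0 l = 0 := by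
        intro l hl
        rw [mul_rowM, h1row, h1row]
        rcases lt_or_gt_of_ne hl with h3 | h3
        · rw [hd1' l h3, mul_neg, mul_div_cancel₀ _ hi0, add_neg_cancel]
        · rw [hrow l h3, hd1 l (not_lt.2 h3.le), mul_zero, zero_add]
      intro j hj
      rcases lt_trichotomy j j0 with h3 | h3 | h3
      · exfalso
        have : (j : ℕ) < j0 := h3
        omega
      · subst h3
        refine ⟨i0, ?_, fun i hi => ?_, h2row⟩
        · rw [mul_rowM, h1row, hd1 _ (lt_irrefl _), mul_zero, add_zero]
          exact hi0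
        · rw [h2ne i hi]
          exact h1col i hi
      · obtain ⟨p, hp1, hp2, hp3⟩ := ih j (hpro j h3)
        have hpi : p ≠ i0 := by
          rintro rfl
          exact hi0 (hp3 j0 h3.ne)
        have hprow : ∀ l, (colM i0 c1 * h) p l = h p l := by
          intro l
          rw [colM_mul]
          have h4 : c1 p = 0 := by
            by_cases h5 : i0 < p
            · rw [hc1' p h5, hp3 j0 h3.ne, zero_div, neg_zero]
            · exact hc1 p h5
          rw [h4, zero_mul, add_zero]
        refine ⟨p, ?_, fun i hi => ?_, fun l hl => ?_⟩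
        · rw [h2ne p hpi, hprow]
          exact hp1
        · by_cases h4 : i = i0
          · rw [h4]
            exact h2row j h3.ne'
          · rw [h2ne i h4, colM_mul, hp2 i hi, hrow j h3, mul_zero, zero_add]
        · rw [h2ne p hpi, hprow]
          exact hp3 l hl

/-- Monomial matrices. -/
structure Mono (w : Matrix (Fin n) (Fin n) F) (π : Equiv.Perm (Fin n)) (a : Fin n → F) :
    Prop where
  ne : ∀ i, a i ≠ 0
  eq : ∀ i j, w i j = if j = π i then a i else 0

/-- The Bruhat decomposition. -/
theorem bruhat (g : Matrix (Fin n) (Fin n) F) (hg : g.det ≠ 0) :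
    ∃ u u' π a, LU u ∧ LU u' ∧ Mono (u * g * u') π a := by
  obtain ⟨u, u', hu, hu', h⟩ := bruhat_aux g hg n
  choose p hp1 hp2 hp3 using fun j => h j (Nat.le_add_left _ _)
  have hinj : Function.Injective p := by
    intro j j' hjj
    by_contra hne
    have h1 := hp3 j j' (Ne.symm hne)
    rw [hjj] at h1
    exact hp1 j' h1
  let e : Equiv.Perm (Fin n) := Equiv.ofBijective p (Finite.injective_iff_bijective.1 hinj)
  refine ⟨u, u', e.symm, fun i => (u * g * u') i (e.symm i), hu, hu', fun i => ?_,
    fun i j => ?_⟩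
  · have h1 := hp1 (e.symm i)
    have h2 : p (e.symm i) = i := e.apply_symm_apply i
    rwa [h2] at h1
  · split_ifs with hj
    · rw [hj]
    · refine hp2 j i ?_
      intro h1
      apply hj
      rw [Equiv.eq_symm_apply]
      exact h1.symm

end bruhat

end Pool.Agent.R837.FD
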