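import Pool.Agent.R837.FD.Sand
import Pool.Agent.H920R2.Trans

/-!
The groups of index prime to the characteristic.
-/

set_option autoImplicit false
set_option linter.unusedSectionVars false

open Finset AlgebraicGeometry CategoryTheory

universe u v w z

namespace Pool.Agent.R837.FD

open Matrix Pool.Agent.R837.FM Pool.Agent.R837.FS

section sylow

variable {F : Type v} [Field F] [Fintype F] {n : ℕ}

/-- The group of the lower unitriangular matrices. -/
def UG (F : Type v) [Field F] [Fintype F] (n : ℕ) : Subgroup (GeneralLinearGroup (Fin n) F) where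
  carrier := {g | LU (g : Matrix (Fin n) (Fin n) F)}
  mul_mem' := fun hg hh => hg.mul hh
  one_mem' := LU.one
  inv_mem' := by
    intro g hg
    classical
    have hpow : ∀ k : ℕ, LU ((g ^ k : GeneralLinearGroup (Fin n) F) :
        Matrix (Fin n) (Fin n) F) := by
      intro k
      induction k with
      | zero =>
        rw [pow_zero]
        exact LU.one
      | succ k ih =>
        rw [pow_succ]
        exact ih.mul hg
    have h1 : g⁻¹ = g ^ (orderOf g - 1) := by
      have h2 : 0 < orderOf g := orderOf_pos g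
      rw [inv_eq_iff_mul_eq_one, ← pow_succ', Nat.sub_add_cancel h2, pow_orderOf_eq_one]
    change LU ((g⁻¹ : GeneralLinearGroup (Fin n) F) : Matrix (Fin n) (Fin n) F)
    rw [h1]
    exact hpow _

lemma LU_pow {u : Matrix (Fin n) (Fin n) F} (hu : LU u) (p : ℕ) [Fact p.Prime] [CharP F p] :
    u ^ p ^ n = 1 := by
  have h1 : u.charpoly = (Polynomial.X - 1) ^ n := by
    rw [← charpoly_transpose, charpoly_of_isUpperTriangular]
    · have h2 : ∀ i : Fin n, (Polynomial.X - Polynomial.C (uᵀ i i) : Polynomial F) =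
          Polynomial.X - 1 := fun i => by rw [transpose_apply, hu.2, Polynomial.C_1]
      rw [Finset.prod_congr rfl fun i _ => h2 i, Finset.prod_const, Finset.card_univ,
        Fintype.card_fin]
    · intro i j hij
      exact hu.1 j i hij
  have h2 : Polynomial.aeval u ((Polynomial.X - 1 : Polynomial F) ^ n) = 0 := by
    rw [← h1]
    exact aeval_self_charpoly u
  have h3 : (Polynomial.X - 1 : Polynomial F) ^ n ∣ (Polynomial.X - 1) ^ p ^ n :=
    pow_dvd_pow _ (Nat.lt_pow_self (Fact.out : p.Prime).one_lt).le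
  obtain ⟨f, hf⟩ := h3
  have h4 := congrArg (Polynomial.aeval u) hf
  rw [map_mul, h2, zero_mul, sub_pow_char_pow, one_pow, map_sub, map_pow, Polynomial.aeval_X,
    map_one, sub_eq_zero] at h4
  exact h4

lemma exists_conj (p : ℕ) [Fact p.Prime] [CharP F p] (G : Subgroup (GeneralLinearGroup (Fin n) F))
    (hG : ¬ p ∣ G.index) :
    ∃ h : GeneralLinearGroup (Fin n) F, ∀ u : GeneralLinearGroup (Fin n) F,
      LU (u : Matrix (Fin n) (Fin n) F) → h⁻¹ * u * h ∈ G := by
  have hp : IsPGroup p (UG F n) := by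
    rintro ⟨g, hg⟩
    refine ⟨n, ?_⟩
    apply Subtype.ext
    apply Units.ext
    exact LU_pow hg p
  obtain ⟨x, hx⟩ := hp.nonempty_fixed_point_of_prime_not_dvd_card
    (GeneralLinearGroup (Fin n) F ⧸ G) hG
  obtain ⟨h, rfl⟩ := QuotientGroup.mk_surjective x
  refine ⟨h, fun u hu => ?_⟩
  have h1 := hx ⟨u, hu⟩
  have h2 : ((u * h : GeneralLinearGroup (Fin n) F) : GeneralLinearGroup (Fin n) F ⧸ G) = h := h1
  have h3 := QuotientGroup.eq.1 h2.symm
  rwa [← mul_assoc] at h3

end sylow

section final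

variable {F : Type v} [Field F] [Fintype F] {k : Type u} [Field k] [Algebra F k] {n m : ℕ}

lemma aff_congr (g : Matrix (Fin n) (Fin n) F) {v : Fin n → Fin m → k}
    (hv : ∀ i, v i ∈ (⊥ : Submodule F (Fin m → k))) :
    aff g v = aff g (fun _ => 0 : Fin n → Fin m → k) := by
  congr 1
  funext i
  exact (Submodule.mem_bot F).1 (hv i)

lemma mem_inva_iff (G : Subgroup (GeneralLinearGroup (Fin n) F))
    (b : MvPolynomial (Fin n × Fin m) k) :
    b ∈ inva (affG G (⊥ : Submodule F (Fin m → k))) ↔
      ∀ g ∈ G, aff (g : Matrix (Fin n) (Fin n) F) (fun _ => 0 : Fin n → Fin m → k) b = b := by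
  constructor
  · intro hb g hg
    obtain ⟨τ, hτ⟩ := exists_equiv g (fun _ => 0 : Fin n → Fin m → k)
    have h1 := hb τ ⟨g, hg, fun _ => 0, fun _ => Submodule.zero_mem _, hτ⟩
    have h2 : τ b = aff (g : Matrix (Fin n) (Fin n) F) (fun _ => 0 : Fin n → Fin m → k) b :=
      congrArg (fun f => f b) hτ
    rw [← h2]
    exact h1
  · rintro hb σ ⟨g, hg, v, hv, hσ⟩
    have h1 : σ b = aff (g : Matrix (Fin n) (Fin n) F) v b := congrArg (fun f => f b) hσ
    rw [h1, aff_congr _ hv]
    exact hb g hg

lemma aff_aff (g h : GeneralLinearGroup (Fin n) F) (b : MvPolynomial (Fin n × Fin m) k) :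
    aff (g : Matrix (Fin n) (Fin n) F) (fun _ => 0 : Fin n → Fin m → k)
      (aff (h : Matrix (Fin n) (Fin n) F) (fun _ => 0) b) =
    aff ((h * g : GeneralLinearGroup (Fin n) F) : Matrix (Fin n) (Fin n) F) (fun _ => 0) b := by
  rw [← AlgHom.comp_apply, aff_comp, Units.val_mul]
  congr 2
  funext i
  simp only [smul_zero, Finset.sum_const_zero, add_zero]

/-- The resolution for the groups of index prime to the characteristic. -/
theorem final (hm : 0 < m) (p : ℕ) [Fact p.Prime] [CharP F p]
    (G : Subgroup (GeneralLinearGroup (Fin n) F)) (hG : ¬ p ∣ G.index) :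
    Pool.Agent.H920R2.HasResolution
      (X := Spec (CommRingCat.of (inva (affG G (⊥ : Submodule F (Fin m → k))))))
      (Spec.map (CommRingCat.ofHom (algebraMap k
        (inva (affG G (⊥ : Submodule F (Fin m → k))))))) := by
  classical
  obtain ⟨h, hh⟩ := exists_conj p G hG
  let G' : Subgroup (GeneralLinearGroup (Fin n) F) := G.comap (MulAut.conj h⁻¹).toMonoidHom
  have hmem : ∀ g, g ∈ G' ↔ h⁻¹ * g * h ∈ G := by
    intro g
    change MulAut.conj h⁻¹ g ∈ G ↔ _
    rw [MulAut.conj_apply, inv_inv]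
  obtain ⟨K, hK, hP⟩ := sandwich (G := G') fun u hu => (hmem u).2 (hh u hu)
  have h1 := mainM (k := k) hm (lvG G') K hK G' hP (⊥ : Submodule F (Fin m → k))
  obtain ⟨T, hT⟩ := exists_equiv h⁻¹ (fun _ => 0 : Fin n → Fin m → k)
  have hTa : ∀ b, T b = aff ((h⁻¹ : GeneralLinearGroup (Fin n) F) : Matrix (Fin n) (Fin n) F)
      (fun _ => 0) b := fun b => congrArg (fun f => f b) hT
  have hmap : (inva (affG G (⊥ : Submodule F (Fin m → k)))).map
      (T : MvPolynomial (Fin n × Fin m) k →ₐ[k] MvPolynomial (Fin n × Fin m) k) =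
      inva (affG G' (⊥ : Submodule F (Fin m → k))) := by
    ext b
    constructor
    · rintro ⟨b, hb, rfl⟩
      have hb' := (mem_inva_iff G b).1 hb
      refine (mem_inva_iff G' _).2 fun g hg => ?_
      change aff (g : Matrix (Fin n) (Fin n) F) (fun _ => 0) (T b) = T b
      rw [hTa, aff_aff]
      have h2 : h⁻¹ * g = h⁻¹ * g * h * h⁻¹ := by group
      rw [h2, ← aff_aff, hb' _ ((hmem g).1 hg)]
    · intro hb
      have hb' := (mem_inva_iff G' b).1 hb
      refine ⟨T.symm b, (mem_inva_iff G _).2 fun g hg => ?_, T.apply_symm_apply b⟩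
      apply T.injective
      rw [hTa, aff_aff, T.apply_symm_apply]
      have h2 : g * h⁻¹ = h⁻¹ * (h * g * h⁻¹) := by group
      rw [h2, ← aff_aff, ← hTa, T.apply_symm_apply]
      refine hb' _ ((hmem _).2 ?_)
      have h3 : h⁻¹ * (h * g * h⁻¹) * h = g := by group
      rw [h3]
      exact hg
  have e1 := (T.subalgebraMap (inva (affG G (⊥ : Submodule F (Fin m → k)))))
  rw [hmap] at e1
  exact Pool.Agent.H920R2.hasResolution_congr e1.symm h1

end final

end Pool.Agent.R837.FD
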