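import Mathlib

/-!
Subgroups of a power of the multiplicative group of a finite field are given by characters.
-/

set_option autoImplicit false
set_option linter.unusedSectionVars false

open Finset

universe u v w z

namespace Pool.Agent.R837.FD

/-- Subgroups of a power of the multiplicative group of a finite field are given by characters. -/
theorem dual {F : Type v} [Field F] [Fintype F] {I : Type} [Fintype I] [DecidableEq I]
    (D : Subgroup (I → Fˣ)) (d : I → Fˣ)
    (h : ∀ c : I → ℤ, (∀ e ∈ D, ∏ b, e b ^ c b = 1) → ∏ b, d b ^ c b = 1) : d ∈ D := by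
  classical
  by_contra hd
  let Q := (I → Fˣ) ⧸ D
  have hfin : Finite Q := Quotient.finite _
  have ha : (QuotientGroup.mk' D d : Q) ≠ 1 := by
    intro h1
    exact hd ((QuotientGroup.eq_one_iff d).1 h1)
  have hexp : Monoid.exponent Q ∣ Fintype.card Fˣ := by
    refine Monoid.exponent_dvd_of_forall_pow_eq_one fun x => ?_
    obtain ⟨e, rfl⟩ := QuotientGroup.mk'_surjective D x
    rw [← map_pow]
    have h1 : e ^ Fintype.card Fˣ = 1 := by
      funext b
      exact pow_card_eq_one
    rw [h1, map_one]
  have hne : NeZero (Fintype.card Fˣ) := ⟨Fintype.card_ne_zero⟩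
  have hen : HasEnoughRootsOfUnity F (Fintype.card Fˣ) := by
    obtain ⟨g, hg⟩ := IsCyclic.exists_generator (α := Fˣ)
    refine ⟨⟨(g : F), ?_⟩, inferInstance⟩
    have h1 : IsPrimitiveRoot g (Fintype.card Fˣ) := by
      have h2 := IsPrimitiveRoot.orderOf g
      rwa [orderOf_eq_card_of_forall_mem_zpowers hg, Nat.card_eq_fintype_card] at h2
    exact h1.map_of_injective (f := Units.coeHom F) Units.val_injective
  have hen' : HasEnoughRootsOfUnity F (Monoid.exponent Q) := HasEnoughRootsOfUnity.of_dvd F hexp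
  obtain ⟨φ, hφ⟩ := CommGroup.exists_apply_ne_one_of_hasEnoughRootsOfUnity Q F ha
  let ψ : (I → Fˣ) →* Fˣ := φ.comp (QuotientGroup.mk' D)
  choose c hc using fun b => (ψ.comp (MonoidHom.mulSingle (fun _ : I => Fˣ) b)).map_cyclic
  have hψ : ∀ e : I → Fˣ, ψ e = ∏ b, e b ^ c b := by
    intro e
    have h1 : e = ∏ b, Pi.mulSingle b (e b) := (Finset.univ_prod_mulSingle e).symm
    conv_lhs => rw [h1]
    rw [map_prod]
    exact Finset.prod_congr rfl fun b _ => hc b (e b)
  apply hφ
  change ψ d = 1
  rw [hψ]
  refine h c fun e he => ?_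
  rw [← hψ]
  change φ (QuotientGroup.mk' D e) = 1
  have h1 : (QuotientGroup.mk' D e : Q) = 1 := (QuotientGroup.eq_one_iff e).2 he
  rw [h1, map_one]

end Pool.Agent.R837.FD
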