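import Pool.Agent.R837.FD.Bru

/-!
Elementary matrices for levels: block triangular matrices are reduced to diagonal matrices.
-/

set_option autoImplicit false
set_option linter.unusedSectionVars false

open Finset

universe u v w z

namespace Pool.Agent.R837.FD

open Matrix

section elem

variable {F : Type v} [Field F] {n : ℕ}

/-- The elementary matrices for the levels. -/
def EE (F : Type v) [Field F] {n : ℕ} (lv : Fin n → ℕ) : Submonoid (Matrix (Fin n) (Fin n) F) :=
  Submonoid.closure ({u | LU u} ∪ {e | ∃ i j t, i ≠ j ∧ lv j ≤ lv i ∧ e = transvection i j t})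

lemma tr_mem {lv : Fin n → ℕ} {i j : Fin n} (hij : i ≠ j) (hl : lv j ≤ lv i) (t : F) :
    transvection i j t ∈ EE F lv :=
  Submonoid.subset_closure (Or.inr ⟨i, j, t, hij, hl, rfl⟩)

lemma LU_mem {lv : Fin n → ℕ} {u : Matrix (Fin n) (Fin n) F} (hu : LU u) : u ∈ EE F lv :=
  Submonoid.subset_closure (Or.inl hu)

lemma exists_swap {lv : Fin n → ℕ} {i j : Fin n} (hij : i ≠ j) (hl : lv i = lv j) {t : F}
    (ht : t ≠ 0) : ∃ e ∈ EE F lv, ∀ w : Matrix (Fin n) (Fin n) F,
      (∀ l, (e * w) i l = t * w j l) ∧ (∀ l, (e * w) j l = -(t⁻¹ * w i l)) ∧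
      ∀ a, a ≠ i → a ≠ j → ∀ l, (e * w) a l = w a l := by
  refine ⟨transvection i j t * (transvection j i (-t⁻¹) * transvection i j t),
    Submonoid.mul_mem _ (tr_mem hij hl.ge t)
      (Submonoid.mul_mem _ (tr_mem hij.symm hl.le _) (tr_mem hij hl.ge t)), fun w => ?_⟩
  rw [mul_assoc, mul_assoc]
  have h1 : ∀ l, (transvection i j t * w) i l = w i l + t * w j l := fun l =>
    transvection_mul_apply_same _ _ _ _ _
  have h2 : ∀ a, a ≠ i → ∀ l, (transvection i j t * w) a l = w a l := fun a ha l =>
    transvection_mul_apply_of_ne _ _ _ _ ha _ _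
  have h3 : ∀ l, (transvection j i (-t⁻¹) * (transvection i j t * w)) j l =
      -(t⁻¹ * w i l) := by
    intro l
    rw [transvection_mul_apply_same, h1, h2 j hij.symm]
    field_simp
    ring
  have h4 : ∀ a, a ≠ j → ∀ l, (transvection j i (-t⁻¹) * (transvection i j t * w)) a l =
      (transvection i j t * w) a l := fun a ha l =>
    transvection_mul_apply_of_ne _ _ _ _ ha _ _
  refine ⟨fun l => ?_, fun l => ?_, fun a hai haj l => ?_⟩
  · rw [transvection_mul_apply_same, h4 i hij, h1, h3]
    field_simp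
    ring
  · rw [transvection_mul_apply_of_ne _ _ _ _ hij.symm, h3]
  · rw [transvection_mul_apply_of_ne _ _ _ _ hai, h4 a haj, h2 a hai]

lemma exists_h {lv : Fin n → ℕ} {i j : Fin n} (hij : i ≠ j) (hl : lv i = lv j) {t : F}
    (ht : t ≠ 0) : ∃ e ∈ EE F lv, ∀ w : Matrix (Fin n) (Fin n) F,
      (∀ l, (e * w) i l = t * w i l) ∧ (∀ l, (e * w) j l = t⁻¹ * w j l) ∧
      ∀ a, a ≠ i → a ≠ j → ∀ l, (e * w) a l = w a l := by
  obtain ⟨e1, he1, h1⟩ := exists_swap (F := F) hij hl ht
  obtain ⟨e2, he2, h2⟩ := exists_swap (F := F) hij hl (neg_ne_zero.2 one_ne_zero)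
  refine ⟨e1 * e2, Submonoid.mul_mem _ he1 he2, fun w => ?_⟩
  rw [mul_assoc]
  obtain ⟨h3, h4, h5⟩ := h1 (e2 * w)
  obtain ⟨h6, h7, h8⟩ := h2 w
  refine ⟨fun l => ?_, fun l => ?_, fun a hai haj l => ?_⟩
  · rw [h3, h7, inv_neg, inv_one, neg_one_mul, neg_neg]
  · rw [h4, h6, neg_one_mul, mul_neg, neg_neg]
  · rw [h5 a hai haj, h8 a hai haj]

lemma mono_fix {lv : Fin n → ℕ} (s : Finset (Fin n)) (w : Matrix (Fin n) (Fin n) F)
    (π : Equiv.Perm (Fin n)) (a : Fin n → F) (hw : Mono w π a) (hπ : ∀ i, lv (π i) = lv i) :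
    ∃ e ∈ EE F lv, ∃ π' a', Mono (e * w) π' a' ∧ (∀ i, lv (π' i) = lv i) ∧ ∀ i ∈ s, π' i = i := by
  classical
  induction s using Finset.induction_on with
  | empty => exact ⟨1, Submonoid.one_mem _, π, a, by rwa [one_mul], hπ, fun i hi =>
      absurd hi (Finset.notMem_empty i)⟩
  | insert i s his ih =>
    obtain ⟨e, he, π', a', h1, h2, h3⟩ := ih
    by_cases hi : π' i = i
    · refine ⟨e, he, π', a', h1, h2, fun l hl => ?_⟩
      rcases Finset.mem_insert.1 hl with rfl | hl
      · exact hi
      · exact h3 l hl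
    · let j := π'.symm i
      have hj : π' j = i := π'.apply_symm_apply i
      have hij : i ≠ j := by
        intro h
        apply hi
        conv_rhs => rw [← hj]
        rw [← h]
      have hl : lv i = lv j := by
        rw [← h2 j, hj]
      obtain ⟨e1, he1, h4⟩ := exists_swap (F := F) hij hl one_ne_zero
      obtain ⟨h5, h6, h7⟩ := h4 (e * w)
      refine ⟨e1 * e, Submonoid.mul_mem _ he1 he, π' * Equiv.swap i j,
        fun l => if l = i then a' j else if l = j then -a' i else a' l, ?_, ?_, ?_⟩
      · rw [mul_assoc]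
        refine ⟨fun l => ?_, fun l b => ?_⟩
        · change (if l = i then a' j else if l = j then -a' i else a' l) ≠ 0
          split_ifs
          · exact h1.ne j
          · exact neg_ne_zero.2 (h1.ne i)
          · exact h1.ne l
        · rw [Equiv.Perm.mul_apply]
          by_cases hli : l = i
          · subst hli
            rw [h5, h1.eq, Equiv.swap_apply_left, if_pos rfl, one_mul]
          · by_cases hlj : l = j
            · subst hlj
              rw [h6, h1.eq, Equiv.swap_apply_right, if_neg hli, if_pos rfl, inv_one, one_mul]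
              split_ifs
              · rfl
              · rw [neg_zero]
            · rw [h7 l hli hlj, h1.eq, Equiv.swap_apply_of_ne_of_ne hli hlj, if_neg hli,
                if_neg hlj]
      · intro l
        rw [Equiv.Perm.mul_apply, h2]
        by_cases hli : l = i
        · subst hli
          rw [Equiv.swap_apply_left]
          exact hl.symm
        · by_cases hlj : l = j
          · subst hlj
            rw [Equiv.swap_apply_right]
            exact hl
          · rw [Equiv.swap_apply_of_ne_of_ne hli hlj]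
      · intro l hl'
        rw [Equiv.Perm.mul_apply]
        rcases Finset.mem_insert.1 hl' with rfl | hl'
        · rw [Equiv.swap_apply_left, hj]
        · have hli : l ≠ i := fun h => his (h ▸ hl')
          have hlj : l ≠ j := by
            intro h
            have h8 := h3 l hl'
            rw [h, hj] at h8
            exact hij h8
          rw [Equiv.swap_apply_of_ne_of_ne hli hlj]
          exact h3 l hl'

lemma diag_rep {lv : Fin n → ℕ} {rep : Fin n → Fin n} (hr : ∀ i, lv (rep i) = lv i)
    (hrr : ∀ i, rep (rep i) = rep i) (s : Finset (Fin n)) (a : Fin n → F) (ha : ∀ i, a i ≠ 0) :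
    ∃ e ∈ EE F lv, ∃ a' : Fin n → F, (∀ i, a' i ≠ 0) ∧ e * diagonal a = diagonal a' ∧
      ∀ i ∈ s, i ≠ rep i → a' i = 1 := by
  classical
  induction s using Finset.induction_on with
  | empty => exact ⟨1, Submonoid.one_mem _, a, ha, one_mul _, fun i hi =>
      absurd hi (Finset.notMem_empty i)⟩
  | insert i s his ih =>
    obtain ⟨e, he, a', h1, h2, h3⟩ := ih
    by_cases hi : i = rep i
    · refine ⟨e, he, a', h1, h2, fun l hl => ?_⟩
      rcases Finset.mem_insert.1 hl with rfl | hl
      · exact fun h => absurd hi h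
      · exact h3 l hl
    · obtain ⟨e1, he1, h4⟩ := exists_h (F := F) hi (hr i).symm (inv_ne_zero (h1 i))
      obtain ⟨h5, h6, h7⟩ := h4 (diagonal a')
      refine ⟨e1 * e, Submonoid.mul_mem _ he1 he,
        fun l => if l = i then 1 else if l = rep i then a' i * a' l else a' l, ?_, ?_, ?_⟩
      · intro l
        change (if l = i then 1 else if l = rep i then a' i * a' l else a' l) ≠ 0
        split_ifs
        · exact one_ne_zero
        · exact mul_ne_zero (h1 i) (h1 l)
        · exact h1 l
      · rw [mul_assoc, h2]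
        ext l b
        by_cases hli : l = i
        · subst hli
          rw [h5, diagonal_apply, diagonal_apply, if_pos rfl]
          split_ifs
          · exact inv_mul_cancel₀ (h1 l)
          · rw [mul_zero]
        · by_cases hlj : l = rep i
          · rw [hlj, h6, diagonal_apply, diagonal_apply, if_neg (Ne.symm hi), if_pos rfl, inv_inv]
            split_ifs
            · rfl
            · rw [mul_zero]
          · rw [h7 l hli hlj, diagonal_apply, diagonal_apply, if_neg hli, if_neg hlj]
      · intro l hl hlr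
        change (if l = i then 1 else if l = rep i then a' i * a' l else a' l) = 1
        by_cases hli : l = i
        · rw [if_pos hli]
        · rw [if_neg hli]
          have hlj : l ≠ rep i := by
            intro h
            apply hlr
            rw [h, hrr]
          rw [if_neg hlj]
          rcases Finset.mem_insert.1 hl with h | hl
          · exact absurd h hli
          · exact h3 l hl hlr

lemma perm_eq {lv : Fin n → ℕ} {π : Equiv.Perm (Fin n)} (h : ∀ i, lv (π i) ≤ lv i) (i : Fin n) :
    lv (π i) = lv i := by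
  have h1 : ∑ i, lv (π i) = ∑ i, lv i := Equiv.sum_comp π lv
  exact (Finset.sum_eq_sum_iff_of_le fun i _ => h i).1 h1 i (Finset.mem_univ i)

lemma perm_eq' {lv : Fin n → ℕ} {π : Equiv.Perm (Fin n)} (h : ∀ i, lv i ≤ lv (π i)) (i : Fin n) :
    lv (π i) = lv i := by
  have h1 : ∑ i, lv i = ∑ i, lv (π i) := (Equiv.sum_comp π lv).symm
  exact ((Finset.sum_eq_sum_iff_of_le fun i _ => h i).1 h1 i (Finset.mem_univ i)).symm

/-- The block triangular matrices. -/
def PP (lv : Fin n → ℕ) (g : Matrix (Fin n) (Fin n) F) : Prop := ∀ i j, lv i < lv j → g i j = 0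

lemma PP_mul {lv : Fin n → ℕ} {g h : Matrix (Fin n) (Fin n) F} (hg : PP lv g) (hh : PP lv h) :
    PP lv (g * h) := by
  intro i j hij
  rw [Matrix.mul_apply]
  refine Finset.sum_eq_zero fun l _ => ?_
  by_cases h1 : lv i < lv l
  · rw [hg i l h1, zero_mul]
  · rw [hh l j (by omega), mul_zero]

lemma block_mul {lv : Fin n → ℕ} {g h : Matrix (Fin n) (Fin n) F}
    (hg : PP lv g) (hh : PP lv h) (b : ℕ) :
    (g * h).toSquareBlock lv b = g.toSquareBlock lv b * h.toSquareBlock lv b := by
  classical
  ext ⟨i, hi⟩ ⟨j, hj⟩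
  rw [Matrix.mul_apply]
  change (g * h) i j = ∑ l : {l // lv l = b}, g i l * h l j
  rw [Matrix.mul_apply, ← Fintype.sum_subtype_add_sum_subtype (fun l => lv l = b)
    (fun l => g i l * h l j)]
  have h1 : ∑ l : {l // ¬ lv l = b}, g i l * h l j = 0 := by
    refine Finset.sum_eq_zero fun l _ => ?_
    rcases lt_or_gt_of_ne l.2 with h1 | h1
    · rw [hh l j (by omega), mul_zero]
    · rw [hg i l (by omega), zero_mul]
  rw [h1, add_zero]

lemma PP_one {lv : Fin n → ℕ} : PP lv (1 : Matrix (Fin n) (Fin n) F) := by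
  intro i j hij
  rw [Matrix.one_apply_ne]
  rintro rfl
  exact lt_irrefl _ hij

lemma PP_LU {lv : Fin n → ℕ} (hlv : Monotone lv) {u : Matrix (Fin n) (Fin n) F} (hu : LU u) :
    PP lv u := by
  intro i j hij
  refine hu.1 i j ?_
  by_contra h
  exact absurd (hlv (not_lt.1 h)) (not_le.2 hij)

lemma LU_block {lv : Fin n → ℕ} {u : Matrix (Fin n) (Fin n) F} (hu : LU u) (b : ℕ) :
    (u.toSquareBlock lv b).det = 1 := by
  rw [Matrix.det_of_isLowerTriangular (u.toSquareBlock lv b) fun i j hij => hu.1 i j hij]
  exact Finset.prod_eq_one fun i _ => hu.2 i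

lemma tr_block {lv : Fin n → ℕ} {i j : Fin n} (hij : i ≠ j) (t : F) (b : ℕ) :
    ((transvection i j t).toSquareBlock lv b).det = 1 := by
  classical
  by_cases h : lv i = b ∧ lv j = b
  · have h1 : (transvection i j t).toSquareBlock lv b =
        transvection (⟨i, h.1⟩ : {i // lv i = b}) ⟨j, h.2⟩ t := by
      ext ⟨a, ha⟩ ⟨c, hc⟩
      change transvection i j t a c = _
      simp [transvection, Matrix.one_apply, Matrix.single_apply]
    rw [h1]
    refine det_transvection_of_ne _ _ ?_ t
    intro h2
    exact hij (congrArg Subtype.val h2)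
  · have h1 : (transvection i j t).toSquareBlock lv b = 1 := by
      ext ⟨a, ha⟩ ⟨c, hc⟩
      change transvection i j t a c = _
      have h2 : ¬ (i = a ∧ j = c) := by
        rintro ⟨rfl, rfl⟩
        exact h ⟨ha, hc⟩
      simp [transvection, Matrix.one_apply, Matrix.single_apply, h2]
    rw [h1, det_one]

lemma EE_props {lv : Fin n → ℕ} (hlv : Monotone lv) {e : Matrix (Fin n) (Fin n) F}
    (he : e ∈ EE F lv) : PP lv e ∧ ∀ b, (e.toSquareBlock lv b).det = 1 := by
  induction he using Submonoid.closure_induction with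
  | mem x hx =>
    rcases hx with hx | ⟨i, j, t, hij, hl, rfl⟩
    · exact ⟨PP_LU hlv hx, fun b => LU_block hx b⟩
    · refine ⟨fun a c hac => ?_, fun b => tr_block hij t b⟩
      have h2 : ¬ (i = a ∧ j = c) := by
        rintro ⟨rfl, rfl⟩
        omega
      have h3 : a ≠ c := by
        rintro rfl
        omega
      simp [transvection, Matrix.one_apply, Matrix.single_apply, h2, h3]
  | one =>
    refine ⟨PP_one, fun b => ?_⟩
    have h1 : (1 : Matrix (Fin n) (Fin n) F).toSquareBlock lv b = 1 := by
      ext ⟨i, hi⟩ ⟨j, hj⟩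
      change (1 : Matrix (Fin n) (Fin n) F) i j = _
      rw [Matrix.one_apply, Matrix.one_apply]
      simp only [Subtype.mk.injEq]
    rw [h1, Matrix.det_one]
  | mul x y _ _ hx hy =>
    refine ⟨PP_mul hx.1 hy.1, fun b => ?_⟩
    rw [block_mul hx.1 hy.1, det_mul, hx.2, hy.2, one_mul]

/-- The reduction of block triangular matrices. -/
theorem elim {lv : Fin n → ℕ} (hlv : Monotone lv) {rep : Fin n → Fin n}
    (hr : ∀ i, lv (rep i) = lv i) (hrr : ∀ i j, lv i = lv j → rep i = rep j)
    {g : Matrix (Fin n) (Fin n) F} (hg : PP lv g) (hdet : g.det ≠ 0) :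
    ∃ e ∈ EE F lv, ∃ e' ∈ EE F lv,
      e * g * e' = diagonal fun i => if i = rep i then (g.toSquareBlock lv (lv i)).det else 1 := by
  classical
  obtain ⟨u, u', π, a, hu, hu', hw⟩ := bruhat g hdet
  have hPP : PP lv (u * g * u') := PP_mul (PP_mul (PP_LU hlv hu) hg) (PP_LU hlv hu')
  have hπ : ∀ i, lv (π i) = lv i := by
    refine perm_eq fun i => ?_
    by_contra h
    have h1 := hPP i (π i) (not_le.1 h)
    rw [hw.eq, if_pos rfl] at h1
    exact hw.ne i h1
  obtain ⟨e1, he1, π', a', h1, h2, h3⟩ := mono_fix Finset.univ _ π a hw hπ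
  have h4 : e1 * (u * g * u') = diagonal a' := by
    ext i j
    rw [h1.eq, h3 i (Finset.mem_univ i), diagonal_apply]
    by_cases hij : i = j
    · rw [if_pos hij, if_pos hij.symm]
    · rw [if_neg hij, if_neg (Ne.symm hij)]
  obtain ⟨e2, he2, a2, h5, h6, h7⟩ := diag_rep (F := F) hr (fun i => hrr _ _ (hr i)) Finset.univ
    a' h1.ne
  refine ⟨e2 * e1 * u, Submonoid.mul_mem _ (Submonoid.mul_mem _ he2 he1) (LU_mem hu), u',
    LU_mem hu', ?_⟩
  have h8 : e2 * e1 * u * g * u' = diagonal a2 := by
    rw [← h6, ← h4]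
    simp only [mul_assoc]
  rw [h8]
  congr 1
  funext i
  by_cases hi : i = rep i
  · rw [if_pos hi]
    have h9 : ((diagonal a2).toSquareBlock lv (lv i)).det = (g.toSquareBlock lv (lv i)).det := by
      rw [← h8]
      obtain ⟨p1, q1⟩ := EE_props (F := F) hlv
        (Submonoid.mul_mem _ (Submonoid.mul_mem _ he2 he1) (LU_mem (lv := lv) hu))
      obtain ⟨p2, q2⟩ := EE_props (F := F) hlv (LU_mem (lv := lv) hu')
      rw [block_mul (PP_mul p1 hg) p2, det_mul, block_mul p1 hg, det_mul, q1, q2, one_mul,
        mul_one]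
    rw [← h9]
    have h10 : (diagonal a2).toSquareBlock lv (lv i) =
        diagonal fun j : {j // lv j = lv i} => a2 j := by
      ext ⟨j, hj⟩ ⟨l, hl⟩
      change diagonal a2 j l = _
      rw [diagonal_apply, diagonal_apply]
      simp only [Subtype.mk.injEq]
    rw [h10, det_diagonal, Finset.prod_eq_single (⟨i, rfl⟩ : {j // lv j = lv i})]
    · intro j _ hj
      refine h7 j (Finset.mem_univ _) ?_
      intro h11
      apply hj
      apply Subtype.ext
      exact h11.trans ((hrr _ _ j.2).trans hi.symm)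
    · intro h
      exact absurd (Finset.mem_univ _) h
  · rw [if_neg hi]
    exact h7 i (Finset.mem_univ _) hi

end elem

end Pool.Agent.R837.FD
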