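import Pool.Agent.R837.FS.Kum3

/-!
Kummer coverings with several generators: the graded charts.
-/

set_option autoImplicit false
set_option linter.unusedSectionVars false

open AlgebraicGeometry CategoryTheory

universe u v w

namespace Pool.Agent.R837.FD

open Pool.Agent.R837.FM Pool.Agent.R837.FS Pool.Agent.W559.Mg Pool.Agent.Y177.Dg

section idx

/-- The indices of the variables. -/
abbrev JJ (I : Type) (nn : I → ℕ) : Type := Σ b : I, Fin (nn b)

/-- The free groups of degrees. -/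
lemma exists_freeM (X : Type) [Fintype X] :
    ∃ (G : Type) (_ : AddCommGroup G) (_ : G ≃+ (X → ℤ)), NR.{u} G := by
  classical
  obtain ⟨G, _, c, hG⟩ := exists_free.{u} (Fintype.card X)
  let e := Fintype.equivFin X
  exact ⟨G, inferInstance,
    { toFun := fun m x => c m (e x)
      invFun := fun f => c.symm fun i => f (e.symm i)
      left_inv := fun m => by
        have h1 : (fun i => c m (e (e.symm i))) = c m := by
          funext i
          rw [Equiv.apply_symm_apply]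
        change (c.symm fun i => c m (e (e.symm i))) = m
        rw [h1, AddEquiv.symm_apply_apply]
      right_inv := fun f => by
        funext x
        change c (c.symm fun i => f (e.symm i)) (e x) = f x
        rw [AddEquiv.apply_symm_apply, Equiv.symm_apply_apply]
      map_add' := fun m m' => by
        funext x
        rw [map_add]
        rfl }, hG⟩

end idx

section basis

variable {X : Type} [Fintype X] [DecidableEq X] {G : Type} [AddCommGroup G] (c : G ≃+ (X → ℤ))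

/-- The basis. -/
def bx (x : X) : G := c.symm (Pi.single x 1)

lemma c_bx (x : X) : c (bx c x) = Pi.single x 1 := c.apply_symm_apply _

lemma sum_bx (m : G) : m = ∑ x, c m x • bx c x := by
  apply c.injective
  rw [map_sum]
  funext i
  rw [Finset.sum_apply, Finset.sum_eq_single i]
  · rw [map_zsmul, c_bx, Pi.smul_apply, Pi.single_eq_same, smul_eq_mul, mul_one]
  · intro j _ hj
    rw [map_zsmul, c_bx, Pi.smul_apply, Pi.single_eq_of_ne (Ne.symm hj), smul_zero]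
  · intro h
    exact absurd (Finset.mem_univ _) h

end basis

section mon

variable {I : Type} [Fintype I] [DecidableEq I] {nn : I → ℕ} {G : Type} [AddCommGroup G]
  (c : G ≃+ (JJ I nn ⊕ I → ℤ))

/-- The weights. -/
def awM (b : I) : G := ∑ j : Fin (nn b), (nn b - j : ℕ) • bx c (Sum.inl ⟨b, j⟩)

/-- The degrees of the second kind. -/
def kkM (q : I → ℤ) : G := ∑ b, q b • bx c (Sum.inr b)

lemma kkM_add (q q' : I → ℤ) : kkM c (q + q') = kkM c q + kkM c q' := by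
  unfold kkM
  rw [← Finset.sum_add_distrib]
  exact Finset.sum_congr rfl fun b _ => add_smul _ _ _

lemma kkM_zero : kkM c (0 : I → ℤ) = 0 := by
  unfold kkM
  exact Finset.sum_eq_zero fun b _ => zero_smul _ _

lemma kkM_neg (q : I → ℤ) : kkM c (-q) = -kkM c q := by
  rw [eq_neg_iff_add_eq_zero, ← kkM_add, neg_add_cancel, kkM_zero]

lemma kkM_single (b : I) (a : ℤ) : kkM c (Pi.single b a) = a • bx c (Sum.inr b) := by
  unfold kkM
  rw [Finset.sum_eq_single b]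
  · rw [Pi.single_eq_same]
  · intro b' _ hb
    rw [Pi.single_eq_of_ne hb, zero_smul]
  · intro h
    exact absurd (Finset.mem_univ _) h

variable {L : Type u} [Field L] (y : JJ I nn → L)

/-- The monomial. -/
noncomputable def yyM (m : G) : L := ∏ j, y j ^ (c m (Sum.inl j))

variable {y}

lemma yyM_ne (hy : ∀ j, y j ≠ 0) (m : G) : yyM c y m ≠ 0 :=
  Finset.prod_ne_zero_iff.2 fun j _ => zpow_ne_zero _ (hy j)

lemma yyM_add (hy : ∀ j, y j ≠ 0) (m m' : G) :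
    yyM c y (m + m') = yyM c y m * yyM c y m' := by
  unfold yyM
  rw [← Finset.prod_mul_distrib]
  refine Finset.prod_congr rfl fun j _ => ?_
  rw [map_add, Pi.add_apply, zpow_add₀ (hy j)]

lemma yyM_zero : yyM c y 0 = 1 := by
  unfold yyM
  refine Finset.prod_eq_one fun j _ => ?_
  rw [map_zero, Pi.zero_apply, zpow_zero]

lemma yyM_neg (m : G) : yyM c y (-m) = (yyM c y m)⁻¹ := by
  unfold yyM
  rw [← Finset.prod_inv_distrib]
  refine Finset.prod_congr rfl fun j _ => ?_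
  rw [map_neg, Pi.neg_apply, zpow_neg]

lemma yyM_nsmul (N : ℕ) (m : G) : yyM c y (N • m) = yyM c y m ^ N := by
  unfold yyM
  rw [← Finset.prod_pow]
  refine Finset.prod_congr rfl fun j _ => ?_
  rw [map_nsmul, Pi.smul_apply, nsmul_eq_mul, ← zpow_natCast (y j ^ (c m (Sum.inl j))),
    ← zpow_mul, mul_comm]

lemma yyM_sum (hy : ∀ j, y j ≠ 0) {α : Type} (s : Finset α) (f : α → G) :
    yyM c y (∑ i ∈ s, f i) = ∏ i ∈ s, yyM c y (f i) := by
  classical
  induction s using Finset.induction_on with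
  | empty => rw [Finset.sum_empty, Finset.prod_empty, yyM_zero]
  | insert i s hi ih => rw [Finset.sum_insert hi, Finset.prod_insert hi, yyM_add c hy, ih]

lemma yyM_inl (j : JJ I nn) : yyM c y (bx c (Sum.inl j)) = y j := by
  unfold yyM
  rw [Finset.prod_eq_single j]
  · rw [c_bx, Pi.single_eq_same, zpow_one]
  · intro i _ hi
    rw [c_bx, Pi.single_eq_of_ne (fun h => hi (Sum.inl_injective h)), zpow_zero]
  · intro h
    exact absurd (Finset.mem_univ _) h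

lemma yyM_inr (b : I) : yyM c y (bx c (Sum.inr b)) = 1 := by
  unfold yyM
  refine Finset.prod_eq_one fun j _ => ?_
  rw [c_bx, Pi.single_eq_of_ne Sum.inl_ne_inr, zpow_zero]

lemma yyM_zsmul_inr (b : I) (a : ℤ) : yyM c y (a • bx c (Sum.inr b)) = 1 := by
  unfold yyM
  refine Finset.prod_eq_one fun j _ => ?_
  rw [map_zsmul, c_bx, Pi.smul_apply, Pi.single_eq_of_ne Sum.inl_ne_inr, smul_zero, zpow_zero]

lemma yyM_kk (hy : ∀ j, y j ≠ 0) (q : I → ℤ) : yyM c y (kkM c q) = 1 := by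
  unfold kkM
  rw [yyM_sum c hy]
  exact Finset.prod_eq_one fun b _ => yyM_zsmul_inr c b _

lemma yyM_aw (hy : ∀ j, y j ≠ 0) (b : I) :
    yyM c y (awM c b) = ∏ j : Fin (nn b), y ⟨b, j⟩ ^ (nn b - j : ℕ) := by
  unfold awM
  rw [yyM_sum c hy]
  refine Finset.prod_congr rfl fun j _ => ?_
  rw [yyM_nsmul, yyM_inl]

end mon

section kc

variable {k L : Type u} [Field k] [Field L] [Algebra k L] {I : Type} [Fintype I] [DecidableEq I]
  {nn : I → ℕ} {G : Type} [AddCommGroup G]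
  (c : G ≃+ (JJ I nn ⊕ I → ℤ)) (N : ℕ) (C : Subalgebra k L) (y : JJ I nn → L) (z : I → L)
  (K : AddSubgroup (I → ℤ))

/-- The degrees of the elements `z`. -/
def vv (b : I) : G := awM c b - bx c (Sum.inr b)

/-- The generators of the graded chart. -/
def GSM : Set (ML L G) :=
  {f | ∃ x ∈ C, f = mo 0 x} ∪
  ({f | ∃ j, f = mo (bx c (Sum.inl j)) 1 ∨ f = mo (N • bx c (Sum.inl j)) (y j)⁻¹ ∨
      f = mo (-(N • bx c (Sum.inl j))) (y j)} ∪
    ({f | ∃ b, f = mo (vv c b) (z b)⁻¹ ∨ f = mo (-vv c b) (z b)} ∪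
      {f | ∃ q ∈ K, f = mo (kkM c q) 1}))

/-- The graded chart. -/
noncomputable def KCM : Subalgebra k (ML L G) := Algebra.adjoin k (GSM c N C y z K)

variable {C y z} {c N K}

lemma mo_mem_KCM {x : L} (hx : x ∈ C) : mo 0 x ∈ KCM c N C y z K :=
  Algebra.subset_adjoin (Or.inl ⟨x, hx, rfl⟩)

lemma bx_mem_KCM (j : JJ I nn) : mo (bx c (Sum.inl j)) 1 ∈ KCM c N C y z K :=
  Algebra.subset_adjoin (Or.inr (Or.inl ⟨j, Or.inl rfl⟩))

lemma y_mem_KCM (j : JJ I nn) : mo (N • bx c (Sum.inl j)) (y j)⁻¹ ∈ KCM c N C y z K :=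
  Algebra.subset_adjoin (Or.inr (Or.inl ⟨j, Or.inr (Or.inl rfl)⟩))

lemma y_mem_KCM' (j : JJ I nn) : mo (-(N • bx c (Sum.inl j))) (y j) ∈ KCM c N C y z K :=
  Algebra.subset_adjoin (Or.inr (Or.inl ⟨j, Or.inr (Or.inr rfl)⟩))

lemma z_mem_KCM (b : I) : mo (vv c b) (z b)⁻¹ ∈ KCM c N C y z K :=
  Algebra.subset_adjoin (Or.inr (Or.inr (Or.inl ⟨b, Or.inl rfl⟩)))

lemma z_mem_KCM' (b : I) : mo (-vv c b) (z b) ∈ KCM c N C y z K :=
  Algebra.subset_adjoin (Or.inr (Or.inr (Or.inl ⟨b, Or.inr rfl⟩)))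

lemma kk_mem_KCM {q : I → ℤ} (hq : q ∈ K) : mo (kkM c q) 1 ∈ KCM c N C y z K :=
  Algebra.subset_adjoin (Or.inr (Or.inr (Or.inr ⟨q, hq, rfl⟩)))

lemma KCM_le {Q : Subalgebra k (ML L G)} (h1 : ∀ x ∈ C, mo 0 x ∈ Q)
    (h2 : ∀ j, mo (bx c (Sum.inl j)) 1 ∈ Q) (h3 : ∀ j, mo (N • bx c (Sum.inl j)) (y j)⁻¹ ∈ Q)
    (h4 : ∀ j, mo (-(N • bx c (Sum.inl j))) (y j) ∈ Q) (h5 : ∀ b, mo (vv c b) (z b)⁻¹ ∈ Q)
    (h6 : ∀ b, mo (-vv c b) (z b) ∈ Q) (h7 : ∀ q ∈ K, mo (kkM c q) 1 ∈ Q) :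
    KCM c N C y z K ≤ Q := by
  refine Algebra.adjoin_le_iff.2 ?_
  rintro f (⟨x, hx, rfl⟩ | ⟨j, rfl | rfl | rfl⟩ | ⟨b, rfl | rfl⟩ | ⟨q, hq, rfl⟩)
  · exact h1 x hx
  · exact h2 j
  · exact h3 j
  · exact h4 j
  · exact h5 b
  · exact h6 b
  · exact h7 q hq

lemma gr_KCM : Pool.Agent.W559.Mg.Gr (KCM c N C y z K) := by
  refine gr_adjoin _ ?_
  rintro f (⟨x, hx, rfl⟩ | ⟨j, rfl | rfl | rfl⟩ | ⟨b, rfl | rfl⟩ | ⟨q, hq, rfl⟩)
  all_goals exact ⟨_, _, rfl⟩

/-- Elements with coefficients in a family of subspaces. -/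
def cfM (D : G → Submodule k L) (h1 : (1 : L) ∈ D 0)
    (hmul : ∀ m m' a b, a ∈ D m → b ∈ D m' → a * b ∈ D (m + m')) : Subalgebra k (ML L G) where
  carrier := {f | ∀ m, f.coeff m ∈ D m}
  mul_mem' := by
    intro f g hf hg m
    rw [coeff_mul_sum]
    refine (D m).sum_mem fun a _ => ?_
    have h2 := hmul _ _ _ _ (hf a) (hg (m - a))
    rw [add_sub_cancel] at h2
    exact h2
  add_mem' := by
    intro f g hf hg m
    rw [coeff_add']
    exact (D m).add_mem (hf m) (hg m)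
  algebraMap_mem' := by
    classical
    intro r m
    rw [algebraMap_ML, coeff_mo]
    split_ifs with h
    · rw [← h, Algebra.algebraMap_eq_smul_one]
      exact (D 0).smul_mem r h1
    · exact (D m).zero_mem

lemma mo_mem_cfM {D : G → Submodule k L} {h1 : (1 : L) ∈ D 0}
    {hmul : ∀ m m' a b, a ∈ D m → b ∈ D m' → a * b ∈ D (m + m')} {m : G} {a : L}
    (ha : a ∈ D m) : mo m a ∈ cfM D h1 hmul := by
  classical
  intro m'
  rw [coeff_mo]
  split_ifs with h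
  · rw [← h]
    exact ha
  · exact (D m').zero_mem

/-- The part of degree zero. -/
lemma KCM_zero (D : G → Submodule k L) (h1 : (1 : L) ∈ D 0)
    (hmul : ∀ m m' a b, a ∈ D m → b ∈ D m' → a * b ∈ D (m + m')) (hC : ∀ x ∈ C, x ∈ D 0)
    (h2 : ∀ j, (1 : L) ∈ D (bx c (Sum.inl j))) (h3 : ∀ j, (y j)⁻¹ ∈ D (N • bx c (Sum.inl j)))
    (h4 : ∀ j, y j ∈ D (-(N • bx c (Sum.inl j)))) (h5 : ∀ b, (z b)⁻¹ ∈ D (vv c b))
    (h6 : ∀ b, z b ∈ D (-vv c b)) (h7 : ∀ q ∈ K, (1 : L) ∈ D (kkM c q))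
    {x : L} (hx : mo 0 x ∈ KCM c N C y z K) : x ∈ D 0 := by
  have h8 : KCM c N C y z K ≤ cfM D h1 hmul := KCM_le (fun x hx => mo_mem_cfM (hC x hx))
    (fun j => mo_mem_cfM (h2 j)) (fun j => mo_mem_cfM (h3 j)) (fun j => mo_mem_cfM (h4 j))
    (fun b => mo_mem_cfM (h5 b)) (fun b => mo_mem_cfM (h6 b))
    (fun q hq => mo_mem_cfM (h7 q hq))
  have h9 := h8 hx 0
  rwa [coeff_mo_same] at h9

/-- Units of the graded chart. -/
lemma un_KCM (hy : ∀ j, y j ≠ 0) (hNK : ∀ q : I → ℤ, N • q ∈ K) (m : G) :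
    mo (N • m) (yyM c y m)⁻¹ ∈ KCM c N C y z K ∧
    mo (-(N • m)) (yyM c y m) ∈ KCM c N C y z K := by
  let S : AddSubgroup G :=
    { carrier := {m | mo (N • m) (yyM c y m)⁻¹ ∈ KCM c N C y z K ∧
        mo (-(N • m)) (yyM c y m) ∈ KCM c N C y z K}
      add_mem' := by
        rintro a b ⟨h1, h2⟩ ⟨h3, h4⟩
        have h5 := (KCM c N C y z K).mul_mem h1 h3
        have h6 := (KCM c N C y z K).mul_mem h2 h4
        rw [mo_mul, ← smul_add, ← mul_inv, ← yyM_add c hy] at h5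
        rw [mo_mul, ← neg_add, ← smul_add, ← yyM_add c hy] at h6
        exact ⟨h5, h6⟩
      zero_mem' := by
        change mo (N • (0 : G)) (yyM c y 0)⁻¹ ∈ _ ∧ mo (-(N • (0 : G))) (yyM c y 0) ∈ _
        rw [yyM_zero, smul_zero, neg_zero, inv_one, mo_one]
        exact ⟨Subalgebra.one_mem _, Subalgebra.one_mem _⟩
      neg_mem' := by
        rintro a ⟨h1, h2⟩
        change mo (N • -a) (yyM c y (-a))⁻¹ ∈ _ ∧ mo (-(N • -a)) (yyM c y (-a)) ∈ _
        rw [yyM_neg, inv_inv, smul_neg, neg_neg]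
        exact ⟨h2, h1⟩ }
  change m ∈ S
  rw [sum_bx c m]
  refine AddSubgroup.sum_mem _ fun x _ => AddSubgroup.zsmul_mem _ ?_ _
  rcases x with j | b
  · change mo (N • bx c (Sum.inl j)) (yyM c y (bx c (Sum.inl j)))⁻¹ ∈ _ ∧
      mo (-(N • bx c (Sum.inl j))) (yyM c y (bx c (Sum.inl j))) ∈ _
    rw [yyM_inl]
    exact ⟨y_mem_KCM j, y_mem_KCM' j⟩
  · change mo (N • bx c (Sum.inr b)) (yyM c y (bx c (Sum.inr b)))⁻¹ ∈ _ ∧
      mo (-(N • bx c (Sum.inr b))) (yyM c y (bx c (Sum.inr b))) ∈ _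
    rw [yyM_inr, inv_one]
    have h1 : kkM c (N • Pi.single b (1 : ℤ)) = N • bx c (Sum.inr b) := by
      have h2 : N • (Pi.single b (1 : ℤ) : I → ℤ) = Pi.single b (N : ℤ) := by
        rw [← Pi.single_smul]
        simp
      rw [h2, kkM_single, natCast_zsmul]
    have h3 := hNK (Pi.single b 1)
    rw [← h1, ← kkM_neg]
    exact ⟨kk_mem_KCM h3, kk_mem_KCM (K.neg_mem h3)⟩

lemma gen_KCM (hz : ∀ b, z b ≠ 0) :
    AddSubgroup.closure {m : G | ∃ a : L, a ≠ 0 ∧ mo m a ∈ KCM c N C y z K} = ⊤ := by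
  rw [eq_top_iff]
  intro m _
  have h1 : ∀ j, bx c (Sum.inl j) ∈
      AddSubgroup.closure {m : G | ∃ a : L, a ≠ 0 ∧ mo m a ∈ KCM c N C y z K} := fun j =>
    AddSubgroup.subset_closure ⟨1, one_ne_zero, bx_mem_KCM j⟩
  rw [sum_bx c m]
  refine AddSubgroup.sum_mem _ fun x _ => AddSubgroup.zsmul_mem _ ?_ _
  rcases x with j | b
  · exact h1 j
  · have h2 : bx c (Sum.inr b) = awM c b - vv c b := by
      unfold vv
      rw [sub_sub_cancel]
    rw [h2]
    refine AddSubgroup.sub_mem _ (AddSubgroup.sum_mem _ fun j _ =>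
      AddSubgroup.nsmul_mem _ (h1 _) _) ?_
    exact AddSubgroup.subset_closure ⟨(z b)⁻¹, inv_ne_zero (hz b), z_mem_KCM b⟩

lemma yyM_vv (hy : ∀ j, y j ≠ 0) (b : I) :
    yyM c y (vv c b) = ∏ j : Fin (nn b), y ⟨b, j⟩ ^ (nn b - j : ℕ) := by
  unfold vv
  rw [sub_eq_add_neg, yyM_add c hy, yyM_neg, yyM_inr, inv_one, mul_one, yyM_aw c hy]

/-- The valuative criterion. -/
lemma nrm_KCM (hN : 0 < N) (hy0 : ∀ j, y j ≠ 0) (hyC : ∀ j, y j ∈ C)
    {ε : I → k} (hε : ∀ b, ε b ≠ 0)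
    (hz : ∀ b, z b ^ N = algebraMap k L (ε b) * ∏ j : Fin (nn b), y ⟨b, j⟩ ^ (nn b - j : ℕ))
    (V : ValuationSubring L) (hV : ∀ x ∈ C, x ∈ V) :
    Nrm V N (fun m => V.valuation (yyM c y m)⁻¹) (KCM c N C y z K) := by
  have hk : ∀ r : k, algebraMap k L r ∈ V := fun r => hV _ (C.algebraMap_mem r)
  have hε1 : ∀ b, V.valuation (algebraMap k L (ε b)) = 1 := by
    intro b
    have h1 := (V.valuation_le_one_iff _).2 (hk (ε b))
    have h2 := (V.valuation_le_one_iff _).2 (hk (ε b)⁻¹)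
    rw [map_inv₀, map_inv₀] at h2
    have h3 : V.valuation (algebraMap k L (ε b)) ≠ 0 := by
      rw [Valuation.ne_zero_iff]
      exact (map_ne_zero _).2 (hε b)
    refine le_antisymm h1 ?_
    exact (inv_le_one₀ (zero_lt_iff.2 h3)).1 h2
  refine nrm_adjoin hN (fun m => ?_) (fun m m' => ?_) hk _ ?_
  · rw [Valuation.ne_zero_iff]
    exact inv_ne_zero (yyM_ne c hy0 m)
  · rw [yyM_add c hy0, mul_inv, map_mul]
  · have hy1 : ∀ j, 1 ≤ V.valuation (y j)⁻¹ := by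
      intro j
      have h1 := (V.valuation_le_one_iff _).2 (hV _ (hyC j))
      have h3 : V.valuation (y j) ≠ 0 := by
        rw [Valuation.ne_zero_iff]
        exact hy0 j
      rw [map_inv₀]
      exact (one_le_inv₀ (zero_lt_iff.2 h3)).2 h1
    have hzz : ∀ b, V.valuation (z b) ^ N = V.valuation (yyM c y (vv c b)) := by
      intro b
      rw [← map_pow, hz, map_mul, hε1, one_mul, yyM_vv hy0]
    rintro f (⟨x, hx, rfl⟩ | ⟨j, rfl | rfl | rfl⟩ | ⟨b, rfl | rfl⟩ | ⟨q, hq, rfl⟩)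
    · refine nrm_mo hN ?_
      rw [yyM_zero, inv_one, map_one]
      exact pow_le_one' ((V.valuation_le_one_iff _).2 (hV x hx)) _
    · refine nrm_mo hN ?_
      rw [map_one, one_pow, yyM_inl]
      exact hy1 j
    · refine nrm_mo hN ?_
      rw [yyM_nsmul, yyM_inl, ← map_pow, inv_pow]
    · refine nrm_mo hN ?_
      rw [yyM_neg, yyM_nsmul, yyM_inl, ← map_pow, inv_inv]
    · refine nrm_mo hN ?_
      rw [map_inv₀, map_inv₀, inv_pow, hzz]
    · refine nrm_mo hN ?_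
      rw [yyM_neg, inv_inv, hzz]
    · refine nrm_mo hN ?_
      rw [yyM_kk c hy0, inv_one, map_one, one_pow]

/-- Gluing. -/
lemma gl_KCM {C' : Subalgebra k L} {y' : JJ I nn → L} {z' : I → L} {h : L} (hh : h ∈ C)
    (hh0 : h ≠ 0) (hCC : C' ≤ Loc C h) (hy0 : ∀ j, y j ≠ 0)
    (hz0 : ∀ b, z b ≠ 0) (hz0' : ∀ b, z' b ≠ 0)
    (h1 : ∀ j, y' j / y j ∈ Loc C h) (h2 : ∀ j, y j / y' j ∈ Loc C h)
    (h3 : ∀ b, z' b / z b ∈ Loc C h) (h4 : ∀ b, z b / z' b ∈ Loc C h) :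
    KCM c N C' y' z' K ≤ lc (KCM c N C y z K) (mo 0 h) (mo_mem_KCM hh) := by
  have key : ∀ x ∈ Loc C h, mo 0 x ∈ lc (KCM c N C y z K) (mo 0 h) (mo_mem_KCM hh) := by
    intro x hx
    obtain ⟨i, hi⟩ := exists_pow_mul hh hh0 hx
    refine ⟨i, ?_⟩
    rw [mo_pow, mo_mul, smul_zero, zero_add]
    exact mo_mem_KCM hi
  refine KCM_le (fun x hx => key x (hCC hx)) (fun j => le_lc _ _ _ (bx_mem_KCM j)) (fun j => ?_)
    (fun j => ?_) (fun b => ?_) (fun b => ?_) (fun q hq => le_lc _ _ _ (kk_mem_KCM hq))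
  · have h5 : mo (N • bx c (Sum.inl j)) (y' j)⁻¹ =
        mo 0 (y j / y' j) * mo (N • bx c (Sum.inl j)) (y j)⁻¹ := by
      rw [mo_mul, zero_add]
      congr 1
      have := hy0 j
      field_simp
    rw [h5]
    exact Subalgebra.mul_mem _ (key _ (h2 j)) (le_lc _ _ _ (y_mem_KCM j))
  · have h5 : mo (-(N • bx c (Sum.inl j))) (y' j) =
        mo 0 (y' j / y j) * mo (-(N • bx c (Sum.inl j))) (y j) := by
      rw [mo_mul, zero_add]
      congr 1
      have := hy0 j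
      field_simp
    rw [h5]
    exact Subalgebra.mul_mem _ (key _ (h1 j)) (le_lc _ _ _ (y_mem_KCM' j))
  · have h5 : mo (vv c b) (z' b)⁻¹ = mo 0 (z b / z' b) * mo (vv c b) (z b)⁻¹ := by
      rw [mo_mul, zero_add]
      congr 1
      have := hz0 b
      have := hz0' b
      field_simp
    rw [h5]
    exact Subalgebra.mul_mem _ (key _ (h4 b)) (le_lc _ _ _ (z_mem_KCM b))
  · have h5 : mo (-vv c b) (z' b) = mo 0 (z' b / z b) * mo (-vv c b) (z b) := by
      rw [mo_mul, zero_add]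
      congr 1
      have := hz0 b
      field_simp
    rw [h5]
    exact Subalgebra.mul_mem _ (key _ (h3 b)) (le_lc _ _ _ (z_mem_KCM' b))

end kc

end Pool.Agent.R837.FD
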