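import Pool.Agent.R837.FD.KumM1

/-!
Kummer coverings with several generators: the graded charts are smooth.
-/

set_option autoImplicit false
set_option linter.unusedSectionVars false

open AlgebraicGeometry CategoryTheory

universe u v w

namespace Pool.Agent.R837.FD

open Pool.Agent.R837.FM Pool.Agent.R837.FS Pool.Agent.W559.Mg Pool.Agent.Y177.Dg

section gen

variable {k L : Type u} [Field k] [Field L] [Algebra k L] {G : Type} [AddCommGroup G]

lemma mem_HU' {C : Subalgebra k (ML L G)} {m : G} {a : L} (ha : a ≠ 0) :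
    (Multiplicative.ofAdd m, Units.mk0 a ha) ∈ HU C ↔ mo m a ∈ C ∧ mo (-m) a⁻¹ ∈ C := by
  rw [mem_HU]
  simp

/-- The factors of the product are units in the localization. -/
lemma hu_of_prod {P0 : Subalgebra k (ML L G)} {α : Type} [DecidableEq α] (S : Finset α)
    (m : α → G) (a : α → L) (ha : ∀ i ∈ S, a i ≠ 0) (hmem : ∀ i, mo (m i) (a i) ∈ P0)
    (hX : ∏ i ∈ S, mo (m i) (a i) ∈ P0) (i : α) (hi : i ∈ S) :
    mo (m i) (a i) ∈ lc P0 _ hX ∧ mo (-m i) (a i)⁻¹ ∈ lc P0 _ hX := by
  refine ⟨le_lc P0 _ hX (hmem i), ?_⟩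
  have hu : IsUnit (∏ i ∈ S, mo (m i) (a i) : ML L G) := by
    rw [mo_prod]
    exact isUnit_mo (Finset.prod_ne_zero_iff.2 ha)
  obtain ⟨X1, hX1⟩ := hu.exists_right_inv
  have h1 : mo (-m i) (a i)⁻¹ = (∏ j ∈ S.erase i, mo (m j) (a j)) * X1 := by
    have h2 : mo (-m i) (a i)⁻¹ * mo (m i) (a i) = (1 : ML L G) := by
      rw [mo_mul, neg_add_cancel, inv_mul_cancel₀ (ha i hi), mo_one]
    calc mo (-m i) (a i)⁻¹ = mo (-m i) (a i)⁻¹ * ((∏ i ∈ S, mo (m i) (a i)) * X1) := by
          rw [hX1, mul_one]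
      _ = (mo (-m i) (a i)⁻¹ * mo (m i) (a i)) * ((∏ j ∈ S.erase i, mo (m j) (a j)) * X1) := by
          rw [← Finset.mul_prod_erase S _ hi]
          ring
      _ = (∏ j ∈ S.erase i, mo (m j) (a j)) * X1 := by rw [h2, one_mul]
  rw [h1]
  exact Subalgebra.mul_mem _ (le_lc P0 _ hX (Subalgebra.prod_mem _ fun j _ => hmem j))
    (inv_mem_lc _ _ _ _ hX1)

end gen

section sm

variable {k L : Type u} [Field k] [Field L] [Algebra k L] {I : Type} [Fintype I] [DecidableEq I]
  {nn : I → ℕ} {G : Type} [AddCommGroup G] (c : G ≃+ (JJ I nn ⊕ I → ℤ)) (N : ℕ)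
  (y : JJ I nn → L) (z : I → L) {P : Type} (w : P → L) (r : I → ℕ) (q : I → I → ℤ)

/-- The index set of the generators. -/
abbrev TXM (P : Type) {I : Type} (nn : I → ℕ) (r : I → ℕ) : Type :=
  P ⊕ (JJ I nn ⊕ ((Σ b : I, Fin (nn b - 1 - r b)) ⊕ (I ⊕ I)))

/-- The third kind of indices. -/
def t3M {r : I → ℕ} (i : Σ b : I, Fin (nn b - 1 - r b)) : JJ I nn :=
  ⟨i.1, ⟨r i.1 + i.2, by have := i.2.2; omega⟩⟩

/-- The degrees and coefficients of the generators. -/
noncomputable def TDM : TXM P nn r → G × L :=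
  Sum.elim (fun p => (0, w p)) (Sum.elim (fun j => (bx c (Sum.inl j), 1))
    (Sum.elim (fun i => (N • bx c (Sum.inl (t3M i)), (y (t3M i))⁻¹))
      (Sum.elim (fun b => (vv c b, (z b)⁻¹)) fun l => (kkM c (q l), 1))))

/-- The generators. -/
noncomputable def TFM (x : TXM P nn r) : ML L G := mo (TDM c N y z w r q x).1 (TDM c N y z w r q x).2

/-- The indices of the units. -/
def UI : TXM P nn r → Prop :=
  Sum.elim (fun _ => False) (Sum.elim (fun j => (j.2 : ℕ) < r j.1) fun _ => True)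

variable {c N y z w r q}

lemma TDM_ne (hy : ∀ j, y j ≠ 0) (hz : ∀ b, z b ≠ 0) (x : TXM P nn r) (hx : UI r x) :
    (TDM c N y z w r q x).2 ≠ 0 := by
  rcases x with p | j | i | b | l
  · exact absurd hx id
  · exact one_ne_zero
  · exact inv_ne_zero (hy _)
  · exact inv_ne_zero (hz _)
  · exact one_ne_zero

variable [Fintype P]

open Classical in
variable (c N y z w r q) in
/-- The product of the units. -/
noncomputable def X0M : ML L G :=
  ∏ x ∈ Finset.univ.filter (fun x : TXM P nn r => UI r x),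
    mo (TDM c N y z w r q x).1 (TDM c N y z w r q x).2

lemma TFM_mem (x : TXM P nn r) :
    mo (TDM c N y z w r q x).1 (TDM c N y z w r q x).2 ∈
      Algebra.adjoin k (Set.range (TFM c N y z w r q)) :=
  Algebra.subset_adjoin ⟨x, rfl⟩

lemma X0M_mem : X0M c N y z w r q ∈ Algebra.adjoin k (Set.range (TFM c N y z w r q)) :=
  Subalgebra.prod_mem _ fun x _ => TFM_mem x

lemma X0M_unit (hy : ∀ j, y j ≠ 0) (hz : ∀ b, z b ≠ 0) : IsUnit (X0M c N y z w r q) := by
  classical
  unfold X0M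
  rw [mo_prod]
  exact isUnit_mo (Finset.prod_ne_zero_iff.2 fun x hx =>
    TDM_ne hy hz x (Finset.mem_filter.1 hx).2)

variable {C : Subalgebra k L} {K : AddSubgroup (I → ℤ)}

/-- Homogeneous units of degree in `K`. -/
lemma kk_HU {Q : Subalgebra k (ML L G)} (hq : K = AddSubgroup.closure (Set.range q))
    (h : ∀ l, (Multiplicative.ofAdd (kkM c (q l)), (1 : Lˣ)) ∈ HU Q) {p : I → ℤ} (hp : p ∈ K) :
    (Multiplicative.ofAdd (kkM c p), (1 : Lˣ)) ∈ HU Q := by
  let S : AddSubgroup (I → ℤ) :=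
    { carrier := {p | (Multiplicative.ofAdd (kkM c p), (1 : Lˣ)) ∈ HU Q}
      add_mem' := by
        intro a b ha hb
        have h1 := (HU Q).mul_mem ha hb
        have h2 : (Multiplicative.ofAdd (kkM c a), (1 : Lˣ)) *
            (Multiplicative.ofAdd (kkM c b), (1 : Lˣ)) =
            (Multiplicative.ofAdd (kkM c (a + b)), (1 : Lˣ)) := by
          rw [kkM_add]
          exact Prod.ext rfl (one_mul 1)
        rw [h2] at h1
        exact h1
      zero_mem' := by
        change (Multiplicative.ofAdd (kkM c 0), (1 : Lˣ)) ∈ HU Q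
        rw [kkM_zero]
        exact (HU Q).one_mem
      neg_mem' := by
        intro a ha
        have h1 := (HU Q).inv_mem ha
        have h2 : (Multiplicative.ofAdd (kkM c a), (1 : Lˣ))⁻¹ =
            (Multiplicative.ofAdd (kkM c (-a)), (1 : Lˣ)) := by
          rw [kkM_neg]
          exact Prod.ext rfl inv_one
        rw [h2] at h1
        exact h1 }
  have h1 : K ≤ S := by
    rw [hq, AddSubgroup.closure_le]
    rintro _ ⟨l, rfl⟩
    exact h l
  exact h1 hp

lemma nsmul_single_inr (b : I) : kkM c (N • Pi.single b (1 : ℤ)) = N • bx c (Sum.inr b) := by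
  have h2 : N • (Pi.single b (1 : ℤ) : I → ℤ) = Pi.single b (N : ℤ) := by
    rw [← Pi.single_smul]
    simp
  rw [h2, kkM_single, natCast_zsmul]

/-- The comparison of the graded chart with the localized polynomial ring. -/
lemma KCM_eq (hN : 0 < N) (hy : ∀ j, y j ≠ 0) (hz0 : ∀ b, z b ≠ 0)
    (hC : C = Algebra.adjoin k (Set.range w ∪ Set.range y))
    (hy1 : ∀ j : JJ I nn, (j.2 : ℕ) < r j.1 → y j = 1) (hr : ∀ b, r b < nn b)
    {ε : I → k} (hε : ∀ b, ε b ≠ 0)
    (hz : ∀ b, z b ^ N = algebraMap k L (ε b) * ∏ j : Fin (nn b), y ⟨b, j⟩ ^ (nn b - j : ℕ))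
    (hNK : ∀ q : I → ℤ, N • q ∈ K) (hq : K = AddSubgroup.closure (Set.range q)) :
    KCM c N C y z K = lc (Algebra.adjoin k (Set.range (TFM c N y z w r q))) (X0M c N y z w r q)
      X0M_mem := by
  classical
  set P0 := Algebra.adjoin k (Set.range (TFM c N y z w r q)) with hP0
  have hwC : ∀ p, w p ∈ C := fun p => by
    rw [hC]
    exact Algebra.subset_adjoin (Or.inl ⟨p, rfl⟩)
  have hqK : ∀ l, q l ∈ K := fun l => by
    rw [hq]
    exact AddSubgroup.subset_closure ⟨l, rfl⟩
  apply le_antisymm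
  · -- units
    have hle := le_lc P0 (X0M c N y z w r q) X0M_mem
    have hU : ∀ (x : TXM P nn r) (hx : UI r x),
        (Multiplicative.ofAdd (TDM c N y z w r q x).1,
          Units.mk0 (TDM c N y z w r q x).2 (TDM_ne hy hz0 x hx)) ∈
          HU (lc P0 (X0M c N y z w r q) X0M_mem) := fun x hx =>
      (mem_HU' _).2 (hu_of_prod (P0 := P0)
        (Finset.univ.filter (fun x : TXM P nn r => UI r x))
        (fun x => (TDM c N y z w r q x).1) (fun x => (TDM c N y z w r q x).2)
        (fun x hx => TDM_ne hy hz0 x (Finset.mem_filter.1 hx).2) (fun x => TFM_mem x) X0M_mem x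
        (Finset.mem_filter.2 ⟨Finset.mem_univ _, hx⟩))
    have hb : ∀ j, mo (bx c (Sum.inl j)) (1 : L) ∈ P0 := fun j =>
      TFM_mem (Sum.inr (Sum.inl j))
    let yu : JJ I nn → Lˣ := fun j => (Units.mk0 (y j) (hy j))⁻¹
    let zu : I → Lˣ := fun b => (Units.mk0 (z b) (hz0 b))⁻¹
    have hyu : ∀ j, ((yu j : Lˣ) : L) = (y j)⁻¹ := fun j => by simp [yu]
    have hzu : ∀ b, ((zu b : Lˣ) : L) = (z b)⁻¹ := fun b => by simp [zu]
    have hyui : ∀ j, (((yu j)⁻¹ : Lˣ) : L) = y j := fun j => by simp [yu]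
    have hzui : ∀ b, (((zu b)⁻¹ : Lˣ) : L) = z b := fun b => by simp [zu]
    have hbu : ∀ j : JJ I nn, (j.2 : ℕ) < r j.1 →
        (Multiplicative.ofAdd (bx c (Sum.inl j)), (1 : Lˣ)) ∈
          HU (lc P0 (X0M c N y z w r q) X0M_mem) := by
      intro j hj
      have h1 := hU (Sum.inr (Sum.inl j)) hj
      have h2 : Units.mk0 (TDM c N y z w r q (Sum.inr (Sum.inl j))).2
          (TDM_ne hy hz0 (Sum.inr (Sum.inl j)) hj) = (1 : Lˣ) := Units.ext rfl
      rw [h2] at h1
      exact h1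
    have hku : ∀ p ∈ K, (Multiplicative.ofAdd (kkM c p), (1 : Lˣ)) ∈
          HU (lc P0 (X0M c N y z w r q) X0M_mem) := by
      intro p hp
      refine kk_HU hq (fun l => ?_) hp
      have h1 := hU (Sum.inr (Sum.inr (Sum.inr (Sum.inr l)))) trivial
      have h2 : Units.mk0 (TDM c N y z w r q (Sum.inr (Sum.inr (Sum.inr (Sum.inr l))))).2
          (TDM_ne hy hz0 (Sum.inr (Sum.inr (Sum.inr (Sum.inr l)))) trivial) = (1 : Lˣ) :=
        Units.ext rfl
      rw [h2] at h1
      exact h1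
    have hzU : ∀ b, (Multiplicative.ofAdd (vv c b), zu b) ∈
        HU (lc P0 (X0M c N y z w r q) X0M_mem) := by
      intro b
      have h1 := hU (Sum.inr (Sum.inr (Sum.inr (Sum.inl b)))) trivial
      have h2 : Units.mk0 (TDM c N y z w r q (Sum.inr (Sum.inr (Sum.inr (Sum.inl b))))).2
          (TDM_ne hy hz0 (Sum.inr (Sum.inr (Sum.inr (Sum.inl b)))) trivial) = zu b :=
        Units.ext (hzu b).symm
      rw [h2] at h1
      exact h1
    have hyU' : ∀ j : JJ I nn, (j.2 : ℕ) + 1 < nn j.1 →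
        (Multiplicative.ofAdd (N • bx c (Sum.inl j)), yu j) ∈
          HU (lc P0 (X0M c N y z w r q) X0M_mem) := by
      rintro ⟨b, j⟩ hj
      have hj' : (j : ℕ) + 1 < nn b := hj
      by_cases hjr : (j : ℕ) < r b
      · have h5 := (HU (lc P0 (X0M c N y z w r q) X0M_mem)).pow_mem (hbu ⟨b, j⟩ hjr) N
        have h6 : yu ⟨b, j⟩ = 1 := by
          apply Units.ext
          rw [hyu, hy1 ⟨b, j⟩ hjr, inv_one, Units.val_one]
        rw [h6]
        have h7 : (Multiplicative.ofAdd (bx c (Sum.inl ⟨b, j⟩)), (1 : Lˣ)) ^ N =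
            (Multiplicative.ofAdd (N • bx c (Sum.inl ⟨b, j⟩)), (1 : Lˣ)) :=
          Prod.ext rfl (one_pow N)
        rw [← h7]
        exact h5
      · let i : Fin (nn b - 1 - r b) := ⟨j - r b, by omega⟩
        have hi : t3M (nn := nn) (r := r) ⟨b, i⟩ = ⟨b, j⟩ := by
          refine Sigma.ext rfl (heq_of_eq (Fin.ext ?_))
          change r b + (j - r b) = (j : ℕ)
          omega
        have h1 := hU (Sum.inr (Sum.inr (Sum.inl ⟨b, i⟩))) trivial
        have h2 : Units.mk0 (TDM c N y z w r q (Sum.inr (Sum.inr (Sum.inl ⟨b, i⟩)))).2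
            (TDM_ne hy hz0 (Sum.inr (Sum.inr (Sum.inl ⟨b, i⟩))) trivial) = yu ⟨b, j⟩ := by
          apply Units.ext
          rw [hyu, ← hi]
          rfl
        have h3 : (TDM c N y z w r q (Sum.inr (Sum.inr (Sum.inl ⟨b, i⟩)))).1 =
            N • bx c (Sum.inl ⟨b, j⟩) := by
          rw [← hi]
          rfl
        rw [h2, h3] at h1
        exact h1
    -- the last unit
    have hyU : ∀ j : JJ I nn,
        (Multiplicative.ofAdd (N • bx c (Sum.inl j)), yu j) ∈
          HU (lc P0 (X0M c N y z w r q) X0M_mem) := by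
      rintro ⟨b, j⟩
      by_cases hj : (j : ℕ) + 1 < nn b
      · exact hyU' ⟨b, j⟩ hj
      let εu : Lˣ := Units.mk0 (algebraMap k L (ε b)) ((map_ne_zero _).2 (hε b))
      have hεU : ((1 : Multiplicative G), εu) ∈ HU (lc P0 (X0M c N y z w r q) X0M_mem) := by
        have h5 : ∀ a : k, mo 0 (algebraMap k L a) ∈ lc P0 (X0M c N y z w r q) X0M_mem :=
          fun a => Subalgebra.algebraMap_mem _ a
        refine mem_HU.2 ⟨h5 (ε b), ?_⟩
        have h6 : ((εu⁻¹ : Lˣ) : L) = algebraMap k L (ε b)⁻¹ := by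
          rw [map_inv₀]
          simp [εu]
        rw [h6]
        have h7 : (-(0 : G)) = 0 := neg_zero
        rw [h7]
        exact h5 (ε b)⁻¹
      have hnU : (Multiplicative.ofAdd (N • bx c (Sum.inr b)), (1 : Lˣ)) ∈
          HU (lc P0 (X0M c N y z w r q) X0M_mem) := by
        rw [← nsmul_single_inr]
        exact hku _ (hNK _)
      have h5 : (Multiplicative.ofAdd (N • bx c (Sum.inl ⟨b, j⟩)), yu ⟨b, j⟩) =
          ((1 : Multiplicative G), εu) * (Multiplicative.ofAdd (vv c b), zu b) ^ N *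
            (Multiplicative.ofAdd (N • bx c (Sum.inr b)), (1 : Lˣ)) *
            (∏ i ∈ Finset.univ.erase j,
              (Multiplicative.ofAdd (N • bx c (Sum.inl ⟨b, i⟩)), yu ⟨b, i⟩) ^
                (nn b - i : ℕ))⁻¹ := by
        have hnj : nn b - (j : ℕ) = 1 := by
          have := j.2
          omega
        rw [eq_mul_inv_iff_mul_eq]
        have h6 : (Multiplicative.ofAdd (N • bx c (Sum.inl ⟨b, j⟩)), yu ⟨b, j⟩) *
            ∏ i ∈ Finset.univ.erase j,
              (Multiplicative.ofAdd (N • bx c (Sum.inl ⟨b, i⟩)), yu ⟨b, i⟩) ^ (nn b - i : ℕ) =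
            ∏ i : Fin (nn b),
              (Multiplicative.ofAdd (N • bx c (Sum.inl ⟨b, i⟩)), yu ⟨b, i⟩) ^ (nn b - i : ℕ) := by
          rw [← Finset.mul_prod_erase Finset.univ _ (Finset.mem_univ j), hnj, pow_one]
        rw [h6]
        refine Prod.ext ?_ ?_
        · rw [Prod.fst_prod, Prod.fst_mul, Prod.fst_mul, Prod.pow_fst, one_mul]
          have h7 : ∀ i : Fin (nn b),
              ((Multiplicative.ofAdd (N • bx c (Sum.inl (⟨b, i⟩ : JJ I nn))), yu ⟨b, i⟩) ^
                (nn b - i : ℕ)).1 =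
              Multiplicative.ofAdd ((nn b - i : ℕ) • (N • bx c (Sum.inl ⟨b, i⟩))) :=
            fun i => rfl
          rw [Finset.prod_congr rfl fun i _ => h7 i, ← ofAdd_sum]
          have h8 : ∑ i : Fin (nn b), (nn b - i : ℕ) • (N • bx c (Sum.inl (⟨b, i⟩ : JJ I nn))) =
              N • vv c b + N • bx c (Sum.inr b) := by
            unfold vv awM
            rw [smul_sub, sub_add_cancel, Finset.smul_sum]
            exact Finset.sum_congr rfl fun i _ => smul_comm _ _ _
          rw [h8]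
          rfl
        · rw [Prod.snd_prod, Prod.snd_mul, Prod.snd_mul, Prod.pow_snd]
          apply Units.ext
          rw [Units.coe_prod, Units.val_mul, Units.val_mul, Units.val_pow_eq_pow_val, hzu]
          have h7 : ∀ i : Fin (nn b),
              ((((Multiplicative.ofAdd (N • bx c (Sum.inl (⟨b, i⟩ : JJ I nn))), yu ⟨b, i⟩) ^
                (nn b - i : ℕ)).2 : Lˣ) : L) =
              (y ⟨b, i⟩ ^ (nn b - i : ℕ))⁻¹ := by
            intro i
            rw [Prod.pow_snd, Units.val_pow_eq_pow_val, hyu, inv_pow]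
          rw [Finset.prod_congr rfl fun i _ => h7 i, Finset.prod_inv_distrib, inv_pow, hz]
          change _ = algebraMap k L (ε b) * _ * 1
          have h8 : algebraMap k L (ε b) ≠ 0 := (map_ne_zero _).2 (hε b)
          rw [mul_one, mul_inv, ← mul_assoc, mul_inv_cancel₀ h8, one_mul]
      rw [h5]
      refine mul_mem (mul_mem (mul_mem hεU (pow_mem (hzU b) N)) hnU)
        (inv_mem (prod_mem fun i hi => ?_))
      refine pow_mem (hyU' ⟨b, i⟩ ?_) _
      have h6 := Finset.ne_of_mem_erase hi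
      have h7 : (i : ℕ) ≠ j := fun h => h6 (Fin.ext h)
      have := i.2
      change (i : ℕ) + 1 < nn b
      omega
    have hyl : ∀ j, mo (N • bx c (Sum.inl j)) (y j)⁻¹ ∈ lc P0 (X0M c N y z w r q) X0M_mem ∧
        mo (-(N • bx c (Sum.inl j))) (y j) ∈ lc P0 (X0M c N y z w r q) X0M_mem := by
      intro j
      have h5 := mem_HU.1 (hyU j)
      rw [hyu, hyui] at h5
      exact h5
    have hzl : ∀ b, mo (vv c b) (z b)⁻¹ ∈ lc P0 (X0M c N y z w r q) X0M_mem ∧
        mo (-vv c b) (z b) ∈ lc P0 (X0M c N y z w r q) X0M_mem := by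
      intro b
      have h5 := mem_HU.1 (hzU b)
      rw [hzu, hzui] at h5
      exact h5
    refine KCM_le ?_ (fun j => hle (hb j)) (fun j => (hyl j).1) (fun j => (hyl j).2)
      (fun b => (hzl b).1) (fun b => (hzl b).2) fun p hp => ?_
    · intro x hx
      have h5 : C ≤ (lc P0 (X0M c N y z w r q) X0M_mem).comap
          (Pool.Agent.W559.Mg.zr k L G) := by
        rw [hC, Algebra.adjoin_le_iff]
        rintro _ (⟨p, rfl⟩ | ⟨j, rfl⟩)
        · exact hle (TFM_mem (Sum.inl p))
        · change mo 0 (y j) ∈ lc P0 (X0M c N y z w r q) X0M_mem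
          have h6 : mo 0 (y j) = mo (bx c (Sum.inl j)) 1 ^ N *
              mo (-(N • bx c (Sum.inl j))) (y j) := by
            rw [mo_pow, mo_mul, one_pow, one_mul, add_neg_cancel]
          rw [h6]
          exact Subalgebra.mul_mem _ (Subalgebra.pow_mem _ (hle (hb j)) _) (hyl j).2
      exact h5 hx
    · have h5 := (mem_HU.1 (hku p hp)).1
      rw [Units.val_one] at h5
      exact h5
  · -- the other inclusion
    have hneg : ∀ j : JJ I nn, (j.2 : ℕ) < r j.1 →
        mo (-bx c (Sum.inl j)) (1 : L) ∈ KCM c N C y z K := by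
      intro j hj
      have h1 : mo (-bx c (Sum.inl j)) (1 : L) = mo (bx c (Sum.inl j)) 1 ^ (N - 1) *
          mo (-(N • bx c (Sum.inl j))) (y j) := by
        rw [hy1 j hj, mo_pow, mo_mul, one_pow, one_mul]
        congr 1
        obtain ⟨N', rfl⟩ : ∃ N', N = N' + 1 := ⟨N - 1, by omega⟩
        rw [Nat.add_sub_cancel, succ_nsmul]
        abel
      rw [h1]
      exact Subalgebra.mul_mem _ (Subalgebra.pow_mem _ (bx_mem_KCM j) _) (y_mem_KCM' j)
    let X1 : ML L G := ∏ x ∈ Finset.univ.filter (fun x : TXM P nn r => UI r x),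
      mo (-(TDM c N y z w r q x).1) (TDM c N y z w r q x).2⁻¹
    have hX1 : X0M c N y z w r q * X1 = 1 := by
      unfold X0M
      change _ * (∏ x ∈ Finset.univ.filter (fun x : TXM P nn r => UI r x),
        mo (-(TDM c N y z w r q x).1) (TDM c N y z w r q x).2⁻¹) = 1
      rw [← Finset.prod_mul_distrib]
      refine Finset.prod_eq_one fun x hx => ?_
      rw [mo_mul, add_neg_cancel, mul_inv_cancel₀ (TDM_ne hy hz0 x (Finset.mem_filter.1 hx).2),
        mo_one]
    refine lc_le X0M_mem hX1 ?_ ?_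
    · rw [Algebra.adjoin_le_iff]
      rintro _ ⟨p | j | i | b | l, rfl⟩
      · exact mo_mem_KCM (hwC p)
      · exact bx_mem_KCM j
      · exact y_mem_KCM _
      · exact z_mem_KCM b
      · exact kk_mem_KCM (hqK l)
    · refine Subalgebra.prod_mem _ fun x hx => ?_
      have hx' := (Finset.mem_filter.1 hx).2
      rcases x with p | j | i | b | l
      · exact absurd hx' id
      · change mo (-bx c (Sum.inl j)) (1 : L)⁻¹ ∈ _
        rw [inv_one]
        exact hneg j hx'
      · change mo (-(N • bx c (Sum.inl (t3M i)))) (y (t3M i))⁻¹⁻¹ ∈ _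
        rw [inv_inv]
        exact y_mem_KCM' _
      · change mo (-vv c b) (z b)⁻¹⁻¹ ∈ _
        rw [inv_inv]
        exact z_mem_KCM' b
      · change mo (-kkM c (q l)) (1 : L)⁻¹ ∈ _
        rw [inv_one, ← kkM_neg]
        exact kk_mem_KCM (K.neg_mem (hqK l))

end sm

end Pool.Agent.R837.FD
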