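import Pool.Agent.R837.FD.KumM2

/-!
Kummer coverings with several generators: algebraic independence and the resolution.
-/

set_option autoImplicit false
set_option linter.unusedSectionVars false

open AlgebraicGeometry CategoryTheory

universe u v w

namespace Pool.Agent.R837.FD

open Pool.Agent.R837.FM Pool.Agent.R837.FS Pool.Agent.W559.Mg Pool.Agent.Y177.Dg
open IntermediateField.algebraAdjoinAdjoin

section ind

variable {L : Type u} [Field L] {X : Type} [Fintype X] [DecidableEq X] {G : Type}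
  [AddCommGroup G] (c : G ≃+ (X → ℤ))

/-- The degree of a monomial. -/
noncomputable def dgx (s : X →₀ ℕ) : G := ∑ j, s j • bx c j

lemma dgx_inj : Function.Injective (dgx c) := by
  intro s s' h
  ext j
  have h1 : ∀ t : X →₀ ℕ, c (dgx c t) j = t j := by
    intro t
    unfold dgx
    rw [map_sum, Finset.sum_apply, Finset.sum_eq_single j]
    · rw [map_nsmul, c_bx, Pi.smul_apply, Pi.single_eq_same, nsmul_eq_mul, mul_one]
    · intro i _ hi
      rw [map_nsmul, c_bx, Pi.smul_apply, Pi.single_eq_of_ne (Ne.symm hi), smul_zero]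
    · intro h
      exact absurd (Finset.mem_univ _) h
  have h2 := h1 s
  rw [h, h1] at h2
  exact_mod_cast h2.symm

lemma aeval_bx (s : X →₀ ℕ) (a : L) :
    MvPolynomial.aeval (fun j => (mo (bx c j) 1 : ML L G)) (MvPolynomial.monomial s a) =
      mo (dgx c s) a := by
  rw [MvPolynomial.aeval_monomial, Finsupp.prod_fintype _ _ fun i => pow_zero _]
  have h1 : ∏ i, (mo (bx c i) (1 : L) : ML L G) ^ s i = mo (dgx c s) 1 := by
    have h2 : ∀ i, (mo (bx c i) (1 : L) : ML L G) ^ s i = mo (s i • bx c i) 1 := by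
      intro i
      rw [mo_pow, one_pow]
    rw [Finset.prod_congr rfl fun i _ => h2 i, mo_prod, Finset.prod_const_one]
    rfl
  rw [h1, algebraMap_ML, mo_mul, zero_add, mul_one]
  rfl

lemma indep_bx : AlgebraicIndependent L (fun j => (mo (bx c j) 1 : ML L G)) := by
  classical
  rw [algebraicIndependent_iff_injective_aeval, injective_iff_map_eq_zero]
  intro f hf
  have h1 : ∀ (f : MvPolynomial X L) (s : X →₀ ℕ),
      (MvPolynomial.aeval (fun j => (mo (bx c j) 1 : ML L G)) f).coeff (dgx c s) =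
        MvPolynomial.coeff s f := by
    intro f s
    induction f using MvPolynomial.induction_on' with
    | monomial t a =>
      rw [aeval_bx, coeff_mo, MvPolynomial.coeff_monomial]
      by_cases h : t = s
      · rw [h, if_pos rfl, if_pos rfl]
      · rw [if_neg h, if_neg fun h' => h (dgx_inj c h')]
    | add p q hp hq => rw [map_add, coeff_add', hp, hq, MvPolynomial.coeff_add]
  ext s
  rw [← h1, hf, MvPolynomial.coeff_zero]
  rfl

end ind

section sm

variable {k L : Type u} [Field k] [Field L] [Algebra k L] {I : Type} [Fintype I] [DecidableEq I]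
  {nn : I → ℕ} {G : Type} [AddCommGroup G] {c : G ≃+ (JJ I nn ⊕ I → ℤ)} {N : ℕ}
  {y : JJ I nn → L} {z : I → L} {P : Type} [Fintype P] {w : P → L} {r : I → ℕ}
  {q : I → I → ℤ} {C : Subalgebra k L} {K : AddSubgroup (I → ℤ)}

lemma indep_TFM [IsDomain (ML L G)] (hN : 0 < N) (hy : ∀ j, y j ≠ 0) (hz0 : ∀ b, z b ≠ 0)
    (hC : C = Algebra.adjoin k (Set.range w ∪ Set.range y))
    (hy1 : ∀ j : JJ I nn, (j.2 : ℕ) < r j.1 → y j = 1) (hr : ∀ b, r b < nn b)
    {ε : I → k} (hε : ∀ b, ε b ≠ 0)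
    (hz : ∀ b, z b ^ N = algebraMap k L (ε b) * ∏ j : Fin (nn b), y ⟨b, j⟩ ^ (nn b - j : ℕ))
    (hNK : ∀ q : I → ℤ, N • q ∈ K) (hq : K = AddSubgroup.closure (Set.range q))
    (halg : Algebra.IsAlgebraic C L)
    (htr : ((Fintype.card P + ∑ b, (nn b - r b) : ℕ) : Cardinal) ≤ Algebra.trdeg k L) :
    AlgebraicIndependent k (TFM c N y z w r q) := by
  classical
  let FF := FractionRing (ML L G)
  let ι : ML L G →ₐ[k] FF := IsScalarTower.toAlgHom k (ML L G) FF
  have hι : Function.Injective ι := IsFractionRing.injective (ML L G) FF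
  have hιne : ∀ x : ML L G, x ≠ 0 → ι x ≠ 0 := fun x hx h => hx (by
    apply hι
    rw [h, map_zero])
  let θ : L →ₐ[k] FF := ι.comp (Pool.Agent.W559.Mg.zr k L G)
  have hθ : ∀ x, θ x = ι (mo 0 x) := fun x => rfl
  have hθ0 : ∀ x, x ≠ 0 → θ x ≠ 0 := fun x hx => hιne _ (mo_ne_zero hx)
  have hmo : ∀ (m : G) (x : L), ι (mo m x) = θ x * ι (mo m 1) := by
    intro m x
    rw [hθ, ← map_mul, mo_mul, zero_add, mul_one]
  have hm0 : ∀ m : G, ι (mo m 1) ≠ 0 := fun m => hιne _ (mo_ne_zero one_ne_zero)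
  rw [← ι.algebraicIndependent_iff hι]
  -- the transcendence degree
  have hst : IsScalarTower k L FF := IsScalarTower.of_algebraMap_eq fun a => by
    have h1 : algebraMap k FF a = algebraMap (ML L G) FF (algebraMap k (ML L G) a) :=
      IsScalarTower.algebraMap_apply _ _ _ _
    have h2 : algebraMap L FF (algebraMap k L a) =
        algebraMap (ML L G) FF (algebraMap L (ML L G) (algebraMap k L a)) :=
      IsScalarTower.algebraMap_apply _ _ _ _
    rw [h1, h2]
    rfl
  have htr1 : Algebra.trdeg k L + Algebra.trdeg L FF ≤ Algebra.trdeg k FF :=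
    trdeg_add_le
  have htr2 : ((Fintype.card (JJ I nn ⊕ I) : ℕ) : Cardinal.{u}) ≤ Algebra.trdeg L FF := by
    have h1 := (indep_bx (L := L) c).map' (f := IsScalarTower.toAlgHom L (ML L G) FF)
      (IsFractionRing.injective (ML L G) FF)
    have h2 := h1.lift_cardinalMk_le_trdeg
    rw [Cardinal.mk_fintype, Cardinal.lift_natCast] at h2
    rw [← Cardinal.lift_le.{0}, Cardinal.lift_natCast]
    exact h2
  -- the field generated by the family and its algebraic closure
  let E := IntermediateField.adjoin k (Set.range (ι ∘ TFM c N y z w r q))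
  let E' := algebraicClosure E FF
  have hEE : ∀ x ∈ E, x ∈ E' := fun x hx => E'.algebraMap_mem ⟨x, hx⟩
  have hgen : ∀ x, ι (TFM c N y z w r q x) ∈ E := fun x =>
    IntermediateField.subset_adjoin k _ ⟨x, rfl⟩
  have hkE : ∀ p ∈ K, ι (mo (kkM c p) 1) ∈ E := by
    let S : AddSubgroup (I → ℤ) :=
      { carrier := {p | ι (mo (kkM c p) 1) ∈ E}
        add_mem' := by
          intro a b ha hb
          have h1 : ι (mo (kkM c (a + b)) 1) = ι (mo (kkM c a) 1) * ι (mo (kkM c b) 1) := by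
            rw [← map_mul, mo_mul, one_mul, kkM_add]
          change ι (mo (kkM c (a + b)) 1) ∈ E
          rw [h1]
          exact mul_mem ha hb
        zero_mem' := by
          change ι (mo (kkM c 0) 1) ∈ E
          rw [kkM_zero, mo_one, map_one]
          exact one_mem _
        neg_mem' := by
          intro a ha
          have h1 : ι (mo (kkM c (-a)) 1) = (ι (mo (kkM c a) 1))⁻¹ := by
            apply eq_inv_of_mul_eq_one_left
            rw [← map_mul, mo_mul, kkM_neg, neg_add_cancel, one_mul, mo_one, map_one]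
          change ι (mo (kkM c (-a)) 1) ∈ E
          rw [h1]
          exact inv_mem ha }
    intro p hp
    have h1 : K ≤ S := by
      rw [hq, AddSubgroup.closure_le]
      rintro _ ⟨l, rfl⟩
      exact hgen (Sum.inr (Sum.inr (Sum.inr (Sum.inr l))))
    exact h1 hp
  have hmE : ∀ m : G, ι (mo m 1) ∈ E' := by
    let S : AddSubgroup G :=
      { carrier := {m | ι (mo m 1) ∈ E'}
        add_mem' := by
          intro a b ha hb
          have h1 : ι (mo (a + b) 1) = ι (mo a 1) * ι (mo b 1) := by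
            rw [← map_mul, mo_mul, one_mul]
          change ι (mo (a + b) 1) ∈ E'
          rw [h1]
          exact mul_mem ha hb
        zero_mem' := by
          change ι (mo 0 1) ∈ E'
          rw [mo_one, map_one]
          exact one_mem _
        neg_mem' := by
          intro a ha
          have h1 : ι (mo (-a) 1) = (ι (mo a 1))⁻¹ := by
            apply eq_inv_of_mul_eq_one_left
            rw [← map_mul, mo_mul, neg_add_cancel, one_mul, mo_one, map_one]
          change ι (mo (-a) 1) ∈ E'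
          rw [h1]
          exact inv_mem ha }
    intro m
    change m ∈ S
    rw [sum_bx c m]
    refine AddSubgroup.sum_mem _ fun x _ => AddSubgroup.zsmul_mem _ ?_ _
    rcases x with j | b
    · exact hEE _ (hgen (Sum.inr (Sum.inl j)))
    · change ι (mo (bx c (Sum.inr b)) 1) ∈ E'
      rw [mem_algebraicClosure_iff]
      refine IsAlgebraic.of_pow hN ?_
      have h1 : ι (mo (bx c (Sum.inr b)) 1) ^ N = ι (mo (kkM c (N • Pi.single b (1 : ℤ))) 1) := by
        rw [← map_pow, mo_pow, one_pow, nsmul_single_inr]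
      rw [h1]
      exact isAlgebraic_algebraMap (⟨_, hkE _ (hNK _)⟩ : E)
  have hzE : ∀ b, θ (z b) ∈ E' := by
    intro b
    have h1 : θ (z b) = (ι (mo (vv c b) (z b)⁻¹))⁻¹ * ι (mo (vv c b) 1) := by
      rw [hmo (vv c b) (z b)⁻¹, mul_inv, map_inv₀, inv_inv, mul_assoc, inv_mul_cancel₀ (hm0 _),
        mul_one]
    rw [h1]
    exact mul_mem (inv_mem (hEE _ (hgen (Sum.inr (Sum.inr (Sum.inr (Sum.inl b))))))) (hmE _)
  have hyE' : ∀ j : JJ I nn, (j.2 : ℕ) + 1 < nn j.1 → θ (y j) ∈ E' := by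
    rintro ⟨b, j⟩ hj
    have hj' : (j : ℕ) + 1 < nn b := hj
    by_cases hjr : (j : ℕ) < r b
    · rw [hy1 ⟨b, j⟩ hjr, map_one]
      exact one_mem _
    · let i : Fin (nn b - 1 - r b) := ⟨j - r b, by omega⟩
      have hi : t3M (nn := nn) (r := r) ⟨b, i⟩ = ⟨b, j⟩ := by
        refine Sigma.ext rfl (heq_of_eq (Fin.ext ?_))
        change r b + (j - r b) = (j : ℕ)
        omega
      have h0 : ι (mo (N • bx c (Sum.inl ⟨b, j⟩)) (y ⟨b, j⟩)⁻¹) ∈ E := by
        have h1 := hgen (Sum.inr (Sum.inr (Sum.inl ⟨b, i⟩)))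
        have h2 : TFM c N y z w r q (Sum.inr (Sum.inr (Sum.inl ⟨b, i⟩))) =
            mo (N • bx c (Sum.inl (t3M (nn := nn) (r := r) ⟨b, i⟩)))
              (y (t3M (r := r) ⟨b, i⟩))⁻¹ := rfl
        rw [h2, hi] at h1
        exact h1
      have h1 : θ (y ⟨b, j⟩) = (ι (mo (N • bx c (Sum.inl ⟨b, j⟩)) (y ⟨b, j⟩)⁻¹))⁻¹ *
          ι (mo (N • bx c (Sum.inl ⟨b, j⟩)) 1) := by
        rw [hmo (N • bx c (Sum.inl ⟨b, j⟩)) (y ⟨b, j⟩)⁻¹, mul_inv, map_inv₀, inv_inv, mul_assoc,
          inv_mul_cancel₀ (hm0 _), mul_one]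
      rw [h1]
      exact mul_mem (inv_mem (hEE _ h0)) (hmE _)
  have hyE : ∀ j : JJ I nn, θ (y j) ∈ E' := by
    rintro ⟨b, j⟩
    by_cases hj : (j : ℕ) + 1 < nn b
    · exact hyE' ⟨b, j⟩ hj
    have hnj : nn b - (j : ℕ) = 1 := by
      have := j.2
      omega
    have h1 : y ⟨b, j⟩ = z b ^ N * (algebraMap k L (ε b) * ∏ i ∈ Finset.univ.erase j,
        y ⟨b, i⟩ ^ (nn b - i : ℕ))⁻¹ := by
      have h2 : (∏ i ∈ Finset.univ.erase j, y ⟨b, i⟩ ^ (nn b - i : ℕ)) ≠ 0 :=
        Finset.prod_ne_zero_iff.2 fun i _ => pow_ne_zero _ (hy _)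
      have h3 : algebraMap k L (ε b) ≠ 0 := (map_ne_zero _).2 (hε b)
      rw [hz, ← Finset.mul_prod_erase Finset.univ _ (Finset.mem_univ j), hnj, pow_one]
      field_simp
    rw [h1, map_mul, map_pow, map_inv₀, map_mul, map_prod]
    refine mul_mem (pow_mem (hzE b) N) (inv_mem (mul_mem ?_ (prod_mem fun i hi => ?_)))
    · rw [AlgHom.commutes]
      exact hEE _ (E.algebraMap_mem (ε b))
    · rw [map_pow]
      refine pow_mem (hyE' ⟨b, i⟩ ?_) _
      have h6 := Finset.ne_of_mem_erase hi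
      have h7 : (i : ℕ) ≠ j := fun h => h6 (Fin.ext h)
      have := i.2
      change (i : ℕ) + 1 < nn b
      omega
  have hCE : ∀ x ∈ C, θ x ∈ E' := by
    intro x hx
    have h5 : C ≤ (E'.restrictScalars k).toSubalgebra.comap θ := by
      rw [hC, Algebra.adjoin_le_iff]
      rintro _ (⟨p, rfl⟩ | ⟨j, rfl⟩)
      · exact hEE _ (hgen (Sum.inl p))
      · exact hyE j
    exact h5 hx
  -- everything is algebraic
  have hE'alg : Algebra.IsAlgebraic E E' := inferInstance
  have hLalg : ∀ x : L, θ x ∈ E' := by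
    intro x
    obtain ⟨p, hp0, hp⟩ := halg.isAlgebraic x
    let φ : C →+* E' := (θ.comp C.val : C →+* FF).codRestrict E'.toSubfield fun a => hCE _ a.2
    have hφ : Function.Injective φ := by
      intro a b hab
      have h1 : θ (a : L) = θ (b : L) := congrArg Subtype.val hab
      exact Subtype.ext (θ.toRingHom.injective h1)
    have h0 : IsAlgebraic E' (θ x) := by
      refine ⟨p.map φ, ?_, ?_⟩
      · rw [Ne, Polynomial.map_eq_zero_iff hφ]
        exact hp0
      · have h1 : Polynomial.aeval (θ x) (p.map φ) = θ (Polynomial.aeval x p) := by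
          rw [Polynomial.aeval_def, Polynomial.eval₂_map, Polynomial.aeval_def]
          have h2 : (algebraMap E' FF).comp φ = (θ : L →+* FF).comp (algebraMap C L) := rfl
          rw [h2]
          exact (Polynomial.hom_eval₂ p (algebraMap C L) (θ : L →+* FF) x).symm
        rw [h1, hp, map_zero]
    rw [mem_algebraicClosure_iff]
    exact h0.restrictScalars E
  have hEalg : Algebra.IsAlgebraic E FF := by
    have hML : ∀ f : ML L G, ι f ∈ E' := by
      intro f
      rw [eq_sum_mo f, map_sum]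
      refine sum_mem fun m _ => ?_
      rw [hmo]
      exact mul_mem (hLalg _) (hmE m)
    refine ⟨fun x => ?_⟩
    rw [← mem_algebraicClosure_iff]
    obtain ⟨a, b, -, rfl⟩ := IsFractionRing.div_surjective (A := ML L G) x
    exact div_mem (hML a) (hML b)
  have hAalg : Algebra.IsAlgebraic
      (Algebra.adjoin k (Set.range (ι ∘ TFM c N y z w r q))) FF :=
    (IsFractionRing.comap_isAlgebraic_iff
      (A := Algebra.adjoin k (Set.range (ι ∘ TFM c N y z w r q))) (K := E) (C := FF)).2 hEalg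
  refine (Algebra.IsAlgebraic.isTranscendenceBasis_of_lift_le_trdeg_of_finite k _ ?_).1
  have hcard : Fintype.card (TXM P nn r) = (Fintype.card P + ∑ b, (nn b - r b)) +
      Fintype.card (JJ I nn ⊕ I) := by
    have h1 : ∑ b, (nn b - r b) = ∑ b, (nn b - 1 - r b) + Fintype.card I := by
      have h2 : Fintype.card I = ∑ _b : I, 1 := by simp
      rw [h2, ← Finset.sum_add_distrib]
      refine Finset.sum_congr rfl fun b _ => ?_
      have := hr b
      omega
    rw [h1]
    simp only [Fintype.card_sum, Fintype.card_sigma, Fintype.card_fin]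
    ring
  rw [Cardinal.mk_fintype, hcard, Cardinal.lift_natCast]
  have h1 : (((Fintype.card P + ∑ b, (nn b - r b)) + Fintype.card (JJ I nn ⊕ I) : ℕ) :
      Cardinal.{u}) ≤ Algebra.trdeg k FF := by
    rw [Nat.cast_add]
    exact (add_le_add htr htr2).trans htr1
  calc (((Fintype.card P + ∑ b, (nn b - r b)) + Fintype.card (JJ I nn ⊕ I) : ℕ) : Cardinal) =
      Cardinal.lift.{0} (((Fintype.card P + ∑ b, (nn b - r b)) +
        Fintype.card (JJ I nn ⊕ I) : ℕ) : Cardinal) := by simp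
    _ ≤ _ := Cardinal.lift_le.2 h1

/-- The graded charts are smooth. -/
theorem smooth_KCM [IsDomain (ML L G)] (hN : 0 < N) (hy : ∀ j, y j ≠ 0) (hz0 : ∀ b, z b ≠ 0)
    (hC : C = Algebra.adjoin k (Set.range w ∪ Set.range y))
    (hy1 : ∀ j : JJ I nn, (j.2 : ℕ) < r j.1 → y j = 1) (hr : ∀ b, r b < nn b)
    {ε : I → k} (hε : ∀ b, ε b ≠ 0)
    (hz : ∀ b, z b ^ N = algebraMap k L (ε b) * ∏ j : Fin (nn b), y ⟨b, j⟩ ^ (nn b - j : ℕ))
    (hNK : ∀ q : I → ℤ, N • q ∈ K) (hq : K = AddSubgroup.closure (Set.range q))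
    (halg : Algebra.IsAlgebraic C L)
    (htr : ((Fintype.card P + ∑ b, (nn b - r b) : ℕ) : Cardinal) ≤ Algebra.trdeg k L) :
    Algebra.Smooth k (KCM c N C y z K) := by
  have hai := indep_TFM (c := c) hN hy hz0 hC hy1 hr hε hz hNK hq halg htr
  have hsm : Algebra.Smooth k (MvPolynomial (TXM P nn r) k) := ⟨inferInstance, inferInstance⟩
  have h1 : Algebra.Smooth k (Algebra.adjoin k (Set.range (TFM c N y z w r q))) :=
    Algebra.Smooth.of_equiv hai.aevalEquiv
  rw [KCM_eq (c := c) (w := w) (r := r) (q := q) hN hy hz0 hC hy1 hr hε hz hNK hq]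
  exact smooth_lc h1 X0M_mem (X0M_unit hy hz0)

end sm

section res

variable {k A L : Type u} [Field k] [CommRing A] [IsDomain A] [Algebra k A] [Field L]
  [Algebra k L] {g : A →ₐ[k] L} (hg : Function.Injective g)

include hg in
/-- The resolution of a Kummer covering. -/
theorem kummerM {I : Type} [Fintype I] [DecidableEq I] {nn : I → ℕ} {N : ℕ} (hN : 0 < N)
    (K : AddSubgroup (I → ℤ)) (hNK : ∀ q : I → ℤ, N • q ∈ K) (q : I → I → ℤ)
    (hq : K = AddSubgroup.closure (Set.range q)) {T : Type} [Finite T] {C : T → Subalgebra k L}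
    {H : T → L} {y : T → JJ I nn → L} {z : T → I → L}
    (H0 : ∀ t, H t ≠ 0) (hA : ∀ t, ∃ a, H t = g a) (rt : ∀ t t', H t' / H t ∈ C t)
    (gl : ∀ t t', C t' ≤ Loc (C t) (H t' / H t))
    (D : ∀ t : T, (I → ℤ) → Submodule k L) (D1 : ∀ t, ∀ q ∈ K, (1 : L) ∈ D t q)
    (Dmul : ∀ t p p' a b, a ∈ D t p → b ∈ D t p' → a * b ∈ D t (p + p'))
    (dn : ∀ t, ∀ x ∈ D t 0, ∃ (n : ℕ) (a : A), H t ^ n * x = g a)
    (cv : ∀ V : ValuationSubring L, (∀ a, g a ∈ V) → ∃ t, ∀ x ∈ C t, x ∈ V)
    (y0 : ∀ t j, y t j ≠ 0) (z0 : ∀ t b, z t b ≠ 0) (yC : ∀ t j, y t j ∈ C t)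
    (hz : ∀ t, ∃ ε : I → k, (∀ b, ε b ≠ 0) ∧ ∀ b,
      z t b ^ N = algebraMap k L (ε b) * ∏ j : Fin (nn b), y t ⟨b, j⟩ ^ (nn b - j : ℕ))
    (y1 : ∀ t t' j, y t' j / y t j ∈ Loc (C t) (H t' / H t))
    (y2 : ∀ t t' j, y t j / y t' j ∈ Loc (C t) (H t' / H t))
    (z1 : ∀ t t' b, z t' b / z t b ∈ Loc (C t) (H t' / H t))
    (z2 : ∀ t t' b, z t b / z t' b ∈ Loc (C t) (H t' / H t))
    (CD : ∀ t, ∀ x ∈ C t, x ∈ D t 0) (yd : ∀ t j, (y t j)⁻¹ ∈ D t 0)
    (zd : ∀ t b, (z t b)⁻¹ ∈ D t (-Pi.single b 1)) (zd' : ∀ t b, z t b ∈ D t (Pi.single b 1))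
    (gen : ∀ t, ∃ (r : I → ℕ) (_ : ∀ b, r b < nn b) (P : Type) (_ : Fintype P) (w : P → L),
      C t = Algebra.adjoin k (Set.range w ∪ Set.range (y t)) ∧
      (∀ j : JJ I nn, (j.2 : ℕ) < r j.1 → y t j = 1) ∧
      ((Fintype.card P + ∑ b, (nn b - r b) : ℕ) : Cardinal) ≤ Algebra.trdeg k L)
    (alg : ∀ t, Algebra.IsAlgebraic (C t) L)
    (Q : T → Subalgebra k L)
    (hQ : ∀ t (Q' : Subalgebra k L), C t ≤ Q' → (∀ q ∈ K, (∀ b, 0 ≤ q b) →
      ∏ b, z t b ^ (q b) ∈ Q') → Q t ≤ Q')
    (aa : ∀ t a, IsIntegral (Q t) (g a) ∧ ∃ x ∈ Q t, ∃ y ∈ Q t, y ≠ 0 ∧ g a * y = x) :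
    Pool.Agent.H920R2.HasResolution (X := Spec (CommRingCat.of A))
      (Spec.map (CommRingCat.ofHom (algebraMap k A))) := by
  classical
  obtain ⟨G, _, c, hNR⟩ := exists_freeM.{u} (JJ I nn ⊕ I)
  have hTU : TwoUniqueSums G := hNR.1
  have hdom : IsDomain (ML L G) := NoZeroDivisors.to_isDomain _
  have sm : ∀ t, Algebra.Smooth k (KCM c N (C t) (y t) (z t) K) := by
    intro t
    obtain ⟨r, hr, P, hP, w, h1, h2, h3⟩ := gen t
    obtain ⟨ε, hε, h4⟩ := hz t
    exact smooth_KCM (w := w) hN (y0 t) (z0 t) h1 h2 hr hε h4 hNK hq (alg t) h3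
  -- the subspaces
  let ρ : G →+ (I → ℤ) :=
    { toFun := fun m b => c m (Sum.inr b)
      map_zero' := by
        funext b
        rw [map_zero]
        rfl
      map_add' := fun m m' => by
        funext b
        rw [map_add]
        rfl }
  have hρl : ∀ j, ρ (bx c (Sum.inl j)) = 0 := by
    intro j
    funext b
    change c (bx c (Sum.inl j)) (Sum.inr b) = 0
    rw [c_bx, Pi.single_eq_of_ne (by simp)]
  have hρr : ∀ b, ρ (bx c (Sum.inr b)) = Pi.single b 1 := by
    intro b
    funext b'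
    change c (bx c (Sum.inr b)) (Sum.inr b') = _
    rw [c_bx]
    by_cases h : b' = b
    · rw [h, Pi.single_eq_same, Pi.single_eq_same]
    · rw [Pi.single_eq_of_ne (fun h' => h (Sum.inr_injective h')), Pi.single_eq_of_ne h]
  have hρa : ∀ b, ρ (awM c b) = 0 := by
    intro b
    unfold awM
    rw [map_sum]
    refine Finset.sum_eq_zero fun j _ => ?_
    rw [map_nsmul, hρl, smul_zero]
  have hρv : ∀ b, ρ (vv c b) = -Pi.single b 1 := by
    intro b
    unfold vv
    rw [map_sub, hρa, hρr, zero_sub]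
  have hρk : ∀ p, ρ (kkM c p) = p := by
    intro p
    unfold kkM
    rw [map_sum]
    funext b
    rw [Finset.sum_apply, Finset.sum_eq_single b]
    · rw [map_zsmul, hρr, Pi.smul_apply, Pi.single_eq_same, smul_eq_mul, mul_one]
    · intro b' _ hb
      rw [map_zsmul, hρr, Pi.smul_apply, Pi.single_eq_of_ne (Ne.symm hb), smul_zero]
    · intro h
      exact absurd (Finset.mem_univ _) h
  have hzero : ∀ t x, mo 0 x ∈ KCM c N (C t) (y t) (z t) K → x ∈ D t 0 := by
    intro t x hx
    have h0 : ρ 0 = 0 := map_zero ρ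
    have h1 := KCM_zero (fun m => D t (ρ m)) (D1 t _ (by rw [h0]; exact K.zero_mem))
      (fun m m' a b ha hb => by
        rw [map_add]
        exact Dmul t _ _ a b ha hb) (fun x hx => by
        rw [h0]
        exact CD t x hx) (fun j => by
        rw [hρl]
        exact D1 t _ K.zero_mem) (fun j => by
        rw [map_nsmul, hρl, smul_zero]
        exact yd t j) (fun j => by
        rw [map_neg, map_nsmul, hρl, smul_zero, neg_zero]
        exact CD t _ (yC t j)) (fun b => by
        rw [hρv]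
        exact zd t b) (fun b => by
        rw [map_neg, hρv, neg_neg]
        exact zd' t b) (fun q hq => by
        rw [hρk]
        exact D1 t q hq) hx
    rwa [h0] at h1
  -- products of the elements `z`
  have hzK : ∀ t, ∀ q ∈ K, (∀ b, 0 ≤ q b) →
      mo 0 (∏ b, z t b ^ (q b)) ∈ KCM c N (C t) (y t) (z t) K := by
    intro t q hq hq0
    have h1 : (mo 0 (∏ b, z t b ^ (q b)) : ML L G) =
        (∏ b, ((∏ j : Fin (nn b), mo (bx c (Sum.inl ⟨b, j⟩)) 1 ^ (nn b - j : ℕ)) *
          mo (-vv c b) (z t b)) ^ (q b).toNat) * mo (kkM c (-q)) 1 := by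
      have h2 : ∀ b, ((∏ j : Fin (nn b), (mo (bx c (Sum.inl ⟨b, j⟩)) (1 : L) : ML L G) ^
          (nn b - j : ℕ)) * mo (-vv c b) (z t b)) ^ (q b).toNat =
          mo ((q b) • bx c (Sum.inr b)) (z t b ^ (q b)) := by
        intro b
        have h3 : ∀ j : Fin (nn b), (mo (bx c (Sum.inl ⟨b, j⟩)) (1 : L) : ML L G) ^
            (nn b - j : ℕ) = mo ((nn b - j : ℕ) • bx c (Sum.inl ⟨b, j⟩)) 1 := by
          intro j
          rw [mo_pow, one_pow]
        rw [Finset.prod_congr rfl fun j _ => h3 j, mo_prod, Finset.prod_const_one, mo_mul,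
          one_mul, mo_pow]
        have h4 : ∑ j : Fin (nn b), (nn b - j : ℕ) • bx c (Sum.inl (⟨b, j⟩ : JJ I nn)) +
            -vv c b = bx c (Sum.inr b) := by
          have h5 : ∑ j : Fin (nn b), (nn b - j : ℕ) • bx c (Sum.inl (⟨b, j⟩ : JJ I nn)) =
              awM c b := rfl
          rw [h5]
          unfold vv
          abel
        rw [h4]
        have h6 : ((q b).toNat : ℤ) = q b := Int.toNat_of_nonneg (hq0 b)
        congr 1
        · conv_rhs => rw [← h6]
          rw [natCast_zsmul]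
        · conv_rhs => rw [← h6]
          rw [zpow_natCast]
      rw [Finset.prod_congr rfl fun b _ => h2 b, mo_prod, mo_mul, mul_one, kkM_neg]
      have h3 : ∑ b, q b • bx c (Sum.inr b) = kkM c q := rfl
      rw [h3, add_neg_cancel]
    rw [h1]
    refine Subalgebra.mul_mem _ (Subalgebra.prod_mem _ fun b _ => Subalgebra.pow_mem _
      (Subalgebra.mul_mem _ (Subalgebra.prod_mem _ fun j _ => Subalgebra.pow_mem _
        (bx_mem_KCM _) _) (z_mem_KCM' b)) _) (kk_mem_KCM (K.neg_mem hq))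
  have hQK : ∀ t, ∀ x ∈ Q t, mo 0 x ∈ KCM c N (C t) (y t) (z t) K := by
    intro t x hx
    have h1 := hQ t ((KCM c N (C t) (y t) (z t) K).comap (Pool.Agent.W559.Mg.zr k L G))
      (fun x hx => mo_mem_KCM hx) (hzK t)
    exact h1 hx
  refine hNR.2.2.2 k A L g hg (ULift.{u} T) N (fun t => KCM c N (C t.down) (y t.down) (z t.down) K)
    (fun t => H t.down) ?_
  refine { pa := ?_, sm := fun t => sm t.down }
  refine
    { H0 := fun t => H0 _
      hA := fun t => hA _
      gr := fun t => ?_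
      aa := fun t a => ⟨?_, trivial⟩
      Fi := fun _ _ _ _ => trivial
      rt := fun t t' => ⟨mo_mem_KCM (rt _ _), trivial⟩
      gl := ?_
      dn := ?_
      cv := ?_
      E0 := hN
      un := ?_
      gen := ?_ }
  · rw [inf_top_eq]
    exact gr_KCM
  · obtain ⟨h1, x, hx, x', hx', hx0, h2⟩ := aa t.down a
    refine mem_of_integral (sm t.down) (hQK _ _ hx) (hQK _ _ hx') (mo_ne_zero hx0) ?_ ?_
    · rw [mo_mul, add_zero, h2]
    · obtain ⟨p, hp, hp0⟩ := h1
      let φ : Q t.down →+* KCM c N (C t.down) (y t.down) (z t.down) K :=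
        ((Pool.Agent.W559.Mg.zr k L G).comp (Q t.down).val :
          Q t.down →+* ML L G).codRestrict (KCM c N (C t.down) (y t.down) (z t.down) K).toSubring
          fun a => hQK _ _ a.2
      refine ⟨p.map φ, hp.map φ, ?_⟩
      rw [Polynomial.eval₂_map]
      have h3 : (algebraMap (KCM c N (C t.down) (y t.down) (z t.down) K) (ML L G)).comp φ =
          ((Pool.Agent.W559.Mg.zr k L G : L →+* ML L G)).comp (algebraMap (Q t.down) L) := rfl
      rw [h3]
      have h4 := Polynomial.hom_eval₂ p (algebraMap (Q t.down) L)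
        (Pool.Agent.W559.Mg.zr k L G : L →+* ML L G) (g a)
      rw [hp0, map_zero] at h4
      exact h4.symm
  · rintro t t' f ⟨hf, -⟩
    exact gl_KCM (rt t.down t'.down) (div_ne_zero (H0 _) (H0 _)) (gl t.down t'.down)
      (y0 _) (z0 _) (z0 _) (y1 _ _) (y2 _ _) (z1 _ _) (z2 _ _) hf
  · rintro t x ⟨hx, -⟩
    exact dn _ _ (hzero _ _ hx)
  · intro V hV
    obtain ⟨t, ht⟩ := cv V hV
    obtain ⟨ε, hε, h4⟩ := hz t
    exact ⟨⟨t⟩, N, _, nrm_KCM hN (y0 t) (yC t) hε h4 V ht⟩
  · intro t m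
    have h1 := un_KCM (N := N) (C := C t.down) (z := z t.down) (y0 t.down) hNK m (c := c)
    refine ⟨(yyM c (y t.down) m)⁻¹, inv_ne_zero (yyM_ne c (y0 _) m), ⟨h1.1, trivial⟩, ?_, trivial⟩
    rw [inv_inv]
    exact h1.2
  · intro t
    have h1 := gen_KCM (c := c) (N := N) (C := C t.down) (y := y t.down) (K := K) (z0 t.down)
    rw [eq_top_iff, ← h1]
    refine AddSubgroup.closure_mono ?_
    rintro m ⟨a, ha, ha'⟩
    exact ⟨a, ha, ha', trivial⟩

end res

end Pool.Agent.R837.FD
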