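import Pool.Agent.R837.FD.StepB
import Pool.Agent.R837.FM.Levels

/-!
The construction of the charts level by level, with blow-ups of the ideals of minors.
-/

set_option autoImplicit false
set_option linter.unusedSectionVars false

open Finset

universe u v w z

namespace Pool.Agent.R837.FD

open Pool.Agent.R837.FM Pool.Agent.R837.FS

section levels

variable {F : Type v} [Field F] [Fintype F] {k : Type u} [Field k] {L : Type u} [Field L]
  [Algebra F L] [Algebra k L] {m s n : ℕ} {B : Subalgebra k L} {X : Submodule F (Fin m → L)}
  {Λ0 : Submodule F (Fin m → L)} {x : Fin n → X} {lv : Fin n → ℕ}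

/-- The sizes of the levels. -/
def nl (lv : Fin n → ℕ) (b : ℕ) : ℕ := Fintype.card {i // lv i = b}

/-- The data of the charts up to level `a`. -/
structure LB (F : Type v) [Field F] [Fintype F] {k : Type u} [Field k] {L : Type u} [Field L]
    [Algebra F L] [Algebra k L] {m s n : ℕ} (B : Subalgebra k L) (X : Submodule F (Fin m → L))
    (Λ0 : Submodule F (Fin m → L)) (x : Fin n → X) (lv : Fin n → ℕ) (a N0 g0 : ℕ)
    {T0 : Type} (R0 : T0 → Subalgebra k L) (H0 : T0 → L)
    {T : Type} (R : T → Subalgebra k L) (H : T → L)
    (r : T → X →ₗ[F] (Fin s → L)) (Y : T → ℕ → ℕ → L) (Z : T → ℕ → L) : Prop where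
  S : Stage F B X (Lam Λ0 x lv a) (N0 + Fintype.card {i // lv i < a}) R H r
  Y0 : ∀ t b j, Y t b j ≠ 0
  YR : ∀ t b j, Y t b j ∈ R t
  Z0 : ∀ t b, Z t b ≠ 0
  hz : ∀ t, ∀ b < a, ∃ ε : k, ε ≠ 0 ∧ Z t b ^ (Fintype.card F - 1) = algebraMap k L ε *
    ∏ j : Fin (nl lv b), Y t b j ^ (nl lv b - j : ℕ)
  y1 : ∀ t t' b j, Y t' b j / Y t b j ∈ Loc (R t) (H t' / H t)
  y2 : ∀ t t' b j, Y t b j / Y t' b j ∈ Loc (R t) (H t' / H t)
  z1 : ∀ t t' b, Z t' b / Z t b ∈ Loc (R t) (H t' / H t)
  z2 : ∀ t t' b, Z t b / Z t' b ∈ Loc (R t) (H t' / H t)
  YB : ∀ t b j, (Y t b j)⁻¹ ∈ Loc B (H t)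
  ZB : ∀ t b, (Z t b)⁻¹ ∈ Loc B (H t)
  ZB' : ∀ t b, Z t b ∈ Loc B (H t)
  gen : ∀ t, ∃ (u : ℕ → ℕ) (P : Type) (_ : Fintype P) (w : P → L),
    (∀ b < a, 0 < nl lv b → u b < nl lv b) ∧
    R t = Algebra.adjoin k (Set.range w ∪ {c | ∃ b < a, ∃ j < nl lv b, c = Y t b j}) ∧
    (∀ b < a, ∀ j < u b, Y t b j = 1) ∧
    Fintype.card P + ∑ b ∈ range a, (nl lv b - u b) = g0 + s * Fintype.card {i // lv i < a}
  conv : ∀ t (σ : L →+* L), (∀ b ∈ R t, σ b = b) → (∃ t0, ∀ b ∈ R0 t0, σ b = b) ∧
    ∀ b < a, ∃ g : Matrix {i // lv i = b} {i // lv i = b} F, g.det ≠ 0 ∧
      (∀ i : {i // lv i = b}, (fun l => σ ((x i : Fin m → L) l)) -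
        ∑ j : {i // lv i = b}, g i j • (x j : Fin m → L) ∈ Lam Λ0 x lv b) ∧
      σ (Z t b) = algebraMap F L g.det * Z t b
  fix : ∀ σ : L →+* L, (∀ t, (∀ b ∈ R0 t, σ b = b) ∧ σ (H0 t) = H0 t) →
    ∀ g : ∀ b, Matrix {i // lv i = b} {i // lv i = b} F, (∀ b < a, (g b).det ≠ 0 ∧
      ∀ i : {i // lv i = b}, (fun l => σ ((x i : Fin m → L) l)) -
        ∑ j : {i // lv i = b}, g b i j • (x j : Fin m → L) ∈ Lam Λ0 x lv b) →
      ∀ t, (∀ b ∈ R t, σ b = b) ∧ σ (H t) = H t ∧
        ∀ b < a, σ (Z t b) = algebraMap F L (g b).det * Z t b

/-- The charts up to level `a`. -/
theorem levelsB {T0 : Type} [Finite T0] {R0 : T0 → Subalgebra k L} {H0 : T0 → L}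
    {r0 : T0 → X →ₗ[F] (Fin s → L)} {J0 : Type} [Fintype J0] {z : J0 → X}
    (hz : Λ0 = Submodule.span F (Set.range fun j => (z j : Fin m → L)))
    (S0 : Stage F B X Λ0 (Fintype.card J0) R0 H0 r0) (g0 : ℕ)
    (hg0 : ∀ t, ∃ (P : Type) (_ : Fintype P) (w : P → L), Fintype.card P = g0 ∧
      R0 t = Algebra.adjoin k (Set.range w))
    (hX0 : ∀ t (σ : L →+* L), (∀ b ∈ R0 t, σ b = b) → ∀ y ∈ X, (fun l => σ (y l)) ∈ X)
    (hx : LinearIndependent F (Sum.elim (fun i => (x i : Fin m → L)) fun j =>
      (z j : Fin m → L)))
    (hxB : ∀ i l, (x i : Fin m → L) l ∈ B) (a : ℕ) :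
    ∃ (T : Type) (_ : Finite T) (R : T → Subalgebra k L) (H : T → L)
      (r : T → X →ₗ[F] (Fin s → L)) (Y : T → ℕ → ℕ → L) (Z : T → ℕ → L),
      LB F B X Λ0 x lv a (Fintype.card J0) g0 R0 H0 R H r Y Z := by
  classical
  have hΛ0 : Λ0 ≤ X := by
    rw [hz]
    refine Submodule.span_le.2 ?_
    rintro _ ⟨j, rfl⟩
    exact (z j).2
  induction a with
  | zero =>
    have hc0 : Fintype.card {i // lv i < 0} = 0 := by
      rw [Fintype.card_eq_zero_iff]
      exact ⟨fun i => absurd i.2 (Nat.not_lt_zero _)⟩
    refine ⟨T0, inferInstance, R0, H0, r0, fun _ _ _ => 1, fun _ _ => 1, ?_⟩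
    exact
      { S := by
          rw [lam_zero, hc0, add_zero]
          exact S0
        Y0 := fun _ _ _ => one_ne_zero
        YR := fun _ _ _ => Subalgebra.one_mem _
        Z0 := fun _ _ => one_ne_zero
        hz := fun _ b hb => absurd hb (Nat.not_lt_zero _)
        y1 := fun _ _ _ _ => by
          rw [div_one]
          exact Subalgebra.one_mem _
        y2 := fun _ _ _ _ => by
          rw [div_one]
          exact Subalgebra.one_mem _
        z1 := fun _ _ _ => by
          rw [div_one]
          exact Subalgebra.one_mem _
        z2 := fun _ _ _ => by
          rw [div_one]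
          exact Subalgebra.one_mem _
        YB := fun _ _ _ => by
          rw [inv_one]
          exact Subalgebra.one_mem _
        ZB := fun _ _ => by
          rw [inv_one]
          exact Subalgebra.one_mem _
        ZB' := fun _ _ => Subalgebra.one_mem _
        gen := fun t => by
          obtain ⟨P, hP, w, h1, h2⟩ := hg0 t
          refine ⟨fun _ => 0, P, hP, w, fun b hb => absurd hb (Nat.not_lt_zero _), ?_,
            fun b hb => absurd hb (Nat.not_lt_zero _), ?_⟩
          · rw [h2]
            congr 1
            ext c
            constructor
            · exact fun h => Or.inl h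
            · rintro (h | ⟨b, hb, -⟩)
              · exact h
              · exact absurd hb (Nat.not_lt_zero _)
          · rw [hc0, Finset.range_zero, Finset.sum_empty, h1, mul_zero]
        conv := fun t σ h => ⟨⟨t, h⟩, fun b hb => absurd hb (Nat.not_lt_zero _)⟩
        fix := fun σ h g _ t => ⟨(h t).1, (h t).2, fun b hb => absurd hb (Nat.not_lt_zero _)⟩ }
  | succ a ih =>
    obtain ⟨T, hT, R, H, r, Y, Z, ih⟩ := ih
    by_cases hι : 0 < Fintype.card {i // lv i = a}
    · have hind := hind_of (lv := lv) hz hx a
      obtain ⟨T', hT', f, R', H', r', y, Δ, S', hRR, hLL, hBB, hy0, hyR, hΔ0, hΔz, hy1, hy2, hd1,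
        hd2, hyB, hΔB, hΔB', hGB, hfix, hconv⟩ :=
        stepB ih.S (fun i : {i // lv i = a} => x i) (fun i l => hxB i l) hind hι
      let Y' : T' → ℕ → ℕ → L := fun t b j =>
        if b = a then (if h : j < Fintype.card {i // lv i = a} then y t ⟨j, h⟩ else 1)
        else Y (f t) b j
      let Z' : T' → ℕ → L := fun t b => if b = a then Δ t else Z (f t) b
      have hYa : ∀ t j (h : j < Fintype.card {i // lv i = a}), Y' t a j = y t ⟨j, h⟩ := by
        intro t j h
        change (if a = a then _ else _) = _
        rw [if_pos rfl, dif_pos h]
      have hYa' : ∀ t j (_ : ¬ j < Fintype.card {i // lv i = a}), Y' t a j = 1 := by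
        intro t j h
        change (if a = a then _ else _) = _
        rw [if_pos rfl, dif_neg h]
      have hYb : ∀ t b j, b ≠ a → Y' t b j = Y (f t) b j := fun t b j h => if_neg h
      have hZa : ∀ t, Z' t a = Δ t := fun t => if_pos rfl
      have hZb : ∀ t b, b ≠ a → Z' t b = Z (f t) b := fun t b h => if_neg h
      refine ⟨T', hT', R', H', r', Y', Z', ?_⟩
      exact
        { S := by
            rw [lam_succ, card_succ, ← add_assoc]
            exact S'
          Y0 := fun t b j => by
            by_cases hb : b = a
            · subst hb
              by_cases hj : j < Fintype.card {i // lv i = b}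
              · rw [hYa t j hj]
                exact hy0 _ _
              · rw [hYa' t j hj]
                exact one_ne_zero
            · rw [hYb t b j hb]
              exact ih.Y0 _ _ _
          YR := fun t b j => by
            by_cases hb : b = a
            · subst hb
              by_cases hj : j < Fintype.card {i // lv i = b}
              · rw [hYa t j hj]
                exact hyR _ _
              · rw [hYa' t j hj]
                exact Subalgebra.one_mem _
            · rw [hYb t b j hb]
              exact hRR _ (ih.YR _ _ _)
          Z0 := fun t b => by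
            by_cases hb : b = a
            · subst hb
              rw [hZa]
              exact hΔ0 _
            · rw [hZb t b hb]
              exact ih.Z0 _ _
          hz := fun t b hb => by
            by_cases hba : b = a
            · subst hba
              obtain ⟨ε, hε, h1⟩ := hΔz t
              refine ⟨ε, hε, ?_⟩
              rw [hZa, h1]
              congr 1
              refine Finset.prod_congr rfl fun j _ => ?_
              rw [hYa t j j.2]
              rfl
            · obtain ⟨ε, hε, h1⟩ := ih.hz (f t) b (by omega)
              refine ⟨ε, hε, ?_⟩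
              rw [hZb t b hba, h1]
              congr 1
              refine Finset.prod_congr rfl fun j _ => ?_
              rw [hYb t b j hba]
          y1 := fun t t' b j => by
            by_cases hb : b = a
            · subst hb
              by_cases hj : j < Fintype.card {i // lv i = b}
              · rw [hYa t j hj, hYa t' j hj]
                exact hy1 _ _ _
              · rw [hYa' t j hj, hYa' t' j hj, div_one]
                exact Subalgebra.one_mem _
            · rw [hYb t b j hb, hYb t' b j hb]
              exact hLL _ _ (ih.y1 _ _ _ _)
          y2 := fun t t' b j => by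
            by_cases hb : b = a
            · subst hb
              by_cases hj : j < Fintype.card {i // lv i = b}
              · rw [hYa t j hj, hYa t' j hj]
                exact hy2 _ _ _
              · rw [hYa' t j hj, hYa' t' j hj, div_one]
                exact Subalgebra.one_mem _
            · rw [hYb t b j hb, hYb t' b j hb]
              exact hLL _ _ (ih.y2 _ _ _ _)
          z1 := fun t t' b => by
            by_cases hb : b = a
            · subst hb
              rw [hZa, hZa]
              exact hd1 _ _
            · rw [hZb t b hb, hZb t' b hb]
              exact hLL _ _ (ih.z1 _ _ _)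
          z2 := fun t t' b => by
            by_cases hb : b = a
            · subst hb
              rw [hZa, hZa]
              exact hd2 _ _
            · rw [hZb t b hb, hZb t' b hb]
              exact hLL _ _ (ih.z2 _ _ _)
          YB := fun t b j => by
            by_cases hb : b = a
            · subst hb
              by_cases hj : j < Fintype.card {i // lv i = b}
              · rw [hYa t j hj]
                exact hyB _ _
              · rw [hYa' t j hj, inv_one]
                exact Subalgebra.one_mem _
            · rw [hYb t b j hb]
              exact hBB _ (ih.YB _ _ _)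
          ZB := fun t b => by
            by_cases hb : b = a
            · subst hb
              rw [hZa]
              exact hΔB _
            · rw [hZb t b hb]
              exact hBB _ (ih.ZB _ _)
          ZB' := fun t b => by
            by_cases hb : b = a
            · subst hb
              rw [hZa]
              exact hΔB' _
            · rw [hZb t b hb]
              exact hBB _ (ih.ZB' _ _)
          gen := fun t => by
            obtain ⟨u, P, hP, w, h1, h2, h3, h4⟩ := ih.gen (f t)
            obtain ⟨u1, hu1, P1, hP1, w1, h5, h6, h7⟩ := hGB t
            let u' : ℕ → ℕ := fun b => if b = a then u1 else u b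
            have hua : u' a = u1 := if_pos rfl
            have hub : ∀ b, b ≠ a → u' b = u b := fun b h => if_neg h
            refine ⟨u', P ⊕ P1, inferInstance, Sum.elim w w1, ?_, ?_, ?_, ?_⟩
            · intro b hb hb0
              by_cases hba : b = a
              · subst hba
                rw [hua]
                exact hu1
              · rw [hub b hba]
                exact h1 b (by omega) hb0
            · rw [h5, h2, ← Algebra.adjoin_union]
              congr 1
              ext c
              constructor
              · rintro ((⟨p, rfl⟩ | ⟨b, hb, j, hj, rfl⟩) | (⟨p, rfl⟩ | ⟨j, rfl⟩))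
                · exact Or.inl ⟨Sum.inl p, rfl⟩
                · exact Or.inr ⟨b, by omega, j, hj, (hYb t b j (by omega)).symm⟩
                · exact Or.inl ⟨Sum.inr p, rfl⟩
                · exact Or.inr ⟨a, Nat.lt_succ_self a, j, j.2, (hYa t j j.2).symm⟩
              · rintro (⟨p | p, rfl⟩ | ⟨b, hb, j, hj, rfl⟩)
                · exact Or.inl (Or.inl ⟨p, rfl⟩)
                · exact Or.inr (Or.inl ⟨p, rfl⟩)
                · by_cases hba : b = a
                  · subst hba
                    exact Or.inr (Or.inr ⟨⟨j, hj⟩, (hYa t j hj).symm⟩)
                  · exact Or.inl (Or.inr ⟨b, by omega, j, hj, hYb t b j hba⟩)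
            · intro b hb j hj
              by_cases hba : b = a
              · subst hba
                rw [hua] at hj
                rw [hYa t j (hj.trans hu1)]
                exact h6 ⟨j, hj.trans hu1⟩ hj
              · rw [hub b hba] at hj
                rw [hYb t b j hba]
                exact h3 b (by omega) j hj
            · rw [Finset.sum_range_succ, hua, Fintype.card_sum]
              have h8 : ∑ b ∈ range a, (nl lv b - u' b) =
                  ∑ b ∈ range a, (nl lv b - u b) := by
                refine Finset.sum_congr rfl fun b hb => ?_
                rw [hub b (Finset.mem_range.1 hb).ne]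
              rw [h8]
              have h9 := card_succ lv a
              rw [h9]
              have h10 : Fintype.card P1 + (nl lv a - u1) =
                  s * Fintype.card {i // lv i = a} := h7
              have h11 : s * (Fintype.card {i // lv i < a} + Fintype.card {i // lv i = a}) =
                  s * Fintype.card {i // lv i < a} + s * Fintype.card {i // lv i = a} :=
                mul_add _ _ _
              rw [h11]
              omega
          conv := fun t σ hσ => by
            obtain ⟨h1, h2⟩ := ih.conv (f t) σ fun b hb => hσ b (hRR t hb)
            refine ⟨h1, fun b hb => ?_⟩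
            by_cases hba : b = a
            · subst hba
              obtain ⟨t0, ht0⟩ := h1
              obtain ⟨g, hg0, hg1, hg2⟩ := hconv t σ (hX0 t0 σ ht0) hσ
              exact ⟨g, hg0, hg1, by rw [hZa]; exact hg2⟩
            · obtain ⟨g, hg0, hg1, hg2⟩ := h2 b (by omega)
              exact ⟨g, hg0, hg1, by rw [hZb t b hba]; exact hg2⟩
          fix := fun σ hσ0 g hg t => by
            obtain ⟨h1, h2, h3⟩ := ih.fix σ hσ0 g (fun b hb => hg b (by omega)) (f t)
            obtain ⟨hg0, hg1⟩ := hg a (Nat.lt_succ_self a)
            have hXσ : ∀ i : {i // lv i = a}, (fun l => σ ((x i : Fin m → L) l)) ∈ X := by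
              intro i
              have h3 := lam_le hΛ0 a (hg1 i)
              have h4 : ∑ j : {i // lv i = a}, g a i j • (x j : Fin m → L) ∈ X :=
                Submodule.sum_mem _ fun j _ => Submodule.smul_mem _ _ (x j).2
              have h5 := X.add_mem h3 h4
              rwa [sub_add_cancel] at h5
            obtain ⟨h4, h5, h6⟩ := hfix t σ h1 h2 (g a) hg0 (by
              intro i l
              rw [sigma_r ih.S σ (f t) h1 (x i) ⟨_, hXσ i⟩ (fun l => rfl)]
              have h4 : r (f t) ((⟨_, hXσ i⟩ : X) - ∑ j : {i // lv i = a}, g a i j • x j) = 0 := by
                rw [ih.S.ker, Submodule.coe_sub, Submodule.coe_sum]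
                exact hg1 i
              rw [map_sub, sub_eq_zero] at h4
              rw [h4, map_sum, Finset.sum_apply]
              exact Finset.sum_congr rfl fun j _ => by rw [map_smul]; rfl)
            refine ⟨h4, h5, fun b hb => ?_⟩
            by_cases hba : b = a
            · subst hba
              rw [hZa]
              exact h6
            · rw [hZb t b hba]
              exact h3 b (by omega) }
    · -- an empty level
      have hc0 : Fintype.card {i // lv i = a} = 0 := by omega
      have hemp : IsEmpty {i // lv i = a} := Fintype.card_eq_zero_iff.1 hc0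
      let Z' : T → ℕ → L := fun t b => if b = a then 1 else Z t b
      have hZa : ∀ t, Z' t a = 1 := fun t => if_pos rfl
      have hZb : ∀ t b, b ≠ a → Z' t b = Z t b := fun t b h => if_neg h
      have hLam : Lam Λ0 x lv (a + 1) = Lam Λ0 x lv a := by
        rw [lam_succ]
        have h1 : (Set.range fun i : {i // lv i = a} => (x i : Fin m → L)) = ∅ :=
          Set.range_eq_empty _
        rw [h1, Submodule.span_empty, sup_bot_eq]
      refine ⟨T, hT, R, H, r, Y, Z', ?_⟩
      exact
        { S := by
            rw [hLam, card_succ, hc0, add_zero]
            exact ih.S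
          Y0 := ih.Y0
          YR := ih.YR
          Z0 := fun t b => by
            by_cases hb : b = a
            · subst hb
              rw [hZa]
              exact one_ne_zero
            · rw [hZb t b hb]
              exact ih.Z0 _ _
          hz := fun t b hb => by
            by_cases hba : b = a
            · subst hba
              refine ⟨1, one_ne_zero, ?_⟩
              have h1 : IsEmpty (Fin (nl lv b)) := by
                unfold nl
                rw [hc0]
                infer_instance
              rw [hZa, one_pow, map_one, one_mul, Finset.univ_eq_empty, Finset.prod_empty]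
            · obtain ⟨ε, hε, h1⟩ := ih.hz t b (by omega)
              exact ⟨ε, hε, by rw [hZb t b hba, h1]⟩
          y1 := ih.y1
          y2 := ih.y2
          z1 := fun t t' b => by
            by_cases hb : b = a
            · subst hb
              rw [hZa, hZa, div_one]
              exact Subalgebra.one_mem _
            · rw [hZb t b hb, hZb t' b hb]
              exact ih.z1 _ _ _
          z2 := fun t t' b => by
            by_cases hb : b = a
            · subst hb
              rw [hZa, hZa, div_one]
              exact Subalgebra.one_mem _
            · rw [hZb t b hb, hZb t' b hb]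
              exact ih.z2 _ _ _
          YB := ih.YB
          ZB := fun t b => by
            by_cases hb : b = a
            · subst hb
              rw [hZa, inv_one]
              exact Subalgebra.one_mem _
            · rw [hZb t b hb]
              exact ih.ZB _ _
          ZB' := fun t b => by
            by_cases hb : b = a
            · subst hb
              rw [hZa]
              exact Subalgebra.one_mem _
            · rw [hZb t b hb]
              exact ih.ZB' _ _
          gen := fun t => by
            obtain ⟨u, P, hP, w, h1, h2, h3, h4⟩ := ih.gen t
            let u' : ℕ → ℕ := fun b => if b = a then 0 else u b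
            have hua : u' a = 0 := if_pos rfl
            have hub : ∀ b, b ≠ a → u' b = u b := fun b h => if_neg h
            refine ⟨u', P, hP, w, ?_, ?_, ?_, ?_⟩
            · intro b hb hb0
              by_cases hba : b = a
              · subst hba
                unfold nl at hb0
                omega
              · rw [hub b hba]
                exact h1 b (by omega) hb0
            · rw [h2]
              congr 1
              ext c
              constructor
              · rintro (h | ⟨b, hb, j, hj, rfl⟩)
                · exact Or.inl h
                · exact Or.inr ⟨b, by omega, j, hj, rfl⟩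
              · rintro (h | ⟨b, hb, j, hj, rfl⟩)
                · exact Or.inl h
                · by_cases hba : b = a
                  · subst hba
                    unfold nl at hj
                    omega
                  · exact Or.inr ⟨b, by omega, j, hj, rfl⟩
            · intro b hb j hj
              by_cases hba : b = a
              · subst hba
                rw [hua] at hj
                exact absurd hj (Nat.not_lt_zero _)
              · rw [hub b hba] at hj
                exact h3 b (by omega) j hj
            · rw [Finset.sum_range_succ]
              have h8 : ∑ b ∈ range a, (nl lv b - u' b) =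
                  ∑ b ∈ range a, (nl lv b - u b) := by
                refine Finset.sum_congr rfl fun b hb => ?_
                rw [hub b (Finset.mem_range.1 hb).ne]
              have h9 : nl lv a = 0 := hc0
              rw [h8, card_succ, hc0, h9, add_zero, Nat.zero_sub, add_zero, ← h4]
          conv := fun t σ hσ => by
            obtain ⟨h1, h2⟩ := ih.conv t σ hσ
            refine ⟨h1, fun b hb => ?_⟩
            by_cases hba : b = a
            · subst hba
              refine ⟨1, by rw [Matrix.det_one]; exact one_ne_zero, fun i => isEmptyElim i, ?_⟩
              rw [hZa, Matrix.det_one, map_one, map_one, one_mul]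
            · obtain ⟨g, hg0, hg1, hg2⟩ := h2 b (by omega)
              exact ⟨g, hg0, hg1, by rw [hZb t b hba]; exact hg2⟩
          fix := fun σ hσ0 g hg t => by
            obtain ⟨h1, h2, h3⟩ := ih.fix σ hσ0 g (fun b hb => hg b (by omega)) t
            refine ⟨h1, h2, fun b hb => ?_⟩
            by_cases hba : b = a
            · subst hba
              rw [hZa, Matrix.det_isEmpty, map_one, map_one, one_mul]
            · rw [hZb t b hba]
              exact h3 b (by omega) }

end levels

end Pool.Agent.R837.FD
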