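import Pool.Agent.R837.FD.SpecM

/-!
The quotients of affine spaces by groups with conditions on the determinants of the blocks:
the main theorem.
-/

set_option autoImplicit false
set_option linter.unusedSectionVars false

open Finset AlgebraicGeometry CategoryTheory MvPolynomial

universe u v w z

namespace Pool.Agent.R837.FD

open Pool.Agent.R837.FM Pool.Agent.R837.FS

section det

variable {F : Type v} [Field F] [Fintype F] {n : ℕ} {lv : Fin n → ℕ}
  {L : Type u} [Field L] [Algebra F L] {m : ℕ} {X : Submodule F (Fin m → L)}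
  {Λ0 : Submodule F (Fin m → L)}

/-- The condition on the matrices. -/
def CondK (K : AddSubgroup (LI lv → ℤ)) (g : Matrix (Fin n) (Fin n) F) : Prop :=
  (∀ i j, lv i < lv j → g i j = 0) ∧
  ∀ c ∈ K, ∏ b : LI lv, (g.toSquareBlock lv b.1).det ^ c b = 1

lemma block_ne {g : Matrix (Fin n) (Fin n) F} (hg : ∀ i j, lv i < lv j → g i j = 0)
    (hdet : g.det ≠ 0) (b : ℕ) : (g.toSquareBlock lv b).det ≠ 0 := by
  classical
  by_cases hb : b ∈ univ.image lv
  · intro h0
    apply hdet
    rw [det_eq_prod_blocks g hg]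
    exact Finset.prod_eq_zero hb h0
  · have : IsEmpty {i // lv i = b} :=
      ⟨fun i => hb (Finset.mem_image.2 ⟨i, Finset.mem_univ _, i.2⟩)⟩
    rw [Matrix.det_isEmpty]
    exact one_ne_zero

/-- Matrices give the condition `QK`. -/
lemma qK_of_matrix {x : Fin n → X} {K : AddSubgroup (LI lv → ℤ)}
    {g : Matrix (Fin n) (Fin n) F} (hg : CondK K g) (hdet : g.det ≠ 0) {σ : L →+* L}
    (hσ : ∀ i, (fun l => σ ((x i : Fin m → L) l)) - ∑ j, g i j • (x j : Fin m → L) ∈ Λ0) :
    QK K Λ0 x σ := by
  classical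
  refine ⟨fun b => g.toSquareBlock lv b, fun b => block_ne hg.1 hdet b, ?_, hg.2⟩
  rintro b ⟨i, rfl⟩
  have h1 : ∑ j, g i j • (x j : Fin m → L) =
      ∑ j : {j // lv j = lv i}, g.toSquareBlock lv (lv i) ⟨i, rfl⟩ j • (x j : Fin m → L) +
      ∑ j : {j // ¬ lv j = lv i}, g i j • (x j : Fin m → L) :=
    (Fintype.sum_subtype_add_sum_subtype (fun j => lv j = lv i)
      (fun j => g i j • (x j : Fin m → L))).symm
  have h2 : (fun l => σ ((x i : Fin m → L) l)) -
      ∑ j : {j // lv j = lv i}, g.toSquareBlock lv (lv i) ⟨i, rfl⟩ j • (x j : Fin m → L) =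
      ((fun l => σ ((x i : Fin m → L) l)) - ∑ j, g i j • (x j : Fin m → L)) +
      ∑ j : {j // ¬ lv j = lv i}, g i j • (x j : Fin m → L) := by
    rw [h1]
    abel
  rw [h2]
  refine Submodule.add_mem _ (Submodule.mem_sup_left (hσ i))
    (Submodule.mem_sup_right (Submodule.sum_mem _ fun j _ => ?_))
  rcases lt_or_gt_of_ne j.2 with h | h
  · exact Submodule.smul_mem _ _ (Submodule.subset_span ⟨j, h, rfl⟩)
  · rw [hg.1 i j h, zero_smul]
    exact Submodule.zero_mem _

/-- The condition `QK` gives matrices. -/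
lemma matrix_of_qK {x : Fin n → X} {K : AddSubgroup (LI lv → ℤ)}
    {σ : L →+* L} (h : QK K Λ0 x σ) :
    ∃ g : Matrix (Fin n) (Fin n) F, g.det ≠ 0 ∧ CondK K g ∧
      ∀ i, (fun l => σ ((x i : Fin m → L) l)) - ∑ j, g i j • (x j : Fin m → L) ∈ Λ0 := by
  classical
  obtain ⟨G, hG1, hG2, hG3⟩ := h
  have hrow : ∀ i, ∃ c : Fin n → F, (∀ j, ¬ lv j < lv i → c j = 0) ∧ ∃ w0 ∈ Λ0,
      (fun l => σ ((x i : Fin m → L) l)) =
        ∑ j : {j // lv j = lv i}, G (lv i) ⟨i, rfl⟩ j • (x j : Fin m → L) +
          ∑ j, c j • (x j : Fin m → L) + w0 := by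
    intro i
    have h1 := hG2 (lv i) ⟨i, rfl⟩
    unfold Lam at h1
    obtain ⟨w0, hw0, w1, hw1, h0⟩ := Submodule.mem_sup.1 h1
    obtain ⟨c, hc, h2⟩ := (Finsupp.mem_span_image_iff_linearCombination F).1 hw1
    refine ⟨c, fun j hj => ?_, ?_⟩
    · by_contra h0
      exact hj (hc (Finsupp.mem_support_iff.2 h0))
    · rw [Finsupp.linearCombination_apply] at h2
      have h3 : c.sum (fun i a => a • (x i : Fin m → L)) = ∑ j, c j • (x j : Fin m → L) :=
        Finsupp.sum_fintype _ _ fun i => zero_smul _ _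
      have h4 := h3.symm.trans h2
      refine ⟨w0, hw0, ?_⟩
      rw [h4, add_assoc, add_comm w1 w0, h0]
      exact (add_sub_cancel _ _).symm
  choose c hc1 w0 hw0 hc2 using hrow
  let g : Matrix (Fin n) (Fin n) F := Matrix.of fun i j =>
    (if h : lv j = lv i then G (lv i) ⟨i, rfl⟩ ⟨j, h⟩ else 0) + c i j
  have hblock : ∀ a, g.toSquareBlock lv a = G a := by
    intro a
    ext ⟨i, hi⟩ ⟨j, hj⟩
    subst hi
    change (if h : lv j = lv i then G (lv i) ⟨i, rfl⟩ ⟨j, h⟩ else 0) + c i j = _
    rw [dif_pos hj, hc1 i j (by omega), add_zero]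
  have hg0 : ∀ i j, lv i < lv j → g i j = 0 := by
    intro i j hij
    change (if h : lv j = lv i then G (lv i) ⟨i, rfl⟩ ⟨j, h⟩ else 0) + c i j = 0
    rw [dif_neg (by omega), hc1 i j (by omega), add_zero]
  refine ⟨g, ?_, ⟨hg0, fun b hb => ?_⟩, fun i => ?_⟩
  · rw [det_eq_prod_blocks g hg0]
    refine Finset.prod_ne_zero_iff.2 fun a _ => ?_
    rw [hblock]
    exact hG1 a
  · rw [← hG3 b hb]
    exact Finset.prod_congr rfl fun b' _ => by rw [hblock]
  · have hcore : ∑ j, g i j • (x j : Fin m → L) =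
        ∑ j : {j // lv j = lv i}, G (lv i) ⟨i, rfl⟩ j • (x j : Fin m → L) +
          ∑ j, c i j • (x j : Fin m → L) := by
      have h1 : ∀ j, g i j • (x j : Fin m → L) =
          (if h : lv j = lv i then G (lv i) ⟨i, rfl⟩ ⟨j, h⟩ else 0) • (x j : Fin m → L) +
            c i j • (x j : Fin m → L) := fun j => add_smul _ _ _
      rw [Finset.sum_congr rfl fun j _ => h1 j, Finset.sum_add_distrib]
      congr 1
      rw [← Fintype.sum_subtype_add_sum_subtype (fun j => lv j = lv i)
        (fun j => (if h : lv j = lv i then G (lv i) ⟨i, rfl⟩ ⟨j, h⟩ else 0) • (x j : Fin m → L))]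
      have h2 : ∑ j : {j // ¬ lv j = lv i},
          (if h : lv (j : Fin n) = lv i then G (lv i) ⟨i, rfl⟩ ⟨j, h⟩ else 0) •
            (x j : Fin m → L) = 0 := by
        refine Finset.sum_eq_zero fun j _ => ?_
        rw [dif_neg j.2, zero_smul]
      rw [h2, add_zero]
      refine Finset.sum_congr rfl fun j _ => ?_
      rw [dif_pos j.2]
    rw [hc2 i, hcore, add_sub_cancel_left]
    exact hw0 i

end det

section main

variable {F : Type v} [Field F] [Fintype F] {k : Type u} [Field k] [Algebra F k] {n m : ℕ}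

/-- The main theorem. -/
theorem mainM (hm : 0 < m) (lv : Fin n → ℕ) (K : AddSubgroup (LI lv → ℤ))
    (hK : ∀ c : LI lv → ℤ, (Fintype.card F - 1) • c ∈ K)
    (P : Subgroup (Matrix.GeneralLinearGroup (Fin n) F))
    (hP : ∀ g : Matrix.GeneralLinearGroup (Fin n) F,
      g ∈ P ↔ CondK K (g : Matrix (Fin n) (Fin n) F))
    (W : Submodule F (Fin m → k)) [Finite W] :
    Pool.Agent.H920R2.HasResolution
      (X := Spec (CommRingCat.of (inva (affG (n := n) P W))))
      (Spec.map (CommRingCat.ofHom (algebraMap k (inva (affG (n := n) P W))))) := by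
  classical
  have hint := isIntegral_inva (affG (n := n) P W)
  have hWf : Module.Finite F W := Module.Finite.of_finite
  let bW := Module.finBasis F W
  let w := Module.finrank F W
  let z : Fin w → (⊤ : Submodule F (Fin m → LL k n m)) :=
    fun j => ⟨cst F k n m (bW j : Fin m → k), trivial⟩
  have hspan : Submodule.span F (Set.range fun j => (z j : Fin m → LL k n m)) =
      W.map (cst F k n m) := by
    have h1 : (Set.range fun j => (z j : Fin m → LL k n m)) =
        cst F k n m '' (W.subtype '' (Set.range bW)) := by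
      rw [← Set.range_comp, ← Set.range_comp]
      rfl
    rw [h1, Submodule.span_image, Submodule.span_image, bW.span_eq, Submodule.map_top,
      Submodule.range_subtype]
  have hzk : ∀ j l, (z j : Fin m → LL k n m) l ∈ (⊥ : Subalgebra k (LL k n m)) :=
    fun j l => Subalgebra.algebraMap_mem _ _
  have hzli : LinearIndependent F fun j => (z j : Fin m → LL k n m) := by
    have h1 : LinearIndependent F fun j => W.subtype (bW j) :=
      bW.linearIndependent.map' W.subtype (Submodule.ker_subtype W)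
    exact h1.map' (cst F k n m) (LinearMap.ker_eq_bot.2 cst_injective)
  obtain ⟨H, r, hH, S0⟩ := const_stage (F := F) (m := m) (emb k n m).range w z hzk hzli
  rw [hspan] at S0
  have hcard : w = Fintype.card (Fin w) := (Fintype.card_fin w).symm
  rw [hcard] at S0
  have hxz : LinearIndependent F (Sum.elim (fun i => (xr F k n m i : Fin m → LL k n m)) fun j =>
      (z j : Fin m → LL k n m)) := by
    rw [Fintype.linearIndependent_iff]
    intro b hb
    rw [Fintype.sum_sum_type] at hb
    have hb1 : ∀ i, b (Sum.inl i) = 0 := by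
      intro i
      have h1 : emb k n m (∑ i, algebraMap F k (b (Sum.inl i)) • MvPolynomial.X (i, ⟨0, hm⟩) +
          MvPolynomial.C (∑ j, b (Sum.inr j) • (bW j : Fin m → k) ⟨0, hm⟩)) = 0 := by
        have h2 := congrFun hb ⟨0, hm⟩
        rw [Pi.add_apply, Finset.sum_apply, Finset.sum_apply] at h2
        rw [map_add, map_sum, Pi.zero_apply] at *
        rw [← h2]
        congr 1
        · refine Finset.sum_congr rfl fun i _ => ?_
          rw [map_smul, algebraMap_smul]
          rfl
        · have h3 : emb k n m (MvPolynomial.C (∑ j, b (Sum.inr j) •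
              (bW j : Fin m → k) ⟨0, hm⟩)) = algebraMap k (LL k n m)
                (∑ j, b (Sum.inr j) • (bW j : Fin m → k) ⟨0, hm⟩) := (emb k n m).commutes _
          rw [h3, map_sum]
          refine Finset.sum_congr rfl fun j _ => ?_
          change algebraMap k (LL k n m) (b (Sum.inr j) • (bW j : Fin m → k) ⟨0, hm⟩) =
            b (Sum.inr j) • algebraMap k (LL k n m) ((bW j : Fin m → k) ⟨0, hm⟩)
          rw [Algebra.algebraMap_eq_smul_one, Algebra.algebraMap_eq_smul_one, smul_assoc]
      have h2 := (map_eq_zero_iff _ (emb_injective k n m)).1 h1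
      have h3 := congrArg (MvPolynomial.coeff (Finsupp.single (i, ⟨0, hm⟩) 1)) h2
      rw [MvPolynomial.coeff_add, MvPolynomial.coeff_sum, MvPolynomial.coeff_zero,
        Finset.sum_eq_single i, MvPolynomial.coeff_C, if_neg, add_zero] at h3
      · rw [MvPolynomial.coeff_smul, MvPolynomial.coeff_X, if_pos rfl, smul_eq_mul, mul_one] at h3
        exact (map_eq_zero_iff _ (algebraMap F k).injective).1 h3
      · intro h
        have h4 := congrArg (fun f => f (i, ⟨0, hm⟩)) h
        simp at h4
      · intro j _ hj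
        rw [MvPolynomial.coeff_smul, MvPolynomial.coeff_X, if_neg, smul_zero]
        intro h
        have h4 := Finsupp.single_left_injective (one_ne_zero) h
        exact hj (Prod.mk.inj h4).1
      · intro h
        exact absurd (Finset.mem_univ i) h
    have hb2 : ∀ j, b (Sum.inr j) = 0 := by
      apply Fintype.linearIndependent_iff.1 hzli fun j => b (Sum.inr j)
      rw [← hb]
      simp only [hb1, zero_smul, Finset.sum_const_zero, zero_add]
      rfl
    rintro (i | j)
    · exact hb1 i
    · exact hb2 j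
  refine specialM (F := F) (k := k) (L := LL k n m) (x := xr F k n m) (lv := lv)
    (g := (emb k n m).comp (inva (affG (n := n) P W)).val) (z := z)
    ((emb_injective k n m).comp Subtype.val_injective) (emb_range F k n m) hspan.symm
    S0 0 ?_ (fun _ _ _ _ _ => trivial) hxz
    ?_ (adjoin_top F k n m) (le_trdeg k n m) K hK
    {σ | ∃ τ ∈ affG (n := n) P W, σ = sg τ} ?_ ?_ ?_ ?_
  · intro _
    exact ⟨Empty, inferInstance, fun p => p.elim, rfl, by
      rw [Set.range_eq_empty, Algebra.adjoin_empty]⟩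
  · exact fun c => ⟨algebraMap F k c, (IsScalarTower.algebraMap_apply F k (LL k n m) c).symm⟩
  · rintro _ ⟨τ, ⟨g, hg, v, hv, hτ⟩, rfl⟩
    have h3 : CondK K (g : Matrix (Fin n) (Fin n) F) := (hP g).1 hg
    have h4 : (g : Matrix (Fin n) (Fin n) F).det ≠ 0 := g.det_ne_zero
    refine ⟨fun t => ⟨fun b hb => ?_, ?_⟩, qK_of_matrix (L := LL k n m) (x := xr F k n m) h3 h4
      (σ := sg τ) fun i => ?_⟩
    · obtain ⟨c, rfl⟩ := Algebra.mem_bot.1 hb
      exact sg_algebraMap _ c
    · obtain ⟨c, rfl⟩ := Algebra.mem_bot.1 hH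
      exact sg_algebraMap _ c
    · rw [sg_xr hτ i]
      exact ⟨v i, hv i, rfl⟩
  · rintro _ ⟨b, rfl⟩ h
    have h1 : b ∈ inva (affG (n := n) P W) := by
      intro τ hτ
      have h2 := h _ ⟨τ, hτ, rfl⟩
      change sg τ (emb k n m b) = emb k n m b at h2
      rw [sg_emb] at h2
      exact emb_injective k n m h2
    exact ⟨⟨b, h1⟩, rfl⟩
  · rintro σ ⟨-, hσ0⟩ hσ b
    obtain ⟨g, hdet, hg, hgσ⟩ := matrix_of_qK hσ
    choose v hv hvσ using hgσ
    let g' : Matrix.GeneralLinearGroup (Fin n) F := Matrix.GeneralLinearGroup.mkOfDetNeZero g hdet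
    obtain ⟨τ, hτ⟩ := exists_equiv g' v
    have hτmem : τ ∈ affG (n := n) P W := ⟨g', (hP g').2 hg, v, hv, hτ⟩
    refine ⟨⟨b.1, rfl⟩, ?_⟩
    change σ (emb k n m b.1) = emb k n m b.1
    rw [eq_aff_of (g := g) (v := v) (fun c => hσ0 _ (Subalgebra.algebraMap_mem _ c))
      (fun i => by rw [hvσ i, add_sub_cancel])]
    have h1 : aff g v b.1 = b.1 := by
      have h2 := b.2 τ hτmem
      have h3 : τ b.1 = aff g v b.1 := congrArg (fun f => f b.1) hτ
      rw [← h3]
      exact h2
    rw [h1]
  · rintro V hV _ ⟨b, rfl⟩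
    obtain ⟨P', hP', h1⟩ := Algebra.IsIntegral.isIntegral
      (R := inva (affG (n := n) P W)) b
    have h2 : IsIntegral V (emb k n m b) := by
      let f : inva (affG (n := n) P W) →+* V :=
        ((emb k n m).comp (inva (affG (n := n) P W)).val).toRingHom.codRestrict
          V.toSubring hV
      refine ⟨P'.map f, hP'.map f, ?_⟩
      rw [Polynomial.eval₂_map]
      have h3 : (algebraMap V (LL k n m)).comp f =
          (emb k n m).toRingHom.comp (algebraMap (inva (affG (n := n) P W)) _) :=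
        rfl
      change Polynomial.eval₂ ((algebraMap V (LL k n m)).comp f) ((emb k n m).toRingHom b) P' = 0
      rw [h3, ← Polynomial.hom_eval₂, h1, map_zero]
    obtain ⟨y, hy⟩ := IsIntegrallyClosed.isIntegral_iff.1 h2
    change emb k n m b ∈ V
    rw [← hy]
    exact y.2

end main

end Pool.Agent.R837.FD
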