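import Pool.Agent.R837.FD.MainM
import Pool.Agent.R837.FD.Elim
import Pool.Agent.R837.FD.Dual

/-!
The subgroups of `GL_n (F)` which contain the unitriangular matrices.
-/

set_option autoImplicit false
set_option linter.unusedSectionVars false

open Finset

universe u v w z

namespace Pool.Agent.R837.FD

open Matrix

section sandwich

variable {F : Type v} [Field F] {n : ℕ} {G : Subgroup (GeneralLinearGroup (Fin n) F)}

/-- The matrices of the elements of the group. -/
def GM (G : Subgroup (GeneralLinearGroup (Fin n) F)) : Submonoid (Matrix (Fin n) (Fin n) F) where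
  carrier := {M | ∃ g ∈ G, (g : Matrix (Fin n) (Fin n) F) = M}
  mul_mem' := by
    rintro _ _ ⟨g, hg, rfl⟩ ⟨h, hh, rfl⟩
    exact ⟨g * h, G.mul_mem hg hh, rfl⟩
  one_mem' := ⟨1, G.one_mem, rfl⟩

lemma GM_left {a b : Matrix (Fin n) (Fin n) F} (ha : a ∈ GM G) (hab : a * b ∈ GM G) :
    b ∈ GM G := by
  obtain ⟨g, hg, rfl⟩ := ha
  obtain ⟨h, hh, h1⟩ := hab
  refine ⟨g⁻¹ * h, G.mul_mem (G.inv_mem hg) hh, ?_⟩
  rw [Units.val_mul, h1, Units.inv_mul_cancel_left]

lemma GM_right {a b : Matrix (Fin n) (Fin n) F} (hb : b ∈ GM G) (hab : a * b ∈ GM G) :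
    a ∈ GM G := by
  obtain ⟨g, hg, rfl⟩ := hb
  obtain ⟨h, hh, h1⟩ := hab
  refine ⟨h * g⁻¹, G.mul_mem hh (G.inv_mem hg), ?_⟩
  rw [Units.val_mul, h1, Units.mul_inv_cancel_right]

lemma mem_of_GM {g : GeneralLinearGroup (Fin n) F}
    (h : (g : Matrix (Fin n) (Fin n) F) ∈ GM G) : g ∈ G := by
  obtain ⟨h, hh, h1⟩ := h
  have h2 : h = g := Units.ext h1
  rwa [← h2]

/-- The relation of the root subgroups. -/
def RG (G : Subgroup (GeneralLinearGroup (Fin n) F)) (i j : Fin n) : Prop :=
  i = j ∨ ∀ t : F, transvection i j t ∈ GM G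

lemma comm_tr {i j l : Fin n} (hij : i ≠ j) (hjl : j ≠ l) (hil : i ≠ l) (t : F) :
    transvection i j 1 * transvection j l t * (transvection i j (-1) * transvection j l (-t)) =
      transvection i l t := by
  have h0 : ∀ (a b : Fin n) (c : F), transvection a b (-c) = 1 - single a b c := by
    intro a b c
    unfold transvection
    rw [← single_neg]
    abel
  rw [h0, h0]
  unfold transvection
  set A := single i j (1 : F) with hA
  set B := single j l t with hB
  set C := single i l t with hC
  have hAA : A * A = 0 := single_mul_single_of_ne _ _ _ _ hij.symm _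
  have hBB : B * B = 0 := single_mul_single_of_ne _ _ _ _ hjl.symm _
  have hBA : B * A = 0 := single_mul_single_of_ne _ _ _ _ hil.symm _
  have hAC : A * C = 0 := single_mul_single_of_ne _ _ _ _ hij.symm _
  have hBC : B * C = 0 := single_mul_single_of_ne _ _ _ _ hil.symm _
  have hCA : C * A = 0 := single_mul_single_of_ne _ _ _ _ hil.symm _
  have hCB : C * B = 0 := single_mul_single_of_ne _ _ _ _ hjl.symm _
  have hCC : C * C = 0 := single_mul_single_of_ne _ _ _ _ hil.symm _
  have hAB : A * B = C := by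
    rw [hA, hB, single_mul_single_same, one_mul]
  have h1 : (1 + A) * (1 + B) = 1 + A + B + C := by
    rw [mul_add, add_mul, add_mul, mul_one, one_mul, mul_one, hAB]
    abel
  have h2 : (1 - A) * (1 - B) = 1 - A - B + C := by
    rw [mul_sub, sub_mul, sub_mul, mul_one, one_mul, mul_one, hAB]
    abel
  rw [h1, h2]
  have h3 : (1 + A + B + C) * (1 - A - B + C) =
      1 + C + (C - A * B) - A * A + A * C - B * A - B * B + B * C - C * A - C * B + C * C := by
    noncomm_ring
  rw [h3, hAA, hAB, hAC, hBA, hBB, hBC, hCA, hCB, hCC]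
  abel

lemma RG_refl (i : Fin n) : RG G i i := Or.inl rfl

lemma RG_trans {i j l : Fin n} (h1 : RG G i j) (h2 : RG G j l) : RG G i l := by
  rcases h1 with rfl | h1
  · exact h2
  rcases h2 with rfl | h2
  · exact Or.inr h1
  by_cases hil : i = l
  · exact Or.inl hil
  by_cases hij : i = j
  · subst hij
    exact Or.inr h2
  by_cases hjl : j = l
  · subst hjl
    exact Or.inr h1
  refine Or.inr fun t => ?_
  rw [← comm_tr hij hjl hil t]
  exact Submonoid.mul_mem _ (Submonoid.mul_mem _ (h1 _) (h2 _))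
    (Submonoid.mul_mem _ (h1 _) (h2 _))

lemma LU_tr {i j : Fin n} (hij : j < i) (t : F) : LU (transvection i j t) := by
  refine ⟨fun a b hab => ?_, fun a => ?_⟩
  · have h2 : ¬ (i = a ∧ j = b) := by
      rintro ⟨rfl, rfl⟩
      exact absurd hab (not_lt.2 hij.le)
    have h3 : a ≠ b := hab.ne
    simp [transvection, single_apply, h2, h3]
  · have h2 : ¬ (i = a ∧ j = a) := by
      rintro ⟨rfl, h⟩
      exact hij.ne h
    simp [transvection, single_apply, h2]

lemma GM_LU (hU : ∀ u : GeneralLinearGroup (Fin n) F, LU (u : Matrix (Fin n) (Fin n) F) → u ∈ G)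
    {u : Matrix (Fin n) (Fin n) F} (hu : LU u) : u ∈ GM G := by
  have h1 : u.det ≠ 0 := by
    rw [hu.det]
    exact one_ne_zero
  exact ⟨GeneralLinearGroup.mkOfDetNeZero u h1, hU _ hu, rfl⟩

lemma RG_lt (hU : ∀ u : GeneralLinearGroup (Fin n) F, LU (u : Matrix (Fin n) (Fin n) F) → u ∈ G)
    {i j : Fin n} (hij : j < i) : RG G i j :=
  Or.inr fun t => GM_LU hU (LU_tr hij t)

lemma RG_total (hU : ∀ u : GeneralLinearGroup (Fin n) F,
    LU (u : Matrix (Fin n) (Fin n) F) → u ∈ G) (i j : Fin n) : RG G i j ∨ RG G j i := by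
  rcases lt_trichotomy i j with h | h | h
  · exact Or.inr (RG_lt hU h)
  · exact Or.inl (Or.inl h)
  · exact Or.inl (RG_lt hU h)

open Classical in
/-- The levels of the group. -/
noncomputable def lvG (G : Subgroup (GeneralLinearGroup (Fin n) F)) (i : Fin n) : ℕ :=
  (Finset.univ.filter fun l => ¬ RG G l i).card

lemma lvG_le_iff (hU : ∀ u : GeneralLinearGroup (Fin n) F,
    LU (u : Matrix (Fin n) (Fin n) F) → u ∈ G) (i j : Fin n) : lvG G j ≤ lvG G i ↔ RG G i j := by
  classical
  constructor
  · intro h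
    by_contra hn
    have hji : RG G j i := (RG_total hU i j).resolve_left hn
    apply absurd h (not_le.2 _)
    unfold lvG
    apply Finset.card_lt_card
    rw [Finset.ssubset_iff_of_subset]
    · exact ⟨i, Finset.mem_filter.2 ⟨Finset.mem_univ _, hn⟩, fun h1 =>
        (Finset.mem_filter.1 h1).2 (RG_refl i)⟩
    · intro l hl
      refine Finset.mem_filter.2 ⟨Finset.mem_univ _, fun h1 => ?_⟩
      exact (Finset.mem_filter.1 hl).2 (RG_trans h1 hji)
  · intro h
    unfold lvG
    apply Finset.card_le_card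
    intro l hl
    refine Finset.mem_filter.2 ⟨Finset.mem_univ _, fun h1 => ?_⟩
    exact (Finset.mem_filter.1 hl).2 (RG_trans h1 h)

lemma lvG_mono (hU : ∀ u : GeneralLinearGroup (Fin n) F,
    LU (u : Matrix (Fin n) (Fin n) F) → u ∈ G) : Monotone (lvG G) := by
  intro i j hij
  rw [lvG_le_iff hU]
  rcases hij.lt_or_eq with h | h
  · exact RG_lt hU h
  · exact Or.inl h.symm

lemma RG_mono {w : Matrix (Fin n) (Fin n) F} {π : Equiv.Perm (Fin n)} {a : Fin n → F}
    (hw : Mono w π a) (hwG : w ∈ GM G) {i j : Fin n} (h : RG G (π i) (π j)) : RG G i j := by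
  rcases h with h | h
  · exact Or.inl (π.injective h)
  · by_cases hij : i = j
    · exact Or.inl hij
    refine Or.inr fun s => ?_
    have h1 : transvection i j s * w = w * transvection (π i) (π j) (s * a j / a i) := by
      ext x y
      by_cases hx : x = i
      · subst hx
        rw [transvection_mul_apply_same]
        by_cases hy : y = π j
        · subst hy
          rw [mul_transvection_apply_same, hw.eq j, hw.eq x (π x), if_pos rfl, if_pos rfl,
            div_mul_cancel₀ _ (hw.ne x)]
        · rw [mul_transvection_apply_of_ne _ _ _ _ hy, hw.eq j, if_neg hy, mul_zero, add_zero]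
      · rw [transvection_mul_apply_of_ne _ _ _ _ hx]
        by_cases hy : y = π j
        · subst hy
          have h2 : π i ≠ π x := fun h3 => hx (π.injective h3).symm
          rw [mul_transvection_apply_same, hw.eq x (π i), if_neg h2, mul_zero, add_zero]
        · rw [mul_transvection_apply_of_ne _ _ _ _ hy]
    refine GM_right hwG ?_
    rw [h1]
    exact Submonoid.mul_mem _ hwG (h _)

lemma PP_inv {lv : Fin n → ℕ} {M : Matrix (Fin n) (Fin n) F} (hM : PP lv M) (hdet : M.det ≠ 0) :
    PP lv M⁻¹ := by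
  have hi : Invertible M := Matrix.invertibleOfIsUnitDet M hdet.isUnit
  have h1 : BlockTriangular M fun i => OrderDual.toDual (lv i) := fun i j hij => hM i j hij
  have h2 := blockTriangular_inv_of_blockTriangular h1
  exact fun i j hij => h2 hij

/-- The elements of the group are block triangular. -/
lemma PP_G (hU : ∀ u : GeneralLinearGroup (Fin n) F,
    LU (u : Matrix (Fin n) (Fin n) F) → u ∈ G) {g : GeneralLinearGroup (Fin n) F} (hg : g ∈ G) :
    PP (lvG G) (g : Matrix (Fin n) (Fin n) F) := by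
  classical
  obtain ⟨u, u', π, a, hu, hu', hw⟩ := bruhat (g : Matrix (Fin n) (Fin n) F) g.det_ne_zero
  have hwG : u * (g : Matrix (Fin n) (Fin n) F) * u' ∈ GM G :=
    Submonoid.mul_mem _ (Submonoid.mul_mem _ (GM_LU hU hu) ⟨g, hg, rfl⟩) (GM_LU hU hu')
  have hπ : ∀ i, lvG G (π i) = lvG G i := by
    refine perm_eq' fun i => ?_
    unfold lvG
    refine Finset.card_le_card_of_injOn π (fun l hl => ?_) π.injective.injOn
    have h1 := (Finset.mem_filter.1 hl).2
    exact Finset.mem_coe.2 (Finset.mem_filter.2 ⟨Finset.mem_univ _, fun h2 =>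
      h1 (RG_mono hw hwG h2)⟩)
  have hPw : PP (lvG G) (u * (g : Matrix (Fin n) (Fin n) F) * u') := by
    intro i j hij
    rw [hw.eq, if_neg]
    rintro rfl
    rw [hπ] at hij
    exact lt_irrefl _ hij
  have hmono := lvG_mono hU
  have h1 : (g : Matrix (Fin n) (Fin n) F) =
      u⁻¹ * (u * (g : Matrix (Fin n) (Fin n) F) * u') * u'⁻¹ := by
    have h2 : IsUnit u.det := by rw [hu.det]; exact isUnit_one
    have h3 : IsUnit u'.det := by rw [hu'.det]; exact isUnit_one
    rw [mul_assoc u, ← mul_assoc u⁻¹, nonsing_inv_mul _ h2, one_mul,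
      mul_nonsing_inv_cancel_right _ _ h3]
  rw [h1]
  refine PP_mul (PP_mul (PP_inv (PP_LU hmono hu) ?_) hPw) (PP_inv (PP_LU hmono hu') ?_)
  · rw [hu.det]
    exact one_ne_zero
  · rw [hu'.det]
    exact one_ne_zero

lemma EE_le (hU : ∀ u : GeneralLinearGroup (Fin n) F,
    LU (u : Matrix (Fin n) (Fin n) F) → u ∈ G) : EE F (lvG G) ≤ GM G := by
  refine Submonoid.closure_le.2 ?_
  rintro e (he | ⟨i, j, t, hij, hl, rfl⟩)
  · exact GM_LU hU he
  · rcases (lvG_le_iff hU i j).1 hl with h | h
    · exact absurd h hij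
    · exact h t

/-- The membership depends only on the determinants of the blocks. -/
lemma mem_of_dets (hU : ∀ u : GeneralLinearGroup (Fin n) F,
    LU (u : Matrix (Fin n) (Fin n) F) → u ∈ G) {g g' : GeneralLinearGroup (Fin n) F}
    (hg' : g' ∈ G) (hg : PP (lvG G) (g : Matrix (Fin n) (Fin n) F))
    (h : ∀ b, ((g : Matrix (Fin n) (Fin n) F).toSquareBlock (lvG G) b).det =
      ((g' : Matrix (Fin n) (Fin n) F).toSquareBlock (lvG G) b).det) : g ∈ G := by
  classical
  have hex : ∀ i, ∃ j, lvG G j = lvG G i := fun i => ⟨i, rfl⟩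
  let rep : Fin n → Fin n := fun i => (hex i).choose
  have hr : ∀ i, lvG G (rep i) = lvG G i := fun i => (hex i).choose_spec
  have hrr : ∀ i j, lvG G i = lvG G j → rep i = rep j := by
    intro i j hij
    have h1 : (fun j' => lvG G j' = lvG G i) = fun j' => lvG G j' = lvG G j := by
      funext j'
      rw [hij]
    change (hex i).choose = (hex j).choose
    congr 1
  obtain ⟨e1, he1, e2, he2, h1⟩ := elim (F := F) (lvG_mono hU) hr hrr hg g.det_ne_zero
  obtain ⟨e3, he3, e4, he4, h2⟩ := elim (F := F) (lvG_mono hU) hr hrr (PP_G hU hg') g'.det_ne_zero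
  have h3 : e1 * (g : Matrix (Fin n) (Fin n) F) * e2 ∈ GM G := by
    have h4 : e1 * (g : Matrix (Fin n) (Fin n) F) * e2 =
        e3 * (g' : Matrix (Fin n) (Fin n) F) * e4 := by
      rw [h1, h2]
      congr 1
      funext i
      rw [h]
    rw [h4]
    exact Submonoid.mul_mem _ (Submonoid.mul_mem _ (EE_le hU he3) ⟨g', hg', rfl⟩) (EE_le hU he4)
  exact mem_of_GM (GM_left (EE_le hU he1) (GM_right (EE_le hU he2) h3))

/-- The subgroups of `GL_n (F)` which contain the unitriangular matrices. -/
theorem sandwich [Fintype F] (hU : ∀ u : GeneralLinearGroup (Fin n) F,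
    LU (u : Matrix (Fin n) (Fin n) F) → u ∈ G) :
    ∃ K : AddSubgroup (LI (lvG G) → ℤ), (∀ c, (Fintype.card F - 1) • c ∈ K) ∧
      ∀ g : GeneralLinearGroup (Fin n) F,
        g ∈ G ↔ CondK K (g : Matrix (Fin n) (Fin n) F) := by
  classical
  have hbn : ∀ g : GeneralLinearGroup (Fin n) F, PP (lvG G) (g : Matrix (Fin n) (Fin n) F) →
      ∀ b, ((g : Matrix (Fin n) (Fin n) F).toSquareBlock (lvG G) b).det ≠ 0 := fun g hg b =>
    block_ne hg g.det_ne_zero b
  let K : AddSubgroup (LI (lvG G) → ℤ) :=
    { carrier := {c | ∀ g ∈ G, ∏ b : LI (lvG G),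
        ((g : Matrix (Fin n) (Fin n) F).toSquareBlock (lvG G) b.1).det ^ c b = 1}
      add_mem' := by
        intro c c' hc hc' g hg
        have h1 : ∏ b : LI (lvG G),
            ((g : Matrix (Fin n) (Fin n) F).toSquareBlock (lvG G) b.1).det ^ (c + c') b =
            (∏ b : LI (lvG G),
              ((g : Matrix (Fin n) (Fin n) F).toSquareBlock (lvG G) b.1).det ^ c b) *
            ∏ b : LI (lvG G),
              ((g : Matrix (Fin n) (Fin n) F).toSquareBlock (lvG G) b.1).det ^ c' b := by
          rw [← Finset.prod_mul_distrib]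
          exact Finset.prod_congr rfl fun b _ => zpow_add₀ (hbn g (PP_G hU hg) b.1) _ _
        rw [h1, hc g hg, hc' g hg, one_mul]
      zero_mem' := fun g _ => Finset.prod_eq_one fun b _ => zpow_zero _
      neg_mem' := by
        intro c hc g hg
        have h1 : ∏ b : LI (lvG G),
            ((g : Matrix (Fin n) (Fin n) F).toSquareBlock (lvG G) b.1).det ^ (-c) b =
            (∏ b : LI (lvG G),
            ((g : Matrix (Fin n) (Fin n) F).toSquareBlock (lvG G) b.1).det ^ c b)⁻¹ := by
          rw [← Finset.prod_inv_distrib]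
          exact Finset.prod_congr rfl fun b _ => zpow_neg _ _
        rw [h1, hc g hg, inv_one] }
  refine ⟨K, fun c g hg => ?_, fun g => ⟨fun hg => ⟨PP_G hU hg, fun c hc => hc g hg⟩, ?_⟩⟩
  · refine Finset.prod_eq_one fun b _ => ?_
    change _ ^ ((Fintype.card F - 1) • c b) = 1
    rw [nsmul_eq_mul, _root_.zpow_mul, _root_.zpow_natCast,
      FiniteField.pow_card_sub_one_eq_one _ (hbn g (PP_G hU hg) b.1), _root_.one_zpow]
  · rintro ⟨hg1, hg2⟩
    let du : ∀ g : GeneralLinearGroup (Fin n) F, PP (lvG G) (g : Matrix (Fin n) (Fin n) F) →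
        LI (lvG G) → Fˣ := fun g hg b => Units.mk0 _ (hbn g hg b.1)
    let D : Subgroup (LI (lvG G) → Fˣ) :=
      { carrier := {d | ∃ g ∈ G, ∀ b, (d b : F) =
          ((g : Matrix (Fin n) (Fin n) F).toSquareBlock (lvG G) b.1).det}
        mul_mem' := by
          rintro d d' ⟨g, hg, h1⟩ ⟨g', hg', h2⟩
          refine ⟨g * g', G.mul_mem hg hg', fun b => ?_⟩
          rw [Pi.mul_apply, Units.val_mul, h1, h2, Units.val_mul,
            block_mul (PP_G hU hg) (PP_G hU hg'), det_mul]
        one_mem' := ⟨1, G.one_mem, fun b => by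
          have h1 := (EE_props (F := F) (lvG_mono hU) (Submonoid.one_mem _)).2 b.1
          rw [Pi.one_apply, Units.val_one, Units.val_one, h1]⟩
        inv_mem' := by
          rintro d ⟨g, hg, h1⟩
          refine ⟨g⁻¹, G.inv_mem hg, fun b => ?_⟩
          have h2 := block_mul (PP_G hU hg) (PP_G hU (G.inv_mem hg)) b.1
          rw [← Units.val_mul, mul_inv_cancel] at h2
          have h3 := congrArg Matrix.det h2
          rw [det_mul, Units.val_one,
            (EE_props (F := F) (lvG_mono hU) (Submonoid.one_mem _)).2 b.1, ← h1] at h3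
          rw [Pi.inv_apply, Units.val_inv_eq_inv_val]
          exact inv_eq_of_mul_eq_one_right h3.symm }
    have h1 : du g hg1 ∈ D := by
      refine dual D _ fun c hc => ?_
      have h2 : c ∈ K := by
        intro g' hg'
        have h3 := hc (du g' (PP_G hU hg')) ⟨g', hg', fun b => rfl⟩
        have h4 := congrArg (fun a : Fˣ => (a : F)) h3
        simp only [Units.coe_prod, Units.val_zpow_eq_zpow_val, Units.val_one] at h4
        exact h4
      apply Units.ext
      rw [Units.coe_prod, Units.val_one, ← hg2 c h2]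
      exact Finset.prod_congr rfl fun b _ => Units.val_zpow_eq_zpow_val _ _
    obtain ⟨g', hg', h2⟩ := h1
    refine mem_of_dets hU hg' hg1 fun b => ?_
    by_cases hb : b ∈ univ.image (lvG G)
    · exact h2 ⟨b, hb⟩
    · have : IsEmpty {i // lvG G i = b} :=
        ⟨fun i => hb (Finset.mem_image.2 ⟨i, Finset.mem_univ _, i.2⟩)⟩
      rw [det_isEmpty, det_isEmpty]

end sandwich

end Pool.Agent.R837.FD
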