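import Pool.Agent.R837.FD.LevB
import Pool.Agent.R837.FD.KumM3
import Pool.Agent.R837.FS.Main

/-!
The resolution with conditions on the determinants of the blocks.
-/

set_option autoImplicit false
set_option linter.unusedSectionVars false

open Finset AlgebraicGeometry CategoryTheory

universe u v w z

namespace Pool.Agent.R837.FD

open Pool.Agent.R837.FM Pool.Agent.R837.FS

lemma exists_gens {I : Type} [Fintype I] (K : AddSubgroup (I → ℤ)) :
    ∃ q : I → I → ℤ, K = AddSubgroup.closure (Set.range q) := by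
  classical
  let K' : Submodule ℤ (I → ℤ) := AddSubgroup.toIntSubmodule K
  let b := Module.finBasis ℤ K'
  have hr : Module.finrank ℤ K' ≤ Fintype.card I := by
    have h1 := Submodule.finrank_le K'
    rwa [Module.finrank_fintype_fun_eq_card] at h1
  let e := Fintype.equivFin I
  refine ⟨fun i => if h : (e i : ℕ) < Module.finrank ℤ K' then (b ⟨e i, h⟩ : I → ℤ) else 0, ?_⟩
  apply le_antisymm
  · intro c hc
    have h1 : (⟨c, hc⟩ : K') = ∑ j, b.repr ⟨c, hc⟩ j • b j := (b.sum_repr _).symm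
    have h2 : c = ∑ j, b.repr ⟨c, hc⟩ j • (b j : I → ℤ) := by
      have h3 : K'.subtype ⟨c, hc⟩ = K'.subtype (∑ j, b.repr ⟨c, hc⟩ j • b j) :=
        congrArg _ h1
      rw [map_sum] at h3
      refine h3.trans (Finset.sum_congr rfl fun j _ => ?_)
      rw [map_smul]
      rfl
    rw [h2]
    refine AddSubgroup.sum_mem _ fun j _ => AddSubgroup.zsmul_mem _
      (AddSubgroup.subset_closure ?_) _
    have hj : (j : ℕ) < Fintype.card I := lt_of_lt_of_le j.2 hr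
    refine ⟨e.symm ⟨j, hj⟩, ?_⟩
    have h3 : (e (e.symm ⟨j, hj⟩) : ℕ) = j := by rw [Equiv.apply_symm_apply]
    have h4 : (e (e.symm ⟨j, hj⟩) : ℕ) < Module.finrank ℤ K' := by
      rw [h3]
      exact j.2
    change (if h : (e (e.symm ⟨j, hj⟩) : ℕ) < Module.finrank ℤ K' then
      (b ⟨e (e.symm ⟨j, hj⟩), h⟩ : I → ℤ) else 0) = _
    rw [dif_pos h4]
    congr 2
    exact Fin.ext h3
  · rw [AddSubgroup.closure_le]
    rintro _ ⟨i, rfl⟩
    change (if h : (e i : ℕ) < Module.finrank ℤ K' then (b ⟨e i, h⟩ : I → ℤ) else 0) ∈ K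
    split_ifs with h
    · exact (b ⟨e i, h⟩).2
    · exact K.zero_mem

section res

variable {F : Type v} [Field F] [Fintype F] {k : Type u} [Field k] {L : Type u} [Field L]
  [Algebra F L] [Algebra k L] {m s n : ℕ} {X Λ0 : Submodule F (Fin m → L)}
  {x : Fin n → X} {lv : Fin n → ℕ}
  {A : Type u} [CommRing A] [IsDomain A] [Algebra k A] {g : A →ₐ[k] L}

/-- The set of the levels. -/
abbrev LI (lv : Fin n → ℕ) : Type := {b // b ∈ (Finset.univ : Finset (Fin n)).image lv}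

lemma LI_lt {lv : Fin n → ℕ} {a : ℕ} (ha : ∀ i, lv i < a) (b : LI lv) : b.1 < a := by
  obtain ⟨i, -, hi⟩ := Finset.mem_image.1 b.2
  rw [← hi]
  exact ha i

lemma nl_pos {lv : Fin n → ℕ} (b : LI lv) : 0 < nl lv b.1 := by
  obtain ⟨i, -, hi⟩ := Finset.mem_image.1 b.2
  exact Fintype.card_pos_iff.2 ⟨⟨i, hi⟩⟩

lemma mem_LI {lv : Fin n → ℕ} {b : ℕ} (h : 0 < nl lv b) :
    b ∈ (Finset.univ : Finset (Fin n)).image lv := by
  obtain ⟨i, hi⟩ := Fintype.card_pos_iff.1 h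
  exact Finset.mem_image.2 ⟨i, Finset.mem_univ i, hi⟩

/-- The condition on the endomorphisms. -/
def QK (K : AddSubgroup (LI lv → ℤ)) (Λ0 : Submodule F (Fin m → L)) (x : Fin n → X)
    (σ : L →+* L) : Prop :=
  ∃ g : ∀ b : ℕ, Matrix {i // lv i = b} {i // lv i = b} F, (∀ b, (g b).det ≠ 0) ∧
    (∀ b, ∀ i : {i // lv i = b}, (fun l => σ ((x i : Fin m → L) l)) -
      ∑ j : {i // lv i = b}, g b i j • (x j : Fin m → L) ∈ Lam Λ0 x lv b) ∧
    ∀ c ∈ K, ∏ b : LI lv, (g b.1).det ^ c b = 1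

/-- The resolution. -/
theorem specialM (hg : Function.Injective g)
    {B : Subalgebra k L} (hB : B = Algebra.adjoin k {a | ∃ i l, a = (x i : Fin m → L) l})
    {T0 : Type} [Finite T0] {R0 : T0 → Subalgebra k L} {H0 : T0 → L}
    {r0 : T0 → X →ₗ[F] (Fin s → L)} {J0 : Type} [Fintype J0] {z : J0 → X}
    (hz : Λ0 = Submodule.span F (Set.range fun j => (z j : Fin m → L)))
    (S0 : Stage F B X Λ0 (Fintype.card J0) R0 H0 r0) (g0 : ℕ)
    (hg0 : ∀ t, ∃ (P : Type) (_ : Fintype P) (w : P → L), Fintype.card P = g0 ∧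
      R0 t = Algebra.adjoin k (Set.range w))
    (hX0 : ∀ t (σ : L →+* L), (∀ b ∈ R0 t, σ b = b) → ∀ y ∈ X, (fun l => σ (y l)) ∈ X)
    (hx : LinearIndependent F (Sum.elim (fun i => (x i : Fin m → L)) fun j =>
      (z j : Fin m → L)))
    (hF : ∀ a : F, ∃ c : k, algebraMap k L c = algebraMap F L a)
    (hL : IntermediateField.adjoin k {a | ∃ i l, a = (x i : Fin m → L) l} = ⊤)
    (htr : ((g0 + s * n : ℕ) : Cardinal) ≤ Algebra.trdeg k L)
    (K : AddSubgroup (LI lv → ℤ)) (hK : ∀ c : LI lv → ℤ, (Fintype.card F - 1) • c ∈ K)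
    (𝒢 : Set (L →+* L))
    (h𝒢 : ∀ σ ∈ 𝒢, (∀ t, (∀ b ∈ R0 t, σ b = b) ∧ σ (H0 t) = H0 t) ∧ QK K Λ0 x σ)
    (hA1 : ∀ b ∈ B, (∀ σ ∈ 𝒢, σ b = b) → ∃ a, b = g a)
    (hA2 : ∀ σ : L →+* L, (∃ t0, ∀ b ∈ R0 t0, σ b = b) → QK K Λ0 x σ →
      ∀ a, g a ∈ B ∧ σ (g a) = g a)
    (hA3 : ∀ V : ValuationSubring L, (∀ a, g a ∈ V) → ∀ b ∈ B, b ∈ V) :
    Pool.Agent.H920R2.HasResolution (X := Spec (CommRingCat.of A))
      (Spec.map (CommRingCat.ofHom (algebraMap k A))) := by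
  classical
  obtain ⟨a, ha⟩ : ∃ a, ∀ i, lv i < a :=
    ⟨Finset.univ.sup lv + 1, fun i => Nat.lt_succ_of_le (Finset.le_sup (Finset.mem_univ i))⟩
  have hxB : ∀ i l, (x i : Fin m → L) l ∈ B := by
    intro i l
    rw [hB]
    exact Algebra.subset_adjoin ⟨i, l, rfl⟩
  obtain ⟨T, hT, R, H, r, Y, Z, hLB⟩ := levelsB (lv := lv) hz S0 g0 hg0 hX0 hx hxB a
  have S := hLB.S
  have hq0 := card_sub_pos F
  obtain ⟨q, hq⟩ := exists_gens K
  have hcard : Fintype.card {i // lv i < a} = n := by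
    rw [Fintype.card_congr (Equiv.subtypeUnivEquiv fun i => ha i), Fintype.card_fin]
  -- the charts
  let x' : Fin n ⊕ J0 → X := Sum.elim x z
  have hker : ∀ i, (x i : Fin m → L) ∈ Lam Λ0 x lv a := fun i =>
    Submodule.mem_sup_right (Submodule.subset_span ⟨i, ha i, rfl⟩)
  have hr : ∀ t i, r t (x' i) = 0 := by
    rintro t (i | j)
    · rw [S.ker]
      exact hker i
    · rw [S.ker]
      refine Submodule.mem_sup_left ?_
      rw [hz]
      exact Submodule.subset_span ⟨j, rfl⟩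
  have hx' : LinearIndependent F fun i => (x' i : Fin m → L) := by
    have h1 : (fun i => (x' i : Fin m → L)) = Sum.elim (fun i => (x i : Fin m → L)) fun j =>
        (z j : Fin m → L) := by
      funext i
      rcases i with i | j <;> rfl
    rw [h1]
    exact hx
  have hch : ∀ t (Q : Subalgebra k L), R t ≤ Q →
      Algebra.IsAlgebraic Q L ∧
      ∀ b, (∀ V : ValuationSubring L, (∀ a ∈ Q, a ∈ V) →
        (∀ i l, (x' i : Fin m → L) l ∈ V) → b ∈ V) →
        (∀ σ : L →+* L, (∀ a ∈ Q, σ a = a) → σ b = b) →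
        IsIntegral Q b ∧ ∃ x ∈ Q, ∃ y ∈ Q, y ≠ 0 ∧ b * y = x := by
    intro t Q hQ
    refine chart_int (F := F) (r := r t) x' (hr t) ?_
      (fun V hV => S.int t V fun a ha => hV a (hQ ha)) hx' hF ?_
    · obtain ⟨P, hP, base, h1, h2⟩ := S.dim t
      refine ⟨P, hP, base, ?_, ?_⟩
      · rw [h1, hcard, Fintype.card_sum, Fintype.card_fin, add_comm]
      · refine spn_le_spn le_rfl fun f hf => ?_
        exact spn_mono hQ (le_refl _) (h2 (subset_spn hf))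
    · rw [eq_top_iff, ← hL]
      refine IntermediateField.adjoin.mono k _ _ ?_
      rintro _ ⟨i, l, rfl⟩
      exact Or.inr ⟨Sum.inl i, l, rfl⟩
  -- the group
  choose! gm hgm0 hgm1 hgm2 using fun σ (hσ : σ ∈ 𝒢) => (h𝒢 σ hσ).2
  have hfix : ∀ σ ∈ 𝒢, ∀ t, (∀ b ∈ R t, σ b = b) ∧ σ (H t) = H t ∧
      ∀ b < a, σ (Z t b) = algebraMap F L (gm σ b).det * Z t b := fun σ hσ =>
    hLB.fix σ (h𝒢 σ hσ).1 (gm σ) fun b _ => ⟨hgm0 σ hσ b, hgm1 σ hσ b⟩
  let χ : (L →+* L) → (LI lv → ℤ) → L := fun σ c =>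
    ∏ b : LI lv, (algebraMap F L (gm σ b.1).det) ^ c b
  have hdet : ∀ σ ∈ 𝒢, ∀ b, algebraMap F L (gm σ b).det ≠ 0 := fun σ hσ b =>
    (map_ne_zero (algebraMap F L)).2 (hgm0 σ hσ b)
  have hχ0 : ∀ σ, χ σ 0 = 1 := fun σ => Finset.prod_eq_one fun b _ => zpow_zero _
  have hχK : ∀ σ ∈ 𝒢, ∀ c ∈ K, χ σ c = 1 := by
    intro σ hσ c hc
    have h1 := congrArg (algebraMap F L) (hgm2 σ hσ c hc)
    rw [map_prod, map_one] at h1
    rw [← h1]
    exact Finset.prod_congr rfl fun b _ => (map_zpow₀ _ _ _).symm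
  have hχa : ∀ σ ∈ 𝒢, ∀ c c', χ σ (c + c') = χ σ c * χ σ c' := by
    intro σ hσ c c'
    change ∏ b : LI lv, _ = (∏ b : LI lv, _) * ∏ b : LI lv, _
    rw [← Finset.prod_mul_distrib]
    exact Finset.prod_congr rfl fun b _ => zpow_add₀ (hdet σ hσ b.1) _ _
  have hχs : ∀ σ (b : LI lv) (e : ℤ), χ σ (Pi.single b e) =
      (algebraMap F L (gm σ b.1).det) ^ e := by
    intro σ b e
    change ∏ b' : LI lv, _ = _
    rw [Finset.prod_eq_single b]
    · rw [Pi.single_eq_same]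
    · intro b' _ hb'
      rw [Pi.single_eq_of_ne hb', zpow_zero]
    · intro h
      exact absurd (Finset.mem_univ b) h
  let D : T → (LI lv → ℤ) → Submodule k L := fun t c =>
    { carrier := {x | x ∈ Loc B (H t) ∧ ∀ σ ∈ 𝒢, σ x = χ σ c * x}
      add_mem' := by
        rintro x y ⟨hx1, hx2⟩ ⟨hy1, hy2⟩
        exact ⟨Subalgebra.add_mem _ hx1 hy1, fun σ hσ => by
          rw [map_add, hx2 σ hσ, hy2 σ hσ, mul_add]⟩
      zero_mem' := ⟨Subalgebra.zero_mem _, fun σ _ => by rw [map_zero, mul_zero]⟩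
      smul_mem' := fun e x hx => ⟨Subalgebra.smul_mem _ hx.1 e, fun σ hσ => by
        rw [Algebra.smul_def, map_mul, (hfix σ hσ t).1 _ (Subalgebra.algebraMap_mem _ e),
          hx.2 σ hσ, mul_left_comm]⟩ }
  -- the algebras `Q t`
  let Q : T → Subalgebra k L := fun t => Algebra.adjoin k ((R t : Set L) ∪
    {e | ∃ c ∈ K, (∀ b, 0 ≤ c b) ∧ e = ∏ b : LI lv, Z t b.1 ^ c b})
  have hRQ : ∀ t, R t ≤ Q t := fun t b hb => Algebra.subset_adjoin (Or.inl hb)
  have hσQ : ∀ t (σ : L →+* L), (∀ b ∈ Q t, σ b = b) → ∀ b, g b ∈ B ∧ σ (g b) = g b := by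
    intro t σ hσ
    obtain ⟨h1, h2⟩ := hLB.conv t σ fun b hb => hσ b (hRQ t hb)
    refine hA2 σ h1 ?_
    have h3 : ∀ b : ℕ, ∃ g : Matrix {i // lv i = b} {i // lv i = b} F, g.det ≠ 0 ∧
        (∀ i : {i // lv i = b}, (fun l => σ ((x i : Fin m → L) l)) -
          ∑ j : {i // lv i = b}, g i j • (x j : Fin m → L) ∈ Lam Λ0 x lv b) ∧
        (b < a → σ (Z t b) = algebraMap F L g.det * Z t b) := by
      intro b
      by_cases hb : b < a
      · obtain ⟨g, hg0, hg1, hg2⟩ := h2 b hb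
        exact ⟨g, hg0, hg1, fun _ => hg2⟩
      · refine ⟨1, by rw [Matrix.det_one]; exact one_ne_zero, fun i => ?_,
          fun h => absurd h hb⟩
        have h4 := ha i
        have h5 := i.2
        omega
    choose G hG0 hG1 hG2 using h3
    refine ⟨G, hG0, hG1, ?_⟩
    have h4 : ∀ c ∈ K, (∀ b, 0 ≤ c b) → ∏ b : LI lv, (G b.1).det ^ c b = 1 := by
      intro c hc hc0
      have h5 := hσ _ (Algebra.subset_adjoin (Or.inr ⟨c, hc, hc0, rfl⟩))
      rw [map_prod] at h5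
      have h6 : ∏ b : LI lv, σ (Z t b.1 ^ c b) =
          algebraMap F L (∏ b : LI lv, (G b.1).det ^ c b) * ∏ b : LI lv, Z t b.1 ^ c b := by
        rw [map_prod, ← Finset.prod_mul_distrib]
        refine Finset.prod_congr rfl fun b _ => ?_
        rw [map_zpow₀, hG2 b.1 (LI_lt ha b), mul_zpow, map_zpow₀]
      rw [h6] at h5
      have h7 : ∏ b : LI lv, Z t b.1 ^ c b ≠ 0 :=
        Finset.prod_ne_zero_iff.2 fun b _ => zpow_ne_zero _ (hLB.Z0 t b.1)
      have h8 := mul_right_cancel₀ h7 (h5.trans (one_mul _).symm)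
      exact (map_eq_one_iff _ (algebraMap F L).injective).1 h8
    intro c hc
    have h5 := h4 (c + (Fintype.card F - 1) • fun b => |c b|) (K.add_mem hc (hK _)) (by
      intro b
      have h6 : -|c b| ≤ c b := neg_abs_le _
      have h7 : 0 ≤ |c b| := abs_nonneg _
      change 0 ≤ c b + (Fintype.card F - 1) • |c b|
      rw [nsmul_eq_mul]
      have h8 : (1 : ℤ) ≤ ((Fintype.card F - 1 : ℕ) : ℤ) := by exact_mod_cast hq0
      nlinarith)
    rw [← h5]
    refine Finset.prod_congr rfl fun b _ => ?_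
    change _ = (G b.1).det ^ (c b + (Fintype.card F - 1) • |c b|)
    rw [zpow_add₀ (hG0 b.1), nsmul_eq_mul, zpow_mul, zpow_natCast,
      FiniteField.pow_card_sub_one_eq_one _ (hG0 b.1), one_zpow, mul_one]
  refine kummerM hg (I := LI lv) (nn := fun b => nl lv b.1) hq0 K hK q hq (T := T) (C := R)
    (H := H) (y := fun t j => Y t j.1.1 j.2) (z := fun t b => Z t b.1)
    (fun t => S.H0 t) ?_ S.rt S.gl D ?_ ?_ ?_ ?_ (fun t j => hLB.Y0 t _ _)
    (fun t b => hLB.Z0 t _) (fun t j => hLB.YR t _ _) ?_ (fun t t' j => hLB.y1 t t' _ _)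
    (fun t t' j => hLB.y2 t t' _ _) (fun t t' b => hLB.z1 t t' _)
    (fun t t' b => hLB.z2 t t' _) ?_ ?_ ?_ ?_ ?_ (fun t => (hch t _ le_rfl).1) Q ?_ ?_
  · intro t
    exact hA1 _ (S.HB t) fun σ hσ => (hfix σ hσ t).2.1
  · intro t c hc
    exact ⟨Subalgebra.one_mem _, fun σ hσ => by rw [map_one, hχK σ hσ c hc, one_mul]⟩
  · rintro t c c' e e' ⟨h1, h2⟩ ⟨h3, h4⟩
    exact ⟨Subalgebra.mul_mem _ h1 h3, fun σ hσ => by
      rw [map_mul, h2 σ hσ, h4 σ hσ, hχa σ hσ]; ring⟩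
  · rintro t e ⟨h1, h2⟩
    obtain ⟨n', hn⟩ := exists_pow_mul (S.HB t) (S.H0 t) h1
    obtain ⟨a', ha'⟩ := hA1 _ hn fun σ hσ => by
      rw [map_mul, map_pow, h2 σ hσ, (hfix σ hσ t).2.1, hχ0, one_mul]
    exact ⟨n', a', ha'⟩
  · intro V hV
    exact S.cv V (hA3 V hV)
  · intro t
    choose ε hε h1 using fun b : LI lv => hLB.hz t b.1 (LI_lt ha b)
    exact ⟨ε, hε, h1⟩
  · intro t e he
    exact ⟨S.dn t he, fun σ hσ => by rw [(hfix σ hσ t).1 e he, hχ0, one_mul]⟩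
  · intro t j
    exact ⟨hLB.YB t _ _, fun σ hσ => by
      rw [map_inv₀, (hfix σ hσ t).1 _ (hLB.YR t _ _), hχ0, one_mul]⟩
  · intro t b
    refine ⟨hLB.ZB t _, fun σ hσ => ?_⟩
    have h1 : (-Pi.single b 1 : LI lv → ℤ) = Pi.single b (-1) := (Pi.single_neg b 1).symm
    rw [map_inv₀, (hfix σ hσ t).2.2 b.1 (LI_lt ha b), h1, hχs, mul_inv, zpow_neg_one]
  · intro t b
    refine ⟨hLB.ZB' t _, fun σ hσ => ?_⟩
    rw [(hfix σ hσ t).2.2 b.1 (LI_lt ha b), hχs, zpow_one]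
  · intro t
    obtain ⟨u, P, hP, w, h1, h2, h3, h4⟩ := hLB.gen t
    refine ⟨fun b => u b.1, fun b => h1 b.1 (LI_lt ha b) (nl_pos b), P, hP, w, ?_, ?_, ?_⟩
    · rw [h2]
      congr 2
      ext c
      constructor
      · rintro ⟨b, hb, j, hj, rfl⟩
        exact ⟨⟨⟨b, mem_LI (by omega)⟩, ⟨j, hj⟩⟩, rfl⟩
      · rintro ⟨j, rfl⟩
        exact ⟨j.1.1, LI_lt ha j.1, j.2, j.2.2, rfl⟩
    · intro j hj
      exact h3 j.1.1 (LI_lt ha j.1) j.2 hj
    · refine le_trans (le_of_eq ?_) htr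
      congr 1
      have h5 : ∑ b : LI lv, (nl lv b.1 - u b.1) = ∑ b ∈ range a, (nl lv b - u b) := by
        rw [Finset.sum_coe_sort (univ.image lv) fun b => nl lv b - u b]
        refine Finset.sum_subset (fun b hb => ?_) fun b _ hb => ?_
        · exact Finset.mem_range.2 (LI_lt ha ⟨b, hb⟩)
        · have h6 : ¬ 0 < nl lv b := fun h => hb (mem_LI h)
          omega
      rw [h5, h4, hcard]
  · intro t Q' h1 h2
    rw [Algebra.adjoin_le_iff]
    rintro e (he | ⟨c, hc, hc0, rfl⟩)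
    · exact h1 he
    · exact h2 c hc hc0
  · intro t b
    refine (hch t (Q t) (hRQ t)).2 (g b) (fun V hV hxV => ?_) fun σ hσ => (hσQ t σ hσ b).2
    have hk : ∀ c : k, algebraMap k L c ∈ V := fun c => hV _ (Subalgebra.algebraMap_mem _ c)
    have h1 : B ≤ valAlg V hk := by
      rw [hB]
      refine Algebra.adjoin_le_iff.2 ?_
      rintro _ ⟨i, l, rfl⟩
      exact hxV (Sum.inl i) l
    exact h1 (hσQ t (RingHom.id L) (fun a _ => rfl) b).1

end res

end Pool.Agent.R837.FD
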