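import Pool.Agent.R837.FS.Spec2
import Pool.Agent.R837.FD.Stp2

/-!
The step of the construction of the charts with a blow-up of the ideals of minors.
-/

set_option autoImplicit false
set_option linter.unusedSectionVars false

open Finset

universe u v w z

namespace Pool.Agent.R837.FD

open Pool.Agent.R837.FM Pool.Agent.R837.FS

section stepB

variable {F : Type v} [Field F] [Fintype F] {k : Type u} [Field k] {L : Type u} [Field L]
  [Algebra F L] [Algebra k L] {m s : ℕ} {B : Subalgebra k L} {X Λ : Submodule F (Fin m → L)}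
  {N0 : ℕ} {T : Type} [Finite T] {R : T → Subalgebra k L} {H : T → L}
  {r : T → X →ₗ[F] (Fin s → L)} {ι : Type} [Fintype ι] [DecidableEq ι]

/-- The good charts of the blow-up. -/
def GB (R0 C : Subalgebra k L) (s : ℕ) {n : ℕ} (y : Fin n → L) : Prop :=
  ∃ (u : ℕ) (_ : u < n) (P : Type) (_ : Fintype P) (w : P → L),
    C = R0 ⊔ Algebra.adjoin k (Set.range w ∪ Set.range y) ∧
    (∀ j : Fin n, (j : ℕ) < u → y j = 1) ∧ Fintype.card P + (n - u) = s * n

/-- The charts of the blow-up cover. -/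
theorem coverB {x : ι → X} (hι : 0 < Fintype.card ι) (τ : TT r x)
    (V : ValuationSubring L) (hV : ∀ a ∈ RR R (Fintype.card F - 1) τ, a ∈ V) :
    ∃ χ : BT (ff x), χ.1.1 = τ ∧
      GB (R τ.1.1) (BC (ff x) (fun τ => RR R (Fintype.card F - 1) τ) χ) s
        (fun j : Fin (Fintype.card ι) => yD (DF (BD (ff x) χ)) j) ∧
      (∀ j : Fin (Fintype.card ι), yD (DF (BD (ff x) χ)) j ∈
        BC (ff x) (fun τ => RR R (Fintype.card F - 1) τ) χ) ∧
      ∀ a ∈ BC (ff x) (fun τ => RR R (Fintype.card F - 1) τ) χ, a ∈ V := by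
  classical
  have hk : ∀ c : k, algebraMap k L c ∈ V := fun c => hV _ (Subalgebra.algebraMap_mem _ c)
  set h := τ.2 with hh
  have hcR : ∀ l p, h.c l p ∈ RR R (Fintype.card F - 1) τ := fun l p => h.c_mem l p
  have hdet : (Matrix.of fun (l' l : SS fun l => (τ.1.2 l : ℕ)) =>
      h.c l.1 (rowf _ (Sum.inr l'))).det ≠ 0 := by
    intro h0
    have h1 := congrArg Matrix.det (Ph_block h)
    rw [Matrix.det_fromBlocks_zero₂₁, h0, mul_zero] at h1
    have h2 : IsUnit (Ph h) := by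
      rw [Matrix.isUnit_iff_isUnit_det, Ph_det]
      exact (pow_ne_zero _ h.Δ_ne).isUnit
    have h3 := (Matrix.isUnit_submatrix_equiv
      ((Equiv.ofBijective _ (rowf_bij _)).trans h.e.symm)
      ((Equiv.ofBijective _ (colf_bij _)).trans h.e.symm)).2 h2
    rw [Matrix.isUnit_iff_isUnit_det, h1] at h3
    exact not_isUnit_zero h3
  obtain ⟨dd, P1, hP1, gs, hc1, hc2, hch⟩ := block_chart (k := k)
    ((Equiv.ofBijective _ (rowf_bij _)).trans h.e.symm)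
    ((Equiv.ofBijective _ (colf_bij _)).trans h.e.symm) (Ph h) _ _ (Ph_block h) V
    (fun i j => hV _ (hcR _ _)) hdet
  choose F1 G1 hFG using fun c : Fin (Fintype.card ι) => hch.mi (c + 1) c.2
  have hne : ∀ c, ff x τ c (F1 c, G1 c) ≠ 0 := by
    intro c
    have h1 : ff x τ c (F1 c, G1 c) = DD dd (c + 1) := hFG c
    rw [h1]
    exact DD_ne hch.d0 _
  let χ : BT (ff x) := ⟨(τ, fun c => (F1 c, G1 c)), hne⟩
  have hBD : ∀ c : Fin (Fintype.card ι), BD (ff x) χ c = DD dd (c + 1) := fun c => hFG c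
  have hDF : ∀ c ≤ Fintype.card ι, DF (BD (ff x) χ) c = DD dd c := by
    intro c hc
    rcases c with _ | c
    · rfl
    · exact (DF_succ (BD (ff x) χ) ⟨c, hc⟩).trans (hBD ⟨c, hc⟩)
  have hy : ∀ j : Fin (Fintype.card ι), yD (DF (BD (ff x) χ)) j = dd j := fun j =>
    (yD_congr hDF j.2).trans (yD_DD hch.d0 j)
  have hle : RR R (Fintype.card F - 1) τ ≤
      BC (ff x) (fun τ => RR R (Fintype.card F - 1) τ) χ := le_BC (ff x) χ
  obtain ⟨hdQ, hgQ⟩ := hch.conv (BC (ff x) (fun τ => RR R (Fintype.card F - 1) τ) χ)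
    (fun i j => hle (Ph_ent h hcR i j)) (by
      intro c hc F2 G2
      have h1 := ratio_mem_BC (C := fun τ => RR R (Fintype.card F - 1) τ) (ff x) χ ⟨c, hc⟩
        (F2, G2)
      rw [hBD] at h1
      exact h1)
  -- the generators
  let W : VV (fun l => (τ.1.2 l : ℕ)) ⊕ P1 → L :=
    Sum.elim (fun q => h.c q.1.1 q.1.2) gs
  let y : Fin (Fintype.card ι) → L := fun j => yD (DF (BD (ff x) χ)) j
  let Qa : Subalgebra k L := R τ.1.1 ⊔ Algebra.adjoin k (Set.range W ∪ Set.range y)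
  have hRQ : R τ.1.1 ≤ Qa := le_sup_left
  have hWQ : ∀ p, W p ∈ Qa := fun p =>
    (le_sup_right : Algebra.adjoin k (Set.range W ∪ Set.range y) ≤ Qa)
      (Algebra.subset_adjoin (Or.inl ⟨p, rfl⟩))
  have hyQ : ∀ j, y j ∈ Qa := fun j =>
    (le_sup_right : Algebra.adjoin k (Set.range W ∪ Set.range y) ≤ Qa)
      (Algebra.subset_adjoin (Or.inr ⟨j, rfl⟩))
  have hddQ : ∀ i < Fintype.card ι, dd i ∈ Qa := by
    intro i hi
    have h1 := hyQ ⟨i, hi⟩
    have h2 : y ⟨i, hi⟩ = dd i := hy ⟨i, hi⟩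
    rwa [h2] at h1
  have hdlQ : ∀ i < Fintype.card ι, dl dd i ∈ Qa := by
    intro i hi
    exact Qa.prod_mem fun j hj => hddQ j (by have := Finset.mem_range.1 hj; omega)
  have hdom : Dom Qa (Matrix.diagonal fun i : Fin (Fintype.card ι) => dl dd i) (Ph h) := by
    refine hch.dom Qa ?_ fun p => hWQ (Sum.inr p)
    rintro _ ⟨p, l, rfl⟩
    refine hWQ (Sum.inl ⟨(l.1, rowf _ (Sum.inl p)), ?_⟩)
    rintro ⟨-, h1⟩
    exact Nat.succ_ne_zero _ h1
  have hPhQ : Ent Qa (Ph h) := by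
    refine hdom.ent ?_
    intro i j
    rw [Matrix.diagonal_apply]
    split_ifs
    · exact hdlQ i i.2
    · exact Qa.zero_mem
  have hcQ : ∀ l p, h.c l p ∈ Qa := by
    intro l p
    by_cases hq : 0 < (τ.1.2 l : ℕ) ∧ (p.2 : ℕ) = 0
    · obtain ⟨hq1, hq2⟩ := hq
      let l1 : SS fun l => (τ.1.2 l : ℕ) := ⟨l, hq1⟩
      let l2 : SS fun l => (τ.1.2 l : ℕ) := ⟨p.1, by have := p.2.2; omega⟩
      have h1 := hPhQ (((Equiv.ofBijective _ (rowf_bij _)).trans h.e.symm) (Sum.inr l2))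
        (((Equiv.ofBijective _ (colf_bij _)).trans h.e.symm) (Sum.inr l1))
      have h2 := congrFun (congrFun (Ph_block h) (Sum.inr l2)) (Sum.inr l1)
      rw [Matrix.submatrix_apply] at h2
      rw [h2] at h1
      have h3 : rowf (fun l => (τ.1.2 l : ℕ)) (Sum.inr l2) = p := idx_ext rfl hq2.symm
      have h4 : h.c l (rowf (fun l => (τ.1.2 l : ℕ)) (Sum.inr l2)) ∈ Qa := h1
      rwa [h3] at h4
    · exact hWQ (Sum.inl ⟨(l, p), hq⟩)
  have heq : BC (ff x) (fun τ => RR R (Fintype.card F - 1) τ) χ = Qa := by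
    apply le_antisymm
    · refine BC_le (ff x) (h.alg_le hRQ (Δ_pow_mem h hcQ) hcQ) ?_
      rintro c ⟨F2, G2⟩
      obtain ⟨b, hb, h1⟩ := minor_of_dom hddQ hdom F2 G2
      have h2 : ff x χ.1.1 c (F2, G2) / BD (ff x) χ c = b := by
        rw [hBD]
        change ((Ph h).submatrix F2 G2).det / _ = _
        rw [h1, mul_div_cancel_left₀ _ (DD_ne hch.d0 _)]
      rw [h2]
      exact hb
    · refine sup_le (h.le_alg.trans hle) ?_
      rw [Algebra.adjoin_le_iff]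
      rintro _ (⟨q | p, rfl⟩ | ⟨j, rfl⟩)
      · exact hle (hcR _ _)
      · exact hgQ p
      · change yD (DF (BD (ff x) χ)) j ∈ _
        rw [hy]
        exact hdQ _
  have hUS := card_US h
  have hSp := card_S_pos h hι
  refine ⟨χ, rfl, ⟨Fintype.card (UU fun l => (τ.1.2 l : ℕ)), by omega,
    VV (fun l => (τ.1.2 l : ℕ)) ⊕ P1, inferInstance, W, heq, ?_, ?_⟩, ?_, ?_⟩
  · intro j hj
    change yD (DF (BD (ff x) χ)) j = 1
    rw [hy]
    exact hch.d1 j hj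
  · have h1 := card_VV (fun l => (τ.1.2 l : ℕ))
    have h2 : Fintype.card (Idx fun l => (τ.1.2 l : ℕ)) = Fintype.card ι := h.card.symm
    rw [h2] at h1
    rw [Fintype.card_sum]
    omega
  · intro j
    rw [hy]
    exact hdQ _
  · have h1 : Qa ≤ valAlg V hk := by
      refine sup_le (fun a ha => hV _ (h.le_alg ha)) ?_
      rw [Algebra.adjoin_le_iff]
      rintro _ (⟨q | p, rfl⟩ | ⟨j, rfl⟩)
      · exact hV _ (hcR _ _)
      · exact hch.gV p
      · change yD (DF (BD (ff x) χ)) j ∈ V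
        rw [hy]
        exact hch.dV _
    intro a ha
    rw [heq] at ha
    exact h1 ha

/-- The step with a blow-up of the ideals of minors. -/
theorem stepB (S : Stage F B X Λ N0 R H r) (x : ι → X) (hxB : ∀ i l, (x i : Fin m → L) l ∈ B)
    (hind : ∀ a : ι → F, ((∑ i, a i • x i : X) : Fin m → L) ∈ Λ → a = 0)
    (hι : 0 < Fintype.card ι) :
    ∃ (T' : Type) (_ : Finite T') (f : T' → T) (R' : T' → Subalgebra k L) (H' : T' → L)
      (r' : T' → X →ₗ[F] (Fin s → L)) (y : T' → Fin (Fintype.card ι) → L) (Δ : T' → L),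
      Stage F B X (Λ ⊔ Submodule.span F (Set.range fun i => (x i : Fin m → L)))
        (N0 + Fintype.card ι) R' H' r' ∧
      (∀ t, R (f t) ≤ R' t) ∧
      (∀ t t', Loc (R (f t)) (H (f t') / H (f t)) ≤ Loc (R' t) (H' t' / H' t)) ∧
      (∀ t, Loc B (H (f t)) ≤ Loc B (H' t)) ∧
      (∀ t j, y t j ≠ 0) ∧ (∀ t j, y t j ∈ R' t) ∧ (∀ t, Δ t ≠ 0) ∧
      (∀ t, ∃ ε : k, ε ≠ 0 ∧ Δ t ^ (Fintype.card F - 1) = algebraMap k L ε *
        ∏ j : Fin (Fintype.card ι), y t j ^ (Fintype.card ι - j : ℕ)) ∧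
      (∀ t t' j, y t' j / y t j ∈ Loc (R' t) (H' t' / H' t)) ∧
      (∀ t t' j, y t j / y t' j ∈ Loc (R' t) (H' t' / H' t)) ∧
      (∀ t t', Δ t' / Δ t ∈ Loc (R' t) (H' t' / H' t)) ∧
      (∀ t t', Δ t / Δ t' ∈ Loc (R' t) (H' t' / H' t)) ∧
      (∀ t j, (y t j)⁻¹ ∈ Loc B (H' t)) ∧ (∀ t, (Δ t)⁻¹ ∈ Loc B (H' t)) ∧
      (∀ t, Δ t ∈ Loc B (H' t)) ∧ (∀ t, GB (R (f t)) (R' t) s (y t)) ∧
      (∀ t (σ : L →+* L), (∀ b ∈ R (f t), σ b = b) → σ (H (f t)) = H (f t) →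
        ∀ g : Matrix ι ι F, g.det ≠ 0 →
        (∀ i l, σ (r (f t) (x i) l) = ∑ j, g i j • r (f t) (x j) l) →
        (∀ b ∈ R' t, σ b = b) ∧ σ (H' t) = H' t ∧ σ (Δ t) = algebraMap F L g.det * Δ t) ∧
      (∀ t (σ : L →+* L), (∀ y ∈ X, (fun l => σ (y l)) ∈ X) → (∀ b ∈ R' t, σ b = b) →
        ∃ g : Matrix ι ι F, g.det ≠ 0 ∧
        (∀ i, (fun l => σ ((x i : Fin m → L) l)) - ∑ j, g i j • (x j : Fin m → L) ∈ Λ) ∧
        σ (Δ t) = algebraMap F L g.det * Δ t) := by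
  classical
  have he : 0 < Fintype.card F - 1 := by
    have : 1 < Fintype.card F := Fintype.one_lt_card
    omega
  set e := Fintype.card F - 1 with hee
  obtain ⟨M, hM, S', hle, hinv, hrat, hinvB⟩ := step_more2 S x hxB hind e he
  -- the minors
  have hent : ∀ τ : TT r x, Ent (RR R e τ) (Ph τ.2) := fun τ =>
    Ph_ent τ.2 fun l p => τ.2.c_mem l p
  have hfC : ∀ (τ : TT r x) c j, ff x τ c j ∈ RR R e τ := fun τ c j =>
    det_mem fun i l => hent τ _ _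
  have hsp : ∀ (τ τ' : TT r x) c j, ff x τ' c j ∈
      Submodule.span (Loc (RR R e τ) (HH H M e τ' / HH H M e τ))
        (Set.range fun j => ff x τ c j) := by
    intro τ τ' c j
    have hdom := Ph_dom τ.2 τ'.2 (Q := Loc (RR R e τ) (HH H M e τ' / HH H M e τ))
      (fun p' => col_mem_of_op (R := R) (e := e) τ τ'.1.1 (hle τ τ') (le_loc _ _)
        (fun l => S.op τ.1.1 τ'.1.1 l) p'.1 p'.2) (hinv τ τ')
    have h1 := mn_dom hdom (c + 1) (Submodule.subset_span ⟨j.1, j.2, rfl⟩)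
    refine Submodule.span_mono ?_ h1
    rintro _ ⟨F1, G1, rfl⟩
    exact ⟨(F1, G1), rfl⟩
  obtain ⟨M', b0, bB, brt, ble, brat, binv, bgl, blB, biB, bdn⟩ :=
    blow (C := fun τ : TT r x => RR R e τ) (H := fun τ : TT r x => HH H M e τ) (B := B)
      (ff (r := r) x) S'.H0 S'.HB S'.rt S'.gl S'.dn hfC hsp
  let CC : BT (ff (r := r) x) → Subalgebra k L := BC (ff (r := r) x) fun τ : TT r x => RR R e τ
  let HHH : BT (ff (r := r) x) → L := BH (ff (r := r) x) (fun τ : TT r x => HH H M e τ) M'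
  let D : BT (ff (r := r) x) → ℕ → L := fun χ => DF (BD (ff (r := r) x) χ)
  let y : BT (ff (r := r) x) → Fin (Fintype.card ι) → L := fun χ j => yD (D χ) j
  have hD0 : ∀ χ c, D χ c ≠ 0 := fun χ c => DF_ne (fun c => BD_ne (ff (r := r) x) χ c) c
  have hDC : ∀ χ c, D χ c ∈ RR R e χ.1.1 := fun χ c =>
    DF_ind (p := fun a => a ∈ RR R e χ.1.1) (Subalgebra.one_mem _) (fun c => hfC _ _ _) c
  have hDr : ∀ χ χ' c, D χ' c / D χ c ∈ Loc (CC χ) (HHH χ' / HHH χ) := fun χ χ' c =>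
    DF_ind2 (p := fun a b => b / a ∈ Loc (CC χ) (HHH χ' / HHH χ))
      (by rw [div_one]; exact Subalgebra.one_mem _) (fun c => brat χ χ' c) c
  have hDi : ∀ χ χ' c, D χ c / D χ' c ∈ Loc (CC χ) (HHH χ' / HHH χ) := fun χ χ' c =>
    DF_ind2 (p := fun a b => a / b ∈ Loc (CC χ) (HHH χ' / HHH χ))
      (by rw [div_one]; exact Subalgebra.one_mem _) (fun c => binv χ χ' c) c
  have hDB : ∀ χ c, (D χ c)⁻¹ ∈ Loc B (HHH χ) := fun χ c =>
    DF_ind (p := fun a => a⁻¹ ∈ Loc B (HHH χ)) (by rw [inv_one]; exact Subalgebra.one_mem _)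
      (fun c => biB χ c) c
  have hCB : ∀ χ : BT (ff (r := r) x), RR R e χ.1.1 ≤ Loc B (HHH χ) := fun χ =>
    (S'.dn χ.1.1).trans (blB χ)
  have hleC : ∀ χ : BT (ff (r := r) x), RR R e χ.1.1 ≤ CC χ := fun χ =>
    le_BC (C := fun τ : TT r x => RR R e τ) (ff (r := r) x) χ
  let T' := {χ : BT (ff (r := r) x) // GB (R χ.1.1.1.1) (CC χ) s (y χ) ∧ ∀ j, y χ j ∈ CC χ}
  have hfinBT : Finite (BT (ff (r := r) x)) := Subtype.finite
  have hΔB : ∀ τ : TT r x, τ.2.Δ ∈ Loc B (HH H M e τ) := by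
    intro τ
    have h1 : τ.2.Δ = τ.2.Δ ^ e * (1 / τ.2.Δ) ^ (e - 1) := by
      obtain ⟨e', he'⟩ : ∃ e', e = e' + 1 := ⟨e - 1, by omega⟩
      rw [he', Nat.add_sub_cancel, one_div, inv_pow, pow_succ, mul_comm (τ.2.Δ ^ e') τ.2.Δ,
        mul_assoc, mul_inv_cancel₀ (pow_ne_zero _ τ.2.Δ_ne), mul_one]
    rw [h1]
    exact Subalgebra.mul_mem _ (S'.dn τ τ.2.Δ_mem) (Subalgebra.pow_mem _ (hinvB τ) _)
  have hlocB : ∀ τ : TT r x, Loc B (H τ.1.1) ≤ Loc B (HH H M e τ) := by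
    intro τ
    refine loc_le (le_loc _ _) ?_
    have h1 : (H τ.1.1)⁻¹ = H τ.1.1 ^ (M - 1) * τ.2.Δ ^ e * (HH H M e τ)⁻¹ := by
      obtain ⟨M1, hM1⟩ : ∃ M1, M = M1 + 1 := ⟨M - 1, by omega⟩
      change _ = _ * (H τ.1.1 ^ M * τ.2.Δ ^ e)⁻¹
      have h3 : H τ.1.1 ≠ 0 := S.H0 _
      have h4 : τ.2.Δ ≠ 0 := τ.2.Δ_ne
      rw [hM1, Nat.add_sub_cancel]
      generalize H τ.1.1 = α at h3
      generalize τ.2.Δ = δ at h4
      field_simp
      ring
    rw [h1]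
    exact Subalgebra.mul_mem _ (Subalgebra.mul_mem _ (Subalgebra.pow_mem _
      (le_loc _ _ (S.HB _)) _) (Subalgebra.pow_mem _ (hΔB τ) _)) (inv_mem_loc _ _)
  refine ⟨T', inferInstance, fun t => t.1.1.1.1.1, fun t => CC t.1, fun t => HHH t.1,
    fun t => rr t.1.1.1, fun t => y t.1, fun t => t.1.1.1.2.Δ, ?_, fun t => ?_, fun t t' => ?_,
    fun t => ?_, fun t j => ?_, fun t => t.2.2, fun t => t.1.1.1.2.Δ_ne, fun t => ?_,
    fun t t' j => ?_, fun t t' j => ?_, fun t t' => ?_, fun t t' => ?_, fun t j => ?_,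
    fun t => ?_, fun t => ?_, fun t => t.2.1, ?_, ?_⟩
  · refine
      { H0 := fun t => b0 t.1
        HB := fun t => bB t.1
        rt := fun t t' => brt t.1 t'.1
        gl := fun t t' => bgl t.1 t'.1
        dn := fun t => bdn t.1
        coef := fun t l => op_mono (hleC t.1) _ (S'.coef t.1.1.1 l)
        op := fun t t' l => op_mono (ble t.1 t'.1) _ (S'.op t.1.1.1 t'.1.1.1 l)
        ker := fun t y => S'.ker t.1.1.1 y
        int := fun t V hV y hy l =>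
          S'.int t.1.1.1 V (fun a ha => hV a (hleC t.1 ha)) y hy l
        cv := fun V hV => ?_
        dim := fun t => ?_ }
    · obtain ⟨τ, hτ⟩ := S'.cv V hV
      obtain ⟨χ, hχ, h1, h2, h3⟩ := coverB hι τ V hτ
      subst hχ
      exact ⟨⟨χ, h1, h2⟩, h3⟩
    · obtain ⟨P, hP, base, h1, h2⟩ := S'.dim t.1.1.1
      refine ⟨P, hP, base, h1, ?_⟩
      refine spn_le_spn le_rfl fun g hg => ?_
      exact spn_mono (hleC t.1) subset_rfl (h2 (subset_spn hg))
  · exact t.1.1.1.2.le_alg.trans (hleC t.1)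
  · exact (hle t.1.1.1 t'.1.1.1).trans (ble t.1 t'.1)
  · exact (hlocB t.1.1.1).trans (blB t.1)
  · change D t.1 (j + 1) * D t.1 (j - 1) / D t.1 j ^ 2 ≠ 0
    exact div_ne_zero (mul_ne_zero (hD0 _ _) (hD0 _ _)) (pow_ne_zero _ (hD0 _ _))
  · have h1 : t.1.1.1.2.Δ ^ e = (Ph t.1.1.1.2).det := (Ph_det t.1.1.1.2).symm
    have h2 : ∏ j : Fin (Fintype.card ι), y t.1 j ^ (Fintype.card ι - j : ℕ) =
        D t.1 (Fintype.card ι) := by
      rw [← DD_yD (hD0 t.1) rfl (Fintype.card ι), DD_eq_prod]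
    have h3 : D t.1 (Fintype.card ι) =
        BD (ff (r := r) x) t.1 ⟨Fintype.card ι - 1, by omega⟩ := by
      have h4 := DF_succ (BD (ff (r := r) x) t.1) ⟨Fintype.card ι - 1, by omega⟩
      rw [← h4]
      change DF _ (Fintype.card ι) = DF _ (Fintype.card ι - 1 + 1)
      rw [Nat.sub_add_cancel hι]
    have h4 := det_full (Ph t.1.1.1.2) (c := Fintype.card ι - 1 + 1)
      (Nat.sub_add_cancel hι) _ _ (BD_ne (ff (r := r) x) t.1 ⟨Fintype.card ι - 1, by omega⟩)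
    rcases h4 with h4 | h4
    · refine ⟨1, one_ne_zero, ?_⟩
      rw [h2, h3, h1, map_one, one_mul]
      exact h4.symm
    · refine ⟨-1, neg_ne_zero.2 one_ne_zero, ?_⟩
      rw [h2, h3, h1, map_neg, map_one, neg_one_mul, eq_neg_iff_add_eq_zero, add_comm,
        ← eq_neg_iff_add_eq_zero]
      exact h4
  · have h1 : y t'.1 j / y t.1 j = (D t'.1 (j + 1) / D t.1 (j + 1)) *
        (D t'.1 (j - 1) / D t.1 (j - 1)) * (D t.1 j / D t'.1 j) ^ 2 := by
      change D t'.1 (j + 1) * D t'.1 (j - 1) / D t'.1 j ^ 2 /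
        (D t.1 (j + 1) * D t.1 (j - 1) / D t.1 j ^ 2) = _
      have := hD0 t.1 (j + 1)
      have := hD0 t.1 (j - 1)
      have := hD0 t.1 j
      have := hD0 t'.1 j
      field_simp
    change y t'.1 j / y t.1 j ∈ _
    rw [h1]
    exact Subalgebra.mul_mem _ (Subalgebra.mul_mem _ (hDr _ _ _) (hDr _ _ _))
      (Subalgebra.pow_mem _ (hDi _ _ _) _)
  · have h1 : y t.1 j / y t'.1 j = (D t.1 (j + 1) / D t'.1 (j + 1)) *
        (D t.1 (j - 1) / D t'.1 (j - 1)) * (D t'.1 j / D t.1 j) ^ 2 := by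
      change D t.1 (j + 1) * D t.1 (j - 1) / D t.1 j ^ 2 /
        (D t'.1 (j + 1) * D t'.1 (j - 1) / D t'.1 j ^ 2) = _
      have := hD0 t'.1 (j + 1)
      have := hD0 t'.1 (j - 1)
      have := hD0 t.1 j
      have := hD0 t'.1 j
      field_simp
    change y t.1 j / y t'.1 j ∈ _
    rw [h1]
    exact Subalgebra.mul_mem _ (Subalgebra.mul_mem _ (hDi _ _ _) (hDi _ _ _))
      (Subalgebra.pow_mem _ (hDr _ _ _) _)
  · exact ble t.1 t'.1 (hrat _ _)
  · exact ble t.1 t'.1 (hinv _ _)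
  · have h1 : (y t.1 j)⁻¹ = D t.1 j ^ 2 * ((D t.1 (j + 1))⁻¹ * (D t.1 (j - 1))⁻¹) := by
      change (D t.1 (j + 1) * D t.1 (j - 1) / D t.1 j ^ 2)⁻¹ = _
      rw [inv_div, mul_comm (D t.1 (j + 1)), div_eq_mul_inv, mul_inv]
      ring
    change (y t.1 j)⁻¹ ∈ _
    rw [h1]
    exact Subalgebra.mul_mem _ (Subalgebra.pow_mem _ (hCB _ (hDC _ _)) _)
      (Subalgebra.mul_mem _ (hDB _ _) (hDB _ _))
  · have h1 := blB t.1 (hinvB t.1.1.1)
    rwa [one_div] at h1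
  · exact blB t.1 (hΔB t.1.1.1)
  · intro t σ hR hH g hg0 hg
    have hg1 : g.det ^ e = 1 := FiniteField.pow_card_sub_one_eq_one _ hg0
    obtain ⟨h1, h2⟩ := fix_step σ t.1.1.1 hR g hg hg1 he hH M
    have hk : ∀ c : k, σ (algebraMap k L c) = algebraMap k L c := fun c =>
      h1 _ (Subalgebra.algebraMap_mem _ c)
    refine ⟨fun a ha => ?_, ?_, sigma_Δ σ t.1.1.1.2 g hg⟩
    · have h3 : CC t.1 ≤ fixA σ hk := by
        refine BC_le (ff (r := r) x) (fun a ha => h1 a ha) fun c j => ?_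
        change σ _ = _
        have h4 := h1 _ (hfC t.1.1.1 c j)
        have h5 := h1 _ (hfC t.1.1.1 c (t.1.1.2 c))
        rw [map_div₀, h4]
        congr 1
      exact h3 ha
    · change σ (_ ^ M' * ∏ c, BD (ff (r := r) x) t.1 c) =
        _ ^ M' * ∏ c, BD (ff (r := r) x) t.1 c
      rw [map_mul, map_pow, map_prod, h2]
      congr 1
      exact Finset.prod_congr rfl fun c _ => h1 _ (hfC t.1.1.1 c (t.1.1.2 c))
  · intro t σ hX hR
    obtain ⟨g, hg1, hg2⟩ := conv_step S hind σ hX t.1.1.1 fun a ha => hR a (hleC t.1 ha)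
    have hg0 : g.det ≠ 0 := by
      intro h0
      rw [h0, zero_pow he.ne'] at hg1
      exact zero_ne_one hg1
    refine ⟨g, hg0, hg2, sigma_Δ σ t.1.1.1.2 g fun i l => ?_⟩
    have hR0 : ∀ b ∈ R t.1.1.1.1.1, σ b = b := fun b hb =>
      hR b (hleC t.1 (t.1.1.1.2.le_alg hb))
    rw [sigma_r S σ t.1.1.1.1.1 hR0 (x i) ⟨_, hX _ (x i).2⟩ (fun l => rfl)]
    have h4 : r t.1.1.1.1.1 ((⟨_, hX _ (x i).2⟩ : X) - ∑ j, g i j • x j) = 0 := by
      rw [S.ker, Submodule.coe_sub, Submodule.coe_sum]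
      exact hg2 i
    rw [map_sub, sub_eq_zero] at h4
    rw [h4, map_sum, Finset.sum_apply]
    exact Finset.sum_congr rfl fun j _ => by rw [map_smul]; rfl

end stepB

end Pool.Agent.R837.FD
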